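import Mathlib
import Pool.Agent.Q223.PD.Fpa
import Pool.Agent.Q74.PD.Pas2
import Pool.Agent.H319R2.GTk
import Pool.Agent.Results.MP_7f88e4_nt.OrbitCount

set_option autoImplicit false

/-! # Meeting a given trajectory at a high place is rare -/

namespace Pool.Agent.Q74.MG

open Finset Filter Topology
open Pool.Agent.H499R2.ND (Td)
open Pool.Agent.Q204.PDP (oc oc_emod card_many_odd card_period_le iter_affine rho rho_pos rho_lt)
open Pool.Agent.Q223.PD (iter_class)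

/-- the trajectory of `n` reaches a term of the trajectory of `m` through terms `> y` only -/
def Meets (d : ℤ) (y : ℝ) (m n : ℤ) : Prop :=
  ∃ i j : ℕ, (Td d)^[i] n = (Td d)^[j] m ∧ ∀ l < i, y < (((Td d)^[l] n : ℤ) : ℝ)

theorem cls_inj {d : ℤ} (hd : Odd d) (s : ℕ) {n n' : ℤ} (h : n % 2 ^ s = n' % 2 ^ s)
    (h2 : (Td d)^[s] n = (Td d)^[s] n') : n = n' := by
  have h3 : (2 : ℤ) ^ s ∣ n' - n := Int.ModEq.dvd h
  obtain ⟨k, hk⟩ := h3
  have h4 : n' = n + 2 ^ s * k := by linarith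
  rw [h4, iter_class hd] at h2
  have h5 : (3 : ℤ) ^ oc d s n * k = 0 := by linarith
  have h6 : k = 0 := by
    rcases mul_eq_zero.1 h5 with h | h
    · exact absurd h (by positivity)
    · exact h
  rw [h4, h6]
  ring

theorem card_fiber {d : ℤ} (hd : Odd d) (s : ℕ) (b : ℤ) (F : Finset ℤ) :
    (F.filter fun n => (Td d)^[s] n = b).card ≤ 2 ^ s := by
  rw [← card_range (2 ^ s)]
  have hq : (0 : ℤ) < 2 ^ s := by positivity
  refine card_le_card_of_injOn (fun n => (n % 2 ^ s).toNat) ?_ ?_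
  · intro n _
    have h1 := Int.emod_nonneg n hq.ne'
    have h2 := Int.emod_lt_of_pos n hq
    simp only [Finset.mem_coe, mem_range]
    have h3 : (((n % 2 ^ s).toNat : ℕ) : ℤ) < ((2 ^ s : ℕ) : ℤ) := by
      rw [Int.toNat_of_nonneg h1]
      push_cast
      exact h2
    exact_mod_cast h3
  · intro n hn n' hn' h
    rw [Finset.mem_coe, mem_filter] at hn hn'
    have h1 := Int.emod_nonneg n hq.ne'
    have h2 := Int.emod_nonneg n' hq.ne'
    have h3 : n % 2 ^ s = n' % 2 ^ s := by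
      have h4 : (((n % 2 ^ s).toNat : ℕ) : ℤ) = (((n' % 2 ^ s).toNat : ℕ) : ℤ) := by
        exact_mod_cast h
      rwa [Int.toNat_of_nonneg h1, Int.toNat_of_nonneg h2] at h4
    exact cls_inj hd s h3 (hn.2.trans hn'.2.symm)

/-- late first passage -/
theorem card_late {d : ℤ} (hd : Odd d) {y : ℝ} (N L : ℕ)
    (h : (N : ℝ) * 27 ^ L + |(d : ℝ)| * 243 ^ L ≤ y * 32 ^ L) :
    (((Finset.Icc (1 : ℤ) N).filter fun n => y < (((Td d)^[5 * L] n : ℤ) : ℝ)).card : ℝ) ≤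
      (N + 32 ^ L) * rho ^ (5 * L) := by
  classical
  have e32 : (2 : ℝ) ^ (5 * L) = 32 ^ L := by rw [pow_mul]; norm_num
  have e27 : (3 : ℝ) ^ (3 * L) = 27 ^ L := by rw [pow_mul]; norm_num
  have e243 : (3 : ℝ) ^ (5 * L) = 243 ^ L := by rw [pow_mul]; norm_num
  have hsub : ((Finset.Icc (1 : ℤ) N).filter fun n => y < (((Td d)^[5 * L] n : ℤ) : ℝ)) ⊆
      (Finset.Icc (1 : ℤ) N).filter fun n => 3 * (5 * L) ≤ 5 * oc d (5 * L) n := by
    intro n hn
    rw [mem_filter] at hn ⊢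
    refine ⟨hn.1, ?_⟩
    obtain ⟨hn1, hn2⟩ := hn
    rw [Finset.mem_Icc] at hn1
    by_contra hc
    have hc' : oc d (5 * L) n ≤ 3 * L := by omega
    have haff := iter_affine hd (5 * L) n
    have h4 := (abs_le.1 haff).2
    have h5 : (2 : ℤ) ^ (5 * L) * (Td d)^[5 * L] n ≤ 3 ^ oc d (5 * L) n * n + |d| * 3 ^ (5 * L) := by linarith
    have h6 : (2 : ℝ) ^ (5 * L) * (((Td d)^[5 * L] n : ℤ) : ℝ) ≤
        3 ^ oc d (5 * L) n * n + |(d : ℝ)| * 3 ^ (5 * L) := by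
      exact_mod_cast h5
    have h7 : (3 : ℝ) ^ oc d (5 * L) n ≤ 27 ^ L := by
      rw [← e27]
      exact pow_le_pow_right₀ (by norm_num) hc'
    have hn0 : (1 : ℝ) ≤ n := by exact_mod_cast hn1.1
    have hnN : (n : ℝ) ≤ N := by exact_mod_cast hn1.2
    rw [e32, e243] at h6
    have h8 : (3 : ℝ) ^ oc d (5 * L) n * n ≤ 27 ^ L * N :=
      mul_le_mul h7 hnN (by linarith) (by positivity)
    have h9 : (32 : ℝ) ^ L * (((Td d)^[5 * L] n : ℤ) : ℝ) ≤ 32 ^ L * y := by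
      calc (32 : ℝ) ^ L * (((Td d)^[5 * L] n : ℤ) : ℝ) ≤ 27 ^ L * N + |(d : ℝ)| * 243 ^ L := by linarith
        _ ≤ 32 ^ L * y := by linarith
    have h10 := le_of_mul_le_mul_left h9 (by positivity)
    linarith
  have h1 : (((Finset.Icc (1 : ℤ) N).filter fun n => 3 * (5 * L) ≤ 5 * oc d (5 * L) n).card : ℝ) ≤
      ((N / 2 ^ (5 * L) + 1 : ℕ) : ℝ) * (2 ^ (5 * L) * rho ^ (5 * L)) := by
    have h2 := card_period_le (2 ^ (5 * L)) (by positivity) (fun n => 3 * (5 * L) ≤ 5 * oc d (5 * L) n)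
      (fun x => by
        have e : (((2 ^ (5 * L) : ℕ) : ℤ)) = 2 ^ (5 * L) := by push_cast; ring
        rw [e, oc_emod hd]) N
    have h3 := card_many_odd hd (5 * L)
    calc (((Finset.Icc (1 : ℤ) N).filter fun n => 3 * (5 * L) ≤ 5 * oc d (5 * L) n).card : ℝ)
        ≤ (((N / 2 ^ (5 * L) + 1) * ((range (2 ^ (5 * L))).filter
            (fun r : ℕ => 3 * (5 * L) ≤ 5 * oc d (5 * L) (r : ℤ))).card : ℕ) : ℝ) := by exact_mod_cast h2
      _ = ((N / 2 ^ (5 * L) + 1 : ℕ) : ℝ) * (((range (2 ^ (5 * L))).filter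
            (fun r : ℕ => 3 * (5 * L) ≤ 5 * oc d (5 * L) (r : ℤ))).card : ℝ) := by push_cast; ring
      _ ≤ _ := mul_le_mul_of_nonneg_left h3 (by positivity)
  have h2 : ((N / 2 ^ (5 * L) + 1 : ℕ) : ℝ) * 2 ^ (5 * L) ≤ N + 32 ^ L := by
    have h3 : (N / 2 ^ (5 * L)) * 2 ^ (5 * L) ≤ N := Nat.div_mul_le_self _ _
    have h4 : (((N / 2 ^ (5 * L)) * 2 ^ (5 * L) : ℕ) : ℝ) ≤ N := by exact_mod_cast h3
    push_cast at h4 ⊢
    rw [add_mul, one_mul, ← e32]
    linarith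
  calc (((Finset.Icc (1 : ℤ) N).filter fun n => y < (((Td d)^[5 * L] n : ℤ) : ℝ)).card : ℝ)
      ≤ (((Finset.Icc (1 : ℤ) N).filter fun n => 3 * (5 * L) ≤ 5 * oc d (5 * L) n).card : ℝ) := by
        exact_mod_cast card_le_card hsub
    _ ≤ ((N / 2 ^ (5 * L) + 1 : ℕ) : ℝ) * (2 ^ (5 * L) * rho ^ (5 * L)) := h1
    _ = ((N / 2 ^ (5 * L) + 1 : ℕ) : ℝ) * 2 ^ (5 * L) * rho ^ (5 * L) := by ring
    _ ≤ _ := mul_le_mul_of_nonneg_right h2 (pow_nonneg rho_pos.le _)

/-- the terms of absolute value `≤ y` of a trajectory -/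
def Tr (d : ℤ) (m : ℤ) (y : ℝ) : Set ℤ := {b | (∃ k : ℕ, (Td d)^[k] m = b) ∧ |(b : ℝ)| ≤ y}

theorem Tr_finite (d m : ℤ) (y : ℝ) : (Tr d m y).Finite := by
  apply (Set.finite_Icc (-⌈y⌉) ⌈y⌉).subset
  intro b hb
  have h := hb.2
  rw [abs_le] at h
  have h1 := Int.le_ceil y
  constructor
  · have : (-(⌈y⌉ : ℝ)) ≤ b := by linarith
    exact_mod_cast this
  · have : (b : ℝ) ≤ ⌈y⌉ := by linarith
    exact_mod_cast this

theorem count_meets {d : ℤ} (hd : Odd d) {y : ℝ} (hdy : |(d : ℝ)| ≤ y) (m : ℤ) (N L : ℕ)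
    (h : (N : ℝ) * 27 ^ L + |(d : ℝ)| * 243 ^ L ≤ y * 32 ^ L) :
    ({n : ℤ | 1 ≤ n ∧ n ≤ N ∧ Meets d y m n}.ncard : ℝ) ≤
      2 * 32 ^ L * (Tr d m y).ncard + (N + 32 ^ L) * rho ^ (5 * L) := by
  classical
  have hA := Tr_finite d m y
  set A := hA.toFinset with hAdef
  have hsub : {n : ℤ | 1 ≤ n ∧ n ≤ N ∧ Meets d y m n} ⊆
      ((((range (5 * L + 1)) ×ˢ A).biUnion fun p => (Finset.Icc (1 : ℤ) N).filter fun n => (Td d)^[p.1] n = p.2) ∪
        ((Finset.Icc (1 : ℤ) N).filter fun n => y < (((Td d)^[5 * L] n : ℤ) : ℝ)) : Finset ℤ) := by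
    rintro n ⟨hn1, hn2, i, j, hij, hl⟩
    rw [Finset.mem_coe, mem_union]
    by_cases hK : y < (((Td d)^[5 * L] n : ℤ) : ℝ)
    · right
      rw [mem_filter, Finset.mem_Icc]
      exact ⟨⟨hn1, hn2⟩, hK⟩
    · left
      rw [not_lt] at hK
      have hex : ∃ k : ℕ, (((Td d)^[k] n : ℤ) : ℝ) ≤ y := ⟨_, hK⟩
      have h1 : Nat.find hex ≤ 5 * L := Nat.find_min' hex hK
      have h2 := Nat.find_spec hex
      have h3 : i ≤ Nat.find hex := by
        by_contra hc
        rw [not_le] at hc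
        exact absurd (hl _ hc) (not_lt.2 h2)
      have h4 : 1 ≤ (Td d)^[Nat.find hex] n := by
        rcases Nat.eq_zero_or_pos (Nat.find hex) with h0 | h0
        · rw [h0]
          exact hn1
        · obtain ⟨k, hk⟩ : ∃ k, Nat.find hex = k + 1 := ⟨Nat.find hex - 1, by omega⟩
          have h5 : ∀ l ≤ k, 1 ≤ (Td d)^[l] n ∧ y < (((Td d)^[l] n : ℤ) : ℝ) := by
            intro l
            induction l with
            | zero => exact fun _ => ⟨hn1, not_le.1 (Nat.find_min hex (by omega))⟩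
            | succ l ih =>
              intro hl'
              obtain ⟨g1, g2⟩ := ih (by omega)
              refine ⟨?_, not_le.1 (Nat.find_min hex (by omega))⟩
              rw [Function.iterate_succ_apply']
              exact Pool.Agent.Q74.PD.Td_pos_of hdy g1 g2
          obtain ⟨g1, g2⟩ := h5 k le_rfl
          rw [hk, Function.iterate_succ_apply']
          exact Pool.Agent.Q74.PD.Td_pos_of hdy g1 g2
      rw [mem_biUnion]
      refine ⟨(Nat.find hex, (Td d)^[Nat.find hex] n), ?_, ?_⟩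
      · rw [mem_product, mem_range]
        refine ⟨by simpa using Nat.lt_succ_of_le h1, ?_⟩
        rw [hAdef, Set.Finite.mem_toFinset]
        refine ⟨⟨Nat.find hex - i + j, ?_⟩, ?_⟩
        · rw [Function.iterate_add_apply, ← hij, ← Function.iterate_add_apply]
          congr 1
          omega
        · rw [abs_of_nonneg]
          · exact h2
          · have : (0 : ℤ) ≤ (Td d)^[Nat.find hex] n := by omega
            exact_mod_cast this
      · rw [mem_filter, Finset.mem_Icc]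
        exact ⟨⟨hn1, hn2⟩, rfl⟩
  have h1 : ({n : ℤ | 1 ≤ n ∧ n ≤ N ∧ Meets d y m n}.ncard : ℝ) ≤
      (((((range (5 * L + 1)) ×ˢ A).biUnion fun p => (Finset.Icc (1 : ℤ) N).filter fun n => (Td d)^[p.1] n = p.2) ∪
        ((Finset.Icc (1 : ℤ) N).filter fun n => y < (((Td d)^[5 * L] n : ℤ) : ℝ)) : Finset ℤ).card : ℝ) := by
    rw [← Set.ncard_coe_finset]
    exact_mod_cast Set.ncard_le_ncard hsub (Finset.finite_toSet _)
  have h2 : ((((range (5 * L + 1)) ×ˢ A).biUnion fun p => (Finset.Icc (1 : ℤ) N).filter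
      fun n => (Td d)^[p.1] n = p.2).card : ℝ) ≤ 2 * 32 ^ L * A.card := by
    have h3 : (((range (5 * L + 1)) ×ˢ A).biUnion fun p => (Finset.Icc (1 : ℤ) N).filter
        fun n => (Td d)^[p.1] n = p.2).card ≤ ∑ p ∈ (range (5 * L + 1)) ×ˢ A, 2 ^ p.1 :=
      card_biUnion_le.trans (sum_le_sum fun p _ => card_fiber hd p.1 p.2 _)
    have h4 : ∑ p ∈ (range (5 * L + 1)) ×ˢ A, 2 ^ p.1 = (2 ^ (5 * L + 1) - 1) * A.card := by
      rw [sum_product]
      simp only [sum_const, smul_eq_mul]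
      rw [← Finset.mul_sum, mul_comm, Nat.geomSum_eq (le_refl 2)]
      simp
    rw [h4] at h3
    have h5 : (2 ^ (5 * L + 1) - 1) * A.card ≤ 2 * 32 ^ L * A.card := by
      apply Nat.mul_le_mul_right
      have : 2 ^ (5 * L + 1) = 2 * 32 ^ L := by
        rw [pow_succ, pow_mul]
        norm_num
        ring
      omega
    exact_mod_cast h3.trans h5
  have h3 := card_late hd (y := y) N L h
  have h4 : (Tr d m y).ncard = A.card := Set.ncard_eq_toFinset_card _ hA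
  rw [h4]
  have h5 : (((((range (5 * L + 1)) ×ˢ A).biUnion fun p => (Finset.Icc (1 : ℤ) N).filter fun n => (Td d)^[p.1] n = p.2) ∪
        ((Finset.Icc (1 : ℤ) N).filter fun n => y < (((Td d)^[5 * L] n : ℤ) : ℝ)) : Finset ℤ).card : ℝ) ≤
      ((((range (5 * L + 1)) ×ˢ A).biUnion fun p => (Finset.Icc (1 : ℤ) N).filter
        fun n => (Td d)^[p.1] n = p.2).card : ℝ) +
      (((Finset.Icc (1 : ℤ) N).filter fun n => y < (((Td d)^[5 * L] n : ℤ) : ℝ)).card : ℝ) := by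
    exact_mod_cast card_union_le _ _
  linarith

end Pool.Agent.Q74.MG
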