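import Mathlib
import Pool.Agent.Q74.MG.Hit

set_option autoImplicit false

/-! # Meeting a given trajectory at a high place is rare: starting points `≤ y^(1+1/2000)` -/

namespace Pool.Agent.Q74.MG

open Finset Filter Topology
open Pool.Agent.H499R2.ND (Td)
open Pool.Agent.Q204.PDP (rho rho_pos rho_lt)

theorem Tr_card : ∃ A : ℝ, 0 < A ∧ ∀ d : ℤ, d % 2 = 1 → ¬ (3 : ℤ) ∣ d → ∀ (m : ℤ) (y : ℝ), 1 ≤ y →
    ((Tr d m y).ncard : ℝ) ≤ A * |(d : ℝ)| * Real.exp (96 / 100 * Real.log y) := by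
  obtain ⟨h1, h2⟩ := Pool.Agent.Results.MP_7f88e4_nt.OrbitCount.result
  obtain ⟨A, hA⟩ := h1 (96 / 100) (by linarith) (by norm_num)
  refine ⟨max A 1, by positivity, fun d hd hd3 m y hy => ?_⟩
  have hd0 : (1 : ℝ) ≤ |(d : ℝ)| := by
    have : (1 : ℤ) ≤ |d| := Int.one_le_abs (by omega)
    exact_mod_cast this
  have h3 := hA d (by omega) m y hy
  have h4 : ((Tr d m y).ncard : ℝ) ≤ A * |(d : ℝ)| ^ (1 - 96 / 100 : ℝ) * y ^ (96 / 100 : ℝ) := h3
  have h5 : y ^ (96 / 100 : ℝ) = Real.exp (96 / 100 * Real.log y) := by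
    rw [Real.rpow_def_of_pos (by linarith), mul_comm]
  have h6 : |(d : ℝ)| ^ (1 - 96 / 100 : ℝ) ≤ |(d : ℝ)| := by
    calc |(d : ℝ)| ^ (1 - 96 / 100 : ℝ) ≤ |(d : ℝ)| ^ (1 : ℝ) :=
          Real.rpow_le_rpow_of_exponent_le hd0 (by norm_num)
      _ = |(d : ℝ)| := Real.rpow_one _
  rw [h5] at h4
  refine h4.trans (mul_le_mul_of_nonneg_right ?_ (Real.exp_pos _).le)
  have h7 : (0 : ℝ) ≤ |(d : ℝ)| ^ (1 - 96 / 100 : ℝ) := by positivity
  calc A * |(d : ℝ)| ^ (1 - 96 / 100 : ℝ) ≤ max A 1 * |(d : ℝ)| ^ (1 - 96 / 100 : ℝ) :=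
        mul_le_mul_of_nonneg_right (le_max_left _ _) h7
    _ ≤ _ := mul_le_mul_of_nonneg_left h6 (by positivity)

/-- proportion of the `n ≤ N` which meet the trajectory of `m` -/
noncomputable def fm (d : ℤ) (y : ℝ) (m : ℤ) (N : ℕ) : ℝ :=
  ({n : ℤ | 1 ≤ n ∧ n ≤ N ∧ Meets d y m n}.ncard : ℝ) / N

theorem fm_le_one (d : ℤ) (y : ℝ) (m : ℤ) (N : ℕ) : fm d y m N ≤ 1 := by
  unfold fm
  apply div_le_one_of_le₀ _ (Nat.cast_nonneg _)
  have h : {n : ℤ | 1 ≤ n ∧ n ≤ N ∧ Meets d y m n} ⊆ (Finset.Icc (1 : ℤ) N : Finset ℤ) := by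
    intro n hn
    rw [Finset.mem_coe, Finset.mem_Icc]
    exact ⟨hn.1, hn.2.1⟩
  have h1 := Set.ncard_le_ncard h (Finset.finite_toSet _)
  rw [Set.ncard_coe_finset, Int.card_Icc] at h1
  have h2 : ((N : ℤ) + 1 - 1).toNat = N := by simp
  rw [h2] at h1
  exact_mod_cast h1

theorem rare0 : ∃ c₁ : ℝ, 0 < c₁ ∧ ∀ d : ℤ, d % 2 = 1 → ¬ (3 : ℤ) ∣ d → ∃ C₁ : ℝ, 0 < C₁ ∧
    ∀ (m : ℤ) (y : ℝ) (N : ℕ), 1 ≤ y → |(d : ℝ)| ≤ y → y ≤ N →
      (N : ℝ) ≤ Real.exp (2001 / 2000 * Real.log y) → fm d y m N ≤ C₁ * Real.exp (-(c₁ * Real.log y)) := by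
  obtain ⟨A, hA0, hA⟩ := Tr_card
  have hr0 := rho_pos
  have hlr : Real.log rho < 0 := Real.log_neg hr0 rho_lt
  obtain ⟨c₁, hc₁⟩ : ∃ c₁, c₁ = min (22 / 1000 : ℝ) (-(Real.log rho / 40)) := ⟨_, rfl⟩
  have hc0 : 0 < c₁ := by
    rw [hc₁]
    exact lt_min (by norm_num) (by linarith)
  have hc2 : c₁ ≤ 22 / 1000 := by rw [hc₁]; exact min_le_left _ _
  have hc3 : c₁ ≤ -(Real.log rho / 40) := by rw [hc₁]; exact min_le_right _ _
  refine ⟨c₁, hc0, fun d hd hd3 => ?_⟩
  have hd0 : (1 : ℝ) ≤ |(d : ℝ)| := by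
    have : (1 : ℤ) ≤ |d| := Int.one_le_abs (by omega)
    exact_mod_cast this
  obtain ⟨t₀, ht₀⟩ : ∃ t₀, t₀ = 1000 + 2 * Real.log (10 * |(d : ℝ)|) := ⟨_, rfl⟩
  have hlog0 : 0 ≤ Real.log (10 * |(d : ℝ)|) := Real.log_nonneg (by linarith)
  have hE : 0 < Real.exp (-(5 * Real.log rho)) := Real.exp_pos _
  refine ⟨2 * A * |(d : ℝ)| + 2 * Real.exp (-(5 * Real.log rho)) + Real.exp (c₁ * t₀), by positivity,
    fun m y N hy hdy hyN hN => ?_⟩
  obtain ⟨t, ht⟩ : ∃ t, t = Real.log y := ⟨_, rfl⟩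
  have ht0 : 0 ≤ t := by rw [ht]; exact Real.log_nonneg hy
  have hyt : y = Real.exp t := by rw [ht, Real.exp_log (by linarith)]
  have hN0 : (0 : ℝ) < N := by linarith
  rw [← ht] at hN ⊢
  by_cases htt : t₀ ≤ t
  swap
  · rw [not_le] at htt
    refine (fm_le_one d y m N).trans ?_
    have h1 : 1 ≤ Real.exp (c₁ * t₀) * Real.exp (-(c₁ * t)) := by
      rw [← Real.exp_add]
      apply Real.one_le_exp
      nlinarith
    have h2 : 0 < Real.exp (-(c₁ * t)) := Real.exp_pos _
    have h3 : 0 ≤ (2 * A * |(d : ℝ)| + 2 * Real.exp (-(5 * Real.log rho))) * Real.exp (-(c₁ * t)) := by positivity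
    calc (1 : ℝ) ≤ Real.exp (c₁ * t₀) * Real.exp (-(c₁ * t)) := h1
      _ ≤ _ := by rw [add_mul]; linarith
  · obtain ⟨L, hL⟩ : ∃ L : ℕ, L = ⌊t / 200⌋₊ := ⟨_, rfl⟩
    have hL1 : (L : ℝ) ≤ t / 200 := by rw [hL]; exact Nat.floor_le (by positivity)
    have hL2 : t / 200 < L + 1 := by rw [hL]; exact Nat.lt_floor_add_one _
    have hpow : ∀ a : ℝ, 0 < a → a ^ L = Real.exp (L * Real.log a) := fun a ha => by
      rw [Real.exp_nat_mul, Real.exp_log ha]
    -- numerical values
    have hl2u : Real.log 2 < 0.6931471808 := Real.log_two_lt_d9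
    have hl2l : 0.6931471803 < Real.log 2 := Real.log_two_gt_d9
    have hl32 : Real.log 32 ≤ 3.47 := by
      rw [show (32 : ℝ) = 2 ^ 5 by norm_num, Real.log_pow]
      push_cast
      linarith
    have hl3227 : 0.16 ≤ Real.log 32 - Real.log 27 := by
      rw [← Real.log_div (by norm_num) (by norm_num), Real.le_log_iff_exp_le (by norm_num)]
      have h1 : Real.exp 0.16 = Real.exp 0.04 ^ 4 := by
        rw [← Real.exp_nat_mul]
        norm_num
      rw [h1]
      have h2 : Real.exp 0.04 ≤ 1.042 := by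
        have := Real.exp_bound' (x := 0.04) (by norm_num) (by norm_num) (n := 3) (by norm_num)
        refine this.trans ?_
        norm_num [Finset.sum_range_succ, Nat.factorial]
      calc Real.exp 0.04 ^ 4 ≤ 1.042 ^ 4 := pow_le_pow_left₀ (Real.exp_pos _).le h2 4
        _ ≤ _ := by norm_num
    have hl24332 : Real.log 243 - Real.log 32 ≤ 2.1 := by
      rw [← Real.log_div (by norm_num) (by norm_num), Real.log_le_iff_le_exp (by norm_num)]
      have h1 : Real.exp 2.1 = Real.exp 1 ^ 2 * Real.exp 0.1 := by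
        rw [← Real.exp_nat_mul, ← Real.exp_add]
        norm_num
      have h2 := Real.exp_one_gt_d9
      have h3 : 1.1 ≤ Real.exp 0.1 := by
        have := Real.add_one_le_exp (0.1 : ℝ)
        linarith
      rw [h1]
      have h4 : (2.7182818283 : ℝ) ^ 2 ≤ Real.exp 1 ^ 2 := pow_le_pow_left₀ (by norm_num) h2.le 2
      calc (243 / 32 : ℝ) ≤ 2.7182818283 ^ 2 * 1.1 := by norm_num
        _ ≤ _ := mul_le_mul h4 h3 (by norm_num) (by positivity)
    have h32 : (32 : ℝ) ^ L ≤ Real.exp (0.018 * t) := by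
      rw [hpow 32 (by norm_num)]
      apply Real.exp_le_exp.2
      have : (L : ℝ) * Real.log 32 ≤ t / 200 * 3.47 :=
        mul_le_mul hL1 hl32 (Real.log_nonneg (by norm_num)) (by positivity)
      linarith
    -- the condition
    have hcond : (N : ℝ) * 27 ^ L + |(d : ℝ)| * 243 ^ L ≤ y * 32 ^ L := by
      have h32p : (0 : ℝ) < 32 ^ L := by positivity
      have e1 : (27 : ℝ) ^ L = Real.exp (-(L * (Real.log 32 - Real.log 27))) * 32 ^ L := by
        rw [hpow 27 (by norm_num), hpow 32 (by norm_num), ← Real.exp_add]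
        congr 1
        ring
      have e2 : (243 : ℝ) ^ L = Real.exp (L * (Real.log 243 - Real.log 32)) * 32 ^ L := by
        rw [hpow 243 (by norm_num), hpow 32 (by norm_num), ← Real.exp_add]
        congr 1
        ring
      have g1 : Real.exp (-(L * (Real.log 32 - Real.log 27))) ≤ Real.exp (0.16 - 0.0008 * t) := by
        apply Real.exp_le_exp.2
        have h1 : (t / 200 - 1) * 0.16 ≤ (L : ℝ) * (Real.log 32 - Real.log 27) := by
          have h2 : (1000 : ℝ) ≤ t := by linarith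
          exact mul_le_mul (by linarith) hl3227 (by norm_num) (Nat.cast_nonneg _)
        linarith
      have g2 : (N : ℝ) * Real.exp (-(L * (Real.log 32 - Real.log 27))) ≤ 9 / 10 * y := by
        calc (N : ℝ) * Real.exp (-(L * (Real.log 32 - Real.log 27)))
            ≤ Real.exp (2001 / 2000 * t) * Real.exp (0.16 - 0.0008 * t) :=
              mul_le_mul hN g1 (Real.exp_pos _).le (Real.exp_pos _).le
          _ = Real.exp (0.16 - 0.0003 * t) * Real.exp t := by
              rw [← Real.exp_add, ← Real.exp_add]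
              congr 1
              ring
          _ ≤ 9 / 10 * Real.exp t := by
              apply mul_le_mul_of_nonneg_right _ (Real.exp_pos _).le
              have h1 : Real.exp (0.16 - 0.0003 * t) ≤ Real.exp (-0.14) :=
                Real.exp_le_exp.2 (by linarith)
              refine h1.trans ?_
              rw [Real.exp_neg, inv_le_comm₀ (Real.exp_pos _) (by norm_num)]
              have := Real.add_one_le_exp (0.14 : ℝ)
              linarith
          _ = 9 / 10 * y := by rw [hyt]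
      have g3 : |(d : ℝ)| * Real.exp (L * (Real.log 243 - Real.log 32)) ≤ 1 / 10 * y := by
        have h1 : Real.exp (L * (Real.log 243 - Real.log 32)) ≤ Real.exp (t / 2) := by
          apply Real.exp_le_exp.2
          have h2 : 0 ≤ Real.log 243 - Real.log 32 := by
            have := Real.log_le_log (by norm_num) (by norm_num : (32 : ℝ) ≤ 243)
            linarith
          have h3 : (L : ℝ) * (Real.log 243 - Real.log 32) ≤ t / 200 * 2.1 :=
            mul_le_mul hL1 hl24332 h2 (by positivity)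
          linarith
        have h2 : 10 * |(d : ℝ)| ≤ Real.exp (t / 2) := by
          rw [← Real.log_le_iff_le_exp (by positivity)]
          linarith
        have h3 : Real.exp t = Real.exp (t / 2) * Real.exp (t / 2) := by
          rw [← Real.exp_add]
          congr 1
          ring
        rw [hyt, h3]
        have h4 := Real.exp_pos (t / 2)
        calc |(d : ℝ)| * Real.exp (L * (Real.log 243 - Real.log 32)) ≤ |(d : ℝ)| * Real.exp (t / 2) :=
              mul_le_mul_of_nonneg_left h1 (by positivity)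
          _ ≤ 1 / 10 * (Real.exp (t / 2) * Real.exp (t / 2)) := by nlinarith
      rw [e1, e2]
      calc (N : ℝ) * (Real.exp (-(L * (Real.log 32 - Real.log 27))) * 32 ^ L) +
          |(d : ℝ)| * (Real.exp (L * (Real.log 243 - Real.log 32)) * 32 ^ L)
          = ((N : ℝ) * Real.exp (-(L * (Real.log 32 - Real.log 27))) +
              |(d : ℝ)| * Real.exp (L * (Real.log 243 - Real.log 32))) * 32 ^ L := by ring
        _ ≤ y * 32 ^ L := mul_le_mul_of_nonneg_right (by linarith) h32p.le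
    have h1 := count_meets (Int.odd_iff.2 hd) hdy m N L hcond
    have h2 := hA d hd hd3 m y hy
    rw [← ht] at h2
    have h3 : (32 : ℝ) ^ L ≤ N := by
      refine h32.trans (le_trans ?_ hyN)
      rw [hyt]
      exact Real.exp_le_exp.2 (by linarith)
    have h4 : rho ^ (5 * L) ≤ Real.exp (-(5 * Real.log rho)) * Real.exp (-(c₁ * t)) := by
      have e : rho ^ (5 * L) = Real.exp (((5 * L : ℕ) : ℝ) * Real.log rho) := by
        rw [Real.exp_nat_mul, Real.exp_log hr0]
      rw [e, ← Real.exp_add]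
      apply Real.exp_le_exp.2
      push_cast
      have h5 : (t / 40 - 5) * (-Real.log rho) ≤ 5 * (L : ℝ) * (-Real.log rho) :=
        mul_le_mul_of_nonneg_right (by linarith) (by linarith)
      have h6 : c₁ * t ≤ -(Real.log rho / 40) * t := mul_le_mul_of_nonneg_right hc3 ht0
      linarith
    have h5 : 2 * 32 ^ L * ((Tr d m y).ncard : ℝ) ≤ 2 * A * |(d : ℝ)| * Real.exp (-(c₁ * t)) * N := by
      calc 2 * 32 ^ L * ((Tr d m y).ncard : ℝ) ≤ 2 * Real.exp (0.018 * t) * (A * |(d : ℝ)| * Real.exp (96 / 100 * t)) :=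
            mul_le_mul (by linarith) h2 (Nat.cast_nonneg _) (by positivity)
        _ = 2 * A * |(d : ℝ)| * (Real.exp (0.018 * t) * Real.exp (96 / 100 * t)) := by ring
        _ ≤ 2 * A * |(d : ℝ)| * (Real.exp (-(c₁ * t)) * N) := by
            apply mul_le_mul_of_nonneg_left _ (by positivity)
            calc Real.exp (0.018 * t) * Real.exp (96 / 100 * t) ≤ Real.exp (-(c₁ * t)) * Real.exp t := by
                  rw [← Real.exp_add, ← Real.exp_add]
                  apply Real.exp_le_exp.2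
                  have : c₁ * t ≤ 22 / 1000 * t := mul_le_mul_of_nonneg_right hc2 ht0
                  linarith
              _ ≤ _ := mul_le_mul_of_nonneg_left (by rw [← hyt]; exact hyN) (Real.exp_pos _).le
        _ = _ := by ring
    have h6 : ((N : ℝ) + 32 ^ L) * rho ^ (5 * L) ≤
        2 * Real.exp (-(5 * Real.log rho)) * Real.exp (-(c₁ * t)) * N := by
      calc ((N : ℝ) + 32 ^ L) * rho ^ (5 * L) ≤ (2 * N) * (Real.exp (-(5 * Real.log rho)) * Real.exp (-(c₁ * t))) :=
            mul_le_mul (by linarith) h4 (pow_nonneg hr0.le _) (by positivity)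
        _ = _ := by ring
    unfold fm
    rw [div_le_iff₀ hN0]
    have h7 : 0 ≤ Real.exp (c₁ * t₀) * Real.exp (-(c₁ * t)) * N := by positivity
    calc ({n : ℤ | 1 ≤ n ∧ n ≤ N ∧ Meets d y m n}.ncard : ℝ) ≤ _ := h1
      _ ≤ 2 * A * |(d : ℝ)| * Real.exp (-(c₁ * t)) * N +
          2 * Real.exp (-(5 * Real.log rho)) * Real.exp (-(c₁ * t)) * N := add_le_add h5 h6
      _ ≤ _ := by linarith

end Pool.Agent.Q74.MG
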