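import Mathlib
import Pool.Agent.Q74.MG.Rare
import Pool.Agent.Results.MP_2d22f3_nt.FirstPassageLaw

set_option autoImplicit false

/-! # Meeting a given trajectory at a high place is rare, all starting points -/

namespace Pool.Agent.Q74.MG

open Finset Filter Topology
open Pool.Agent.H499R2.ND (Td)
open Pool.Agent.Results.MP_2d22f3_nt.FirstPassageLaw (freq)

theorem meets_inv (d : ℤ) (y : ℝ) (m x : ℤ) (hx : y < x) : Meets d y m x ↔ Meets d y m (Td d x) := by
  constructor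
  · rintro ⟨i, j, h1, h2⟩
    rcases Nat.eq_zero_or_pos i with h0 | h0
    · refine ⟨0, j + 1, ?_, fun l hl => absurd hl (Nat.not_lt_zero _)⟩
      rw [h0] at h1
      rw [Function.iterate_succ_apply', ← h1]
      rfl
    · obtain ⟨k, rfl⟩ : ∃ k, i = k + 1 := ⟨i - 1, by omega⟩
      refine ⟨k, j, ?_, fun l hl => ?_⟩
      · rw [← h1, Function.iterate_succ_apply]
      · have := h2 (l + 1) (by omega)
        rwa [Function.iterate_succ_apply] at this
  · rintro ⟨i, j, h1, h2⟩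
    refine ⟨i + 1, j, ?_, fun l hl => ?_⟩
    · rw [Function.iterate_succ_apply, h1]
    · rcases Nat.eq_zero_or_pos l with h0 | h0
      · rw [h0]
        exact hx
      · obtain ⟨k, rfl⟩ : ∃ k, l = k + 1 := ⟨l - 1, by omega⟩
        rw [Function.iterate_succ_apply]
        exact h2 k (by omega)

theorem fm_eq (d : ℤ) (y : ℝ) (m : ℤ) (N : ℕ) : fm d y m N = freq N (Meets d y m) := rfl

theorem exp_le_pow {c t : ℝ} (hc : 0 ≤ c) (ht : 0 ≤ t) : Real.exp (-(c * t)) ≤ (1 + t) ^ (-c) := by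
  rw [Real.rpow_def_of_pos (by linarith)]
  apply Real.exp_le_exp.2
  have h1 := Real.log_le_sub_one_of_pos (show (0 : ℝ) < 1 + t by linarith)
  nlinarith

theorem rpow_low {c s t : ℝ} (hc : 0 ≤ c) (ht : 0 ≤ t) (hs : (3 / 10000 : ℝ) * t ≤ s) :
    (1 + s) ^ (-c) ≤ (3 / 10000 : ℝ) ^ (-c) * (1 + t) ^ (-c) := by
  rw [← Real.mul_rpow (by norm_num) (by linarith)]
  apply Real.rpow_le_rpow_of_nonpos (by nlinarith) (by linarith) (by linarith)

theorem rpow_exp_mono {c c' s : ℝ} (hs : 0 ≤ s) (h : c ≤ c') : (1 + s) ^ (-c') ≤ (1 + s) ^ (-c) :=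
  Real.rpow_le_rpow_of_exponent_le (by linarith) (by linarith)

/-- the constants of the first passage law -/
theorem rare : ∃ c : ℝ, 0 < c ∧ ∀ d : ℤ, d % 2 = 1 → ¬ (3 : ℤ) ∣ d → ∃ C : ℝ, 0 < C ∧
    (∀ (m : ℤ) (y : ℝ) (N : ℕ), 1 ≤ y → y ≤ N → fm d y m N ≤ C * (1 + Real.log y) ^ (-c)) ∧
    ∀ y : ℝ, 1 ≤ y → |(d : ℝ)| ≤ y → ∃ μ : ℤ → ℝ,
      (∀ n : ℤ, 1 ≤ n → 0 ≤ Pool.Agent.Q74.PD.pass d y n ∧ (Pool.Agent.Q74.PD.pass d y n : ℝ) ≤ y) ∧
      (∀ b : ℤ, 0 ≤ μ b ∧ Tendsto (fun X : ℕ => freq X fun n => Pool.Agent.Q74.PD.pass d y n = b) atTop (𝓝 (μ b)) ∧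
        (μ b ≠ 0 → b = 0 ∨ (y / 2 < b ∧ (b : ℝ) ≤ y))) ∧
      ∑ b ∈ Icc 0 ⌊y⌋, μ b = 1 ∧ μ 0 ≤ C * (1 + Real.log y) ^ (-c) ∧
      ∀ X : ℕ, y ≤ X → ∑ b ∈ Icc 0 ⌊y⌋, |(freq X fun n => Pool.Agent.Q74.PD.pass d y n = b) - μ b| ≤
        C * (1 + Real.log (X / y)) ^ (-c) := by
  obtain ⟨cf, Cf, hcf, hCf, hF⟩ := Pool.Agent.Results.MP_2d22f3_nt.FirstPassageLaw.result
  obtain ⟨c₁, hc₁, h0⟩ := rare0
  obtain ⟨c, hc⟩ : ∃ c, c = min cf c₁ := ⟨_, rfl⟩
  have hc0 : 0 < c := by rw [hc]; exact lt_min hcf hc₁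
  have hccf : c ≤ cf := by rw [hc]; exact min_le_left _ _
  have hcc1 : c ≤ c₁ := by rw [hc]; exact min_le_right _ _
  refine ⟨c, hc0, fun d hd hd3 => ?_⟩
  obtain ⟨C₁, hC₁, h1⟩ := h0 d hd hd3
  obtain ⟨μ, Λ, C', hA, hB, -⟩ := hF d hd hd3
  have hd0 : (1 : ℝ) ≤ |(d : ℝ)| := by
    have : (1 : ℤ) ≤ |d| := Int.one_le_abs (by omega)
    exact_mod_cast this
  obtain ⟨t₁, ht₁⟩ : ∃ t₁, t₁ = 4000 + Real.log |(d : ℝ)| := ⟨_, rfl⟩
  have hld := Real.log_nonneg hd0
  have h3c : 0 < (3 / 10000 : ℝ) ^ (-c) := by positivity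
  have hT : 0 < (1 + t₁) ^ c := Real.rpow_pos_of_pos (by linarith) _
  refine ⟨(1 + t₁) ^ c + C₁ + 2 * Cf * (3 / 10000 : ℝ) ^ (-c) + |C'| + Cf, by positivity, ?_, ?_⟩
  · intro m y N hy hyN
    obtain ⟨t, ht⟩ : ∃ t, t = Real.log y := ⟨_, rfl⟩
    have ht0 : 0 ≤ t := by rw [ht]; exact Real.log_nonneg hy
    have hyt : y = Real.exp t := by rw [ht, Real.exp_log (by linarith)]
    have hy0 : 0 < y := by linarith
    have hN0 : (0 : ℝ) < N := by linarith
    have hq : 0 < (1 + t) ^ (-c) := Real.rpow_pos_of_pos (by linarith) _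
    rw [← ht]
    have hrest : ∀ K : ℝ, 0 ≤ K → K ≤ (1 + t₁) ^ c + C₁ + 2 * Cf * (3 / 10000 : ℝ) ^ (-c) + |C'| + Cf →
        K * (1 + t) ^ (-c) ≤ ((1 + t₁) ^ c + C₁ + 2 * Cf * (3 / 10000 : ℝ) ^ (-c) + |C'| + Cf) * (1 + t) ^ (-c) :=
      fun K _ hK => mul_le_mul_of_nonneg_right hK hq.le
    have hC'0 := abs_nonneg C'
    have hP : 0 ≤ 2 * Cf * (3 / 10000 : ℝ) ^ (-c) := by positivity
    by_cases htt : t₁ ≤ t
    swap
    · rw [not_le] at htt
      refine le_trans ?_ (hrest ((1 + t₁) ^ c) hT.le (by linarith))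
      refine (fm_le_one d y m N).trans ?_
      rw [Real.rpow_neg (by linarith), ← div_eq_mul_inv, one_le_div (Real.rpow_pos_of_pos (by linarith) _)]
      exact Real.rpow_le_rpow (by linarith) (by linarith) hc0.le
    · have hdy : |(d : ℝ)| ≤ y := by
        rw [hyt, ← Real.log_le_iff_le_exp (by linarith)]
        linarith
      have hexp : Real.exp (-(c₁ * t)) ≤ (1 + t) ^ (-c) := by
        refine le_trans (Real.exp_le_exp.2 ?_) (exp_le_pow hc0.le ht0)
        nlinarith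
      by_cases hN : (N : ℝ) ≤ Real.exp (2001 / 2000 * t)
      · have h2 := h1 m y N hy hdy hyN (by rw [← ht]; exact hN)
        rw [← ht] at h2
        refine le_trans (h2.trans (mul_le_mul_of_nonneg_left hexp hC₁.le)) (hrest C₁ hC₁.le ?_)
        linarith
      · rw [not_le] at hN
        obtain ⟨X, hX⟩ : ∃ X : ℕ, X = ⌊Real.exp (2001 / 2000 * t)⌋₊ := ⟨_, rfl⟩
        have hX1 : (X : ℝ) ≤ Real.exp (2001 / 2000 * t) := by
          rw [hX]; exact Nat.floor_le (Real.exp_pos _).le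
        have hX2 : Real.exp (2001 / 2000 * t) < X + 1 := by rw [hX]; exact Nat.lt_floor_add_one _
        have hX3 : Real.exp ((1 + 3 / 10000) * t) ≤ X := by
          have e1 : Real.exp (2001 / 2000 * t) = Real.exp (2 / 10000 * t) * Real.exp ((1 + 3 / 10000) * t) := by
            rw [← Real.exp_add]
            congr 1
            ring
          have e2 : 1.8 ≤ Real.exp (2 / 10000 * t) := by
            have := Real.add_one_le_exp (2 / 10000 * t)
            linarith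
          have e3 : 2 ≤ Real.exp ((1 + 3 / 10000) * t) := by
            have := Real.add_one_le_exp ((1 + 3 / 10000) * t)
            linarith
          nlinarith
        have hyX : y ≤ X := by
          refine le_trans ?_ hX3
          rw [hyt]
          exact Real.exp_le_exp.2 (by linarith)
        have hX0 : (0 : ℝ) < X := by linarith
        have hlX : ∀ Z : ℝ, Real.exp ((1 + 3 / 10000) * t) ≤ Z → (3 / 10000 : ℝ) * t ≤ Real.log (Z / y) := by
          intro Z hZ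
          rw [Real.le_log_iff_exp_le (div_pos (lt_of_lt_of_le (Real.exp_pos _) hZ) hy0), le_div_iff₀ hy0, hyt,
            ← Real.exp_add]
          refine le_trans (le_of_eq ?_) hZ
          congr 1
          ring
        obtain ⟨δ, -, hδ⟩ := hA y (Meets d y m) hy hdy (fun x hx => meets_inv d y m x hx)
        have hb : ∀ Z : ℕ, Real.exp ((1 + 3 / 10000) * t) ≤ Z → y ≤ Z →
            |freq Z (Meets d y m) - δ| ≤ Cf * (3 / 10000 : ℝ) ^ (-c) * (1 + t) ^ (-c) := by
          intro Z hZ hyZ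
          have g1 := hlX Z hZ
          have g2 : 0 ≤ Real.log (Z / y) := le_trans (by positivity) g1
          refine (hδ Z hyZ).trans ?_
          rw [mul_assoc]
          refine mul_le_mul_of_nonneg_left ?_ hCf.le
          exact (rpow_exp_mono g2 hccf).trans (rpow_low hc0.le ht0 g1)
        have g1 := hb X hX3 hyX
        have g2 := hb N (by
          refine le_trans ?_ hN.le
          exact Real.exp_le_exp.2 (by linarith)) hyN
        have g3 := h1 m y X hy hdy hyX (by rw [← ht]; exact hX1)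
        rw [← ht] at g3
        have g4 := g3.trans (mul_le_mul_of_nonneg_left hexp hC₁.le)
        rw [fm_eq] at g4 ⊢
        rw [abs_le] at g1 g2
        refine le_trans ?_ (hrest (C₁ + 2 * Cf * (3 / 10000 : ℝ) ^ (-c)) (by positivity) (by linarith))
        linarith [g1.1, g2.2]
  · intro y hy hdy
    obtain ⟨g1, g2, g3, g4, g5⟩ := hB y hy hdy
    have hK : (0 : ℝ) ≤ (1 + t₁) ^ c + C₁ + 2 * Cf * (3 / 10000 : ℝ) ^ (-c) := by positivity
    have ht0 : 0 ≤ Real.log y := Real.log_nonneg hy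
    refine ⟨μ y, g1, fun b => ⟨(g2 b).1, (g2 b).2.1, fun h => ?_⟩, g3, ?_, fun X hX => ?_⟩
    · rcases (g2 b).2.2 h with h | h
      · exact Or.inl h
      · exact Or.inr ⟨h.1, h.2.1⟩
    · refine g4.trans ?_
      have e1 : y ^ (-cf) ≤ (1 + Real.log y) ^ (-c) := by
        have e2 : y ^ (-cf) = Real.exp (-(cf * Real.log y)) := by
          rw [Real.rpow_def_of_pos (by linarith)]
          congr 1
          ring
        rw [e2]
        exact le_trans (Real.exp_le_exp.2 (by nlinarith)) (exp_le_pow hc0.le ht0)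
      have e3 : 0 < (1 + Real.log y) ^ (-c) := Real.rpow_pos_of_pos (by linarith) _
      calc C' * y ^ (-cf) ≤ |C'| * (1 + Real.log y) ^ (-c) :=
            mul_le_mul (le_abs_self _) e1 (by positivity) (abs_nonneg _)
        _ ≤ _ := mul_le_mul_of_nonneg_right (by linarith) e3.le
    · refine (g5 X hX).trans ?_
      have e0 : 0 ≤ Real.log (X / y) := by
        apply Real.log_nonneg
        rw [le_div_iff₀ (by linarith)]
        linarith
      have e3 : 0 < (1 + Real.log (X / y)) ^ (-c) := Real.rpow_pos_of_pos (by linarith) _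
      calc Cf * (1 + Real.log (X / y)) ^ (-cf) ≤ Cf * (1 + Real.log (X / y)) ^ (-c) :=
            mul_le_mul_of_nonneg_left (rpow_exp_mono e0 hccf) hCf.le
        _ ≤ _ := mul_le_mul_of_nonneg_right (by linarith [abs_nonneg C']) e3.le

end Pool.Agent.Q74.MG
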