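import Mathlib
import Pool.Agent.Q74.MG.Rare2

set_option autoImplicit false

/-! # Merging points, one random starting point -/

namespace Pool.Agent.Q74.MG

open Finset Filter Topology
open Pool.Agent.H499R2.ND (Td)
open Pool.Agent.Q74.PD (pass)
open Pool.Agent.Results.MP_2d22f3_nt.FirstPassageLaw (freq)

open Classical in
/-- the first term of the trajectory of `n` which is a term of the trajectory of `m` (`0` if there is none) -/
noncomputable def merge (d n m : ℤ) : ℤ :=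
  if h : ∃ i j : ℕ, (Td d)^[i] n = (Td d)^[j] m then (Td d)^[Nat.find h] n else 0

theorem merge_eq {d n m : ℤ} {i : ℕ} (h : ∃ j : ℕ, (Td d)^[i] n = (Td d)^[j] m)
    (hmin : ∀ l < i, ¬ ∃ j : ℕ, (Td d)^[l] n = (Td d)^[j] m) : merge d n m = (Td d)^[i] n := by
  classical
  have hex : ∃ i j : ℕ, (Td d)^[i] n = (Td d)^[j] m := ⟨i, h⟩
  unfold merge
  rw [dif_pos hex]
  have h3 : Nat.find hex = i := by
    rw [Nat.find_eq_iff]
    exact ⟨h, fun l hl => hmin l hl⟩
  rw [h3]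

theorem merge_zero {d n m : ℤ} (h : ¬ ∃ i j : ℕ, (Td d)^[i] n = (Td d)^[j] m) : merge d n m = 0 := by
  classical
  unfold merge
  rw [dif_neg h]

theorem pass_spec {d : ℤ} {y : ℝ} {n : ℤ} (h : ∃ k : ℕ, (((Td d)^[k] n : ℤ) : ℝ) ≤ y) :
    ∃ k : ℕ, pass d y n = (Td d)^[k] n ∧ ∀ l < k, y < (((Td d)^[l] n : ℤ) : ℝ) := by
  classical
  refine ⟨Nat.find h, ?_, fun l hl => not_le.1 (Nat.find_min h hl)⟩
  unfold Pool.Agent.Q74.PD.pass
  rw [dif_pos h]

theorem merge_left {d : ℤ} {y : ℝ} {n m : ℤ} (h : ∃ k : ℕ, (((Td d)^[k] n : ℤ) : ℝ) ≤ y)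
    (hm : ¬ Meets d y m n) : merge d n m = merge d (pass d y n) m := by
  obtain ⟨k, hk, hl⟩ := pass_spec h
  rw [hk]
  have h1 : ∀ i j : ℕ, (Td d)^[i] n = (Td d)^[j] m → k < i := by
    intro i j hij
    by_contra hc
    rw [not_lt] at hc
    exact hm ⟨i, j, hij, fun l hl' => hl l (by omega)⟩
  have h2 : ∀ i : ℕ, (Td d)^[k + i] n = (Td d)^[i] ((Td d)^[k] n) := by
    intro i
    rw [← Function.iterate_add_apply]
    congr 1
    omega
  by_cases hex : ∃ i j : ℕ, (Td d)^[i] n = (Td d)^[j] m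
  · classical
    obtain ⟨i, hi⟩ : ∃ i, i = Nat.find hex := ⟨_, rfl⟩
    have hi1 : ∃ j : ℕ, (Td d)^[i] n = (Td d)^[j] m := by rw [hi]; exact Nat.find_spec hex
    have hi2 : ∀ l < i, ¬ ∃ j : ℕ, (Td d)^[l] n = (Td d)^[j] m := fun l hl' => by
      rw [hi] at hl'
      exact Nat.find_min hex hl'
    obtain ⟨j, hj⟩ := hi1
    have h3 := h1 i j hj
    obtain ⟨i', hi'⟩ : ∃ i', i = k + i' := ⟨i - k, by omega⟩
    rw [merge_eq ⟨j, hj⟩ hi2, merge_eq (i := i') ⟨j, by rw [← h2, ← hi', hj]⟩ (fun l hl' ⟨j', hj'⟩ => by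
      refine hi2 (k + l) (by omega) ⟨j', ?_⟩
      rw [h2, hj']), ← h2, ← hi']
  · rw [merge_zero hex, merge_zero]
    rintro ⟨i, j, hij⟩
    exact hex ⟨k + i, j, by rw [h2, hij]⟩

theorem merge_right {d : ℤ} {y : ℝ} {n b : ℤ} (h : ∃ k : ℕ, (((Td d)^[k] n : ℤ) : ℝ) ≤ y)
    (hm : ¬ Meets d y b n) : merge d b n = merge d b (pass d y n) := by
  obtain ⟨k, hk, hl⟩ := pass_spec h
  rw [hk]
  have h2 : ∀ i : ℕ, (Td d)^[k + i] n = (Td d)^[i] ((Td d)^[k] n) := by
    intro i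
    rw [← Function.iterate_add_apply]
    congr 1
    omega
  have h1 : ∀ i : ℕ, (∃ j : ℕ, (Td d)^[i] b = (Td d)^[j] n) ↔ ∃ j : ℕ, (Td d)^[i] b = (Td d)^[j] ((Td d)^[k] n) := by
    intro i
    constructor
    · rintro ⟨j, hj⟩
      have h3 : k < j := by
        by_contra hc
        rw [not_lt] at hc
        exact hm ⟨j, i, hj.symm, fun l hl' => hl l (by omega)⟩
      refine ⟨j - k, ?_⟩
      rw [← h2, hj]
      congr 1
      omega
    · rintro ⟨j, hj⟩
      exact ⟨k + j, by rw [h2, hj]⟩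
  by_cases hex : ∃ i j : ℕ, (Td d)^[i] b = (Td d)^[j] n
  · classical
    obtain ⟨i, hi⟩ : ∃ i, i = Nat.find hex := ⟨_, rfl⟩
    have hi1 : ∃ j : ℕ, (Td d)^[i] b = (Td d)^[j] n := by rw [hi]; exact Nat.find_spec hex
    have hi2 : ∀ l < i, ¬ ∃ j : ℕ, (Td d)^[l] b = (Td d)^[j] n := fun l hl' => by
      rw [hi] at hl'
      exact Nat.find_min hex hl'
    rw [merge_eq hi1 hi2, merge_eq ((h1 i).1 hi1) (fun l hl' h5 => hi2 l hl' ((h1 l).2 h5))]
  · rw [merge_zero hex, merge_zero]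
    rintro ⟨i, h5⟩
    exact hex ⟨i, (h1 i).2 h5⟩

/-- mean over `1 ≤ n ≤ X` -/
noncomputable def mn (X : ℕ) (g : ℤ → ℝ) : ℝ := (∑ n ∈ Finset.Icc (1 : ℤ) X, g n) / X

theorem mn_const {X : ℕ} (hX : 1 ≤ X) (a : ℝ) : mn X (fun _ => a) = a := by
  unfold mn
  rw [sum_const, Int.card_Icc, nsmul_eq_mul]
  have h1 : ((X : ℤ) + 1 - 1).toNat = X := by simp
  rw [h1]
  have : (X : ℝ) ≠ 0 := by positivity
  field_simp

theorem mn_sub (X : ℕ) (g g' : ℤ → ℝ) : mn X g - mn X g' = mn X fun n => g n - g' n := by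
  unfold mn
  rw [← sub_div, sum_sub_distrib]

theorem mn_mono (X : ℕ) {g g' : ℤ → ℝ} (h : ∀ n : ℤ, 1 ≤ n → g n ≤ g' n) : mn X g ≤ mn X g' := by
  unfold mn
  exact div_le_div_of_nonneg_right (sum_le_sum fun n hn => h n (Finset.mem_Icc.1 hn).1) (Nat.cast_nonneg _)

theorem mn_abs (X : ℕ) (g : ℤ → ℝ) : |mn X g| ≤ mn X fun n => |g n| := by
  unfold mn
  rw [abs_div, abs_of_nonneg (Nat.cast_nonneg X : (0 : ℝ) ≤ X)]
  exact div_le_div_of_nonneg_right (abs_sum_le_sum_abs _ _) (Nat.cast_nonneg _)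

theorem abs_mn_le {X : ℕ} (hX : 1 ≤ X) {g : ℤ → ℝ} {a : ℝ} (h : ∀ n : ℤ, 1 ≤ n → |g n| ≤ a) : |mn X g| ≤ a := by
  refine (mn_abs X g).trans ?_
  refine (mn_mono X h).trans ?_
  rw [mn_const hX]

theorem mn_ind (X : ℕ) (P : ℤ → Prop) [DecidablePred P] : mn X (fun n => if P n then (1 : ℝ) else 0) = freq X P := by
  unfold mn Pool.Agent.Results.MP_2d22f3_nt.FirstPassageLaw.freq
  congr 1
  rw [← Finset.sum_filter, Finset.sum_const, nsmul_eq_mul, mul_one]
  have h : {n : ℤ | 1 ≤ n ∧ n ≤ X ∧ P n} = ((Finset.Icc (1 : ℤ) X).filter P : Finset ℤ) := by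
    ext n
    rw [Finset.mem_coe, Finset.mem_filter, Finset.mem_Icc]
    constructor
    · rintro ⟨h1, h2, h3⟩
      exact ⟨⟨h1, h2⟩, h3⟩
    · rintro ⟨⟨h1, h2⟩, h3⟩
      exact ⟨h1, h2, h3⟩
  rw [h, Set.ncard_coe_finset]

theorem mn_add (X : ℕ) (g g' : ℤ → ℝ) : mn X (fun n => g n + g' n) = mn X g + mn X g' := by
  unfold mn
  rw [← add_div, sum_add_distrib]

theorem mn_smul (X : ℕ) (a : ℝ) (g : ℤ → ℝ) : mn X (fun n => a * g n) = a * mn X g := by
  unfold mn
  rw [← mul_sum, mul_div_assoc]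

theorem mn_sum {ι : Type*} (X : ℕ) (s : Finset ι) (g : ι → ℤ → ℝ) :
    mn X (fun n => ∑ i ∈ s, g i n) = ∑ i ∈ s, mn X (g i) := by
  unfold mn
  rw [sum_comm, sum_div]

/-- THE LAW OF THE FIRST PASSAGE AND FUNCTIONS OF IT -/
theorem mn_pass {d : ℤ} {y : ℝ} (hp : ∀ n : ℤ, 1 ≤ n → 0 ≤ pass d y n ∧ (pass d y n : ℝ) ≤ y) (X : ℕ) (H : ℤ → ℝ) :
    mn X (fun n => H (pass d y n)) = ∑ b ∈ Icc 0 ⌊y⌋, (freq X fun n => pass d y n = b) * H b := by
  classical
  have h1 : mn X (fun n => H (pass d y n)) =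
      mn X (fun n => ∑ b ∈ Icc 0 ⌊y⌋, (if pass d y n = b then (1 : ℝ) else 0) * H b) := by
    unfold mn
    congr 1
    refine sum_congr rfl fun n hn => ?_
    have h2 := hp n (Finset.mem_Icc.1 hn).1
    show H (pass d y n) = ∑ b ∈ Icc 0 ⌊y⌋, (if pass d y n = b then (1 : ℝ) else 0) * H b
    rw [Finset.sum_eq_single (pass d y n)]
    · simp
    · intro b _ hb
      rw [if_neg (fun h => hb h.symm), zero_mul]
    · intro h3
      exfalso
      apply h3
      rw [Finset.mem_Icc]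
      exact ⟨h2.1, Int.le_floor.2 h2.2⟩
  rw [h1, mn_sum]
  refine sum_congr rfl fun b _ => ?_
  rw [← mn_ind]
  rw [show (fun n => (if pass d y n = b then (1 : ℝ) else 0) * H b) =
    fun n => H b * (if pass d y n = b then (1 : ℝ) else 0) from funext fun n => mul_comm _ _, mn_smul, mul_comm]

/-- functions of one random starting point which do not change when it is replaced by the first passage, except
when a trajectory of a finite set is met before -/
theorem one : ∃ c : ℝ, 0 < c ∧ ∀ d : ℤ, d % 2 = 1 → ¬ (3 : ℤ) ∣ d → ∃ K : ℝ, 0 < K ∧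
    (∀ (m : ℤ) (y : ℝ) (N : ℕ), 1 ≤ y → y ≤ N → fm d y m N ≤ K * (1 + Real.log y) ^ (-c)) ∧
    ∀ (k : ℕ) (v : Fin k → ℤ) (H : ℤ → ℝ), (∀ n, |H n| ≤ 1) →
      (∀ (y : ℝ) (n : ℤ), (∃ i : ℕ, (((Td d)^[i] n : ℤ) : ℝ) ≤ y) → (∀ j, ¬ Meets d y (v j) n) →
        H n = H (pass d y n)) →
      ∀ N X X' : ℕ, 1 ≤ N → N ≤ X → N ≤ X' → |mn X H - mn X' H| ≤ K * (k + 1) * (1 + Real.log N) ^ (-c) := by
  obtain ⟨c, hc, h0⟩ := rare
  refine ⟨c, hc, fun d hd hd3 => ?_⟩
  obtain ⟨C, hC, h1, h2⟩ := h0 d hd hd3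
  have hd0 : (1 : ℝ) ≤ |(d : ℝ)| := by
    have : (1 : ℤ) ≤ |d| := Int.one_le_abs (by omega)
    exact_mod_cast this
  have hld := Real.log_nonneg hd0
  obtain ⟨t₁, ht₁⟩ : ∃ t₁, t₁ = 2 * Real.log |(d : ℝ)| := ⟨_, rfl⟩
  have ht₁0 : 0 ≤ t₁ := by rw [ht₁]; positivity
  have hT : 0 < (1 + t₁) ^ c := Real.rpow_pos_of_pos (by linarith) _
  have h2c : 0 < (1 / 2 : ℝ) ^ (-c) := by positivity
  refine ⟨2 * (1 + t₁) ^ c + 10 * C * (1 / 2 : ℝ) ^ (-c) + C, by positivity, fun m y N hy hyN => ?_,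
    fun k v H hH hinv N X X' hN hNX hNX' => ?_⟩
  · refine (h1 m y N hy hyN).trans (mul_le_mul_of_nonneg_right ?_ ?_)
    · have : 0 ≤ 2 * (1 + t₁) ^ c + 10 * C * (1 / 2 : ℝ) ^ (-c) := by positivity
      linarith
    · have := Real.log_nonneg hy
      positivity
  obtain ⟨t, ht⟩ : ∃ t, t = Real.log N := ⟨_, rfl⟩
  have hN1 : (1 : ℝ) ≤ N := by exact_mod_cast hN
  have ht0 : 0 ≤ t := by rw [ht]; exact Real.log_nonneg hN1
  have hNt : (N : ℝ) = Real.exp t := by rw [ht, Real.exp_log (by linarith)]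
  have hq : 0 < (1 + t) ^ (-c) := Real.rpow_pos_of_pos (by linarith) _
  rw [← ht]
  have hk1 : (1 : ℝ) ≤ (k : ℝ) + 1 := by
    have : (0 : ℝ) ≤ k := Nat.cast_nonneg _
    linarith
  by_cases htt : t₁ ≤ t
  swap
  · rw [not_le] at htt
    have g1 : |mn X H - mn X' H| ≤ 2 := by
      have g2 := abs_mn_le (X := X) (by omega) (g := H) (a := 1) (fun n _ => hH n)
      have g3 := abs_mn_le (X := X') (by omega) (g := H) (a := 1) (fun n _ => hH n)
      have g4 := abs_sub (mn X H) (mn X' H)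
      linarith
    refine g1.trans ?_
    have g2 : 1 ≤ (1 + t₁) ^ c * (1 + t) ^ (-c) := by
      rw [Real.rpow_neg (by linarith), ← div_eq_mul_inv, one_le_div (Real.rpow_pos_of_pos (by linarith) _)]
      exact Real.rpow_le_rpow (by linarith) (by linarith) hc.le
    have g3 : 0 ≤ (10 * C * (1 / 2 : ℝ) ^ (-c) + C) * (1 + t) ^ (-c) := by positivity
    have g4 : (2 * (1 + t₁) ^ c + 10 * C * (1 / 2 : ℝ) ^ (-c) + C) * (1 + t) ^ (-c) ≤
        (2 * (1 + t₁) ^ c + 10 * C * (1 / 2 : ℝ) ^ (-c) + C) * (k + 1) * (1 + t) ^ (-c) := by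
      apply mul_le_mul_of_nonneg_right _ hq.le
      exact le_mul_of_one_le_right (by positivity) hk1
    refine le_trans ?_ g4
    linarith [g2, g3]
  · obtain ⟨y, hy⟩ : ∃ y, y = Real.exp (t / 2) := ⟨_, rfl⟩
    have hy1 : 1 ≤ y := by rw [hy]; exact Real.one_le_exp (by positivity)
    have hly : Real.log y = t / 2 := by rw [hy, Real.log_exp]
    have hdy : |(d : ℝ)| ≤ y := by
      rw [hy, ← Real.log_le_iff_le_exp (by linarith)]
      linarith
    have hyN : y ≤ N := by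
      rw [hy, hNt]
      exact Real.exp_le_exp.2 (by linarith)
    obtain ⟨μ, p1, p2, p3, p4, p5⟩ := h2 y hy1 hdy
    have hE : ∀ s : ℝ, t / 2 ≤ s → (1 + s) ^ (-c) ≤ (1 / 2 : ℝ) ^ (-c) * (1 + t) ^ (-c) := by
      intro s hs
      rw [← Real.mul_rpow (by norm_num) (by linarith)]
      apply Real.rpow_le_rpow_of_nonpos (by nlinarith) (by linarith) (by linarith)
    obtain ⟨E, hEdef⟩ : ∃ E, E = C * ((1 / 2 : ℝ) ^ (-c) * (1 + t) ^ (-c)) := ⟨_, rfl⟩
    have hE0 : 0 ≤ E := by rw [hEdef]; positivity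
    have main : ∀ Z : ℕ, N ≤ Z → |mn Z H - ∑ b ∈ Icc 0 ⌊y⌋, μ b * H b| ≤ (2 * k + 5) * E := by
      intro Z hZ
      have hZN : (N : ℝ) ≤ Z := by exact_mod_cast hZ
      have hyZ : y ≤ Z := hyN.trans hZN
      have hZ1 : 1 ≤ Z := by omega
      have hlZ : t / 2 ≤ Real.log (Z / y) := by
        have e1 : Real.exp (t / 2) ≤ Z / y := by
          rw [le_div_iff₀ (by linarith)]
          calc Real.exp (t / 2) * y = Real.exp t := by
                rw [hy, ← Real.exp_add]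
                congr 1
                ring
            _ ≤ Z := by rw [← hNt]; exact hZN
        rw [Real.le_log_iff_exp_le (lt_of_lt_of_le (Real.exp_pos _) e1)]
        exact e1
      have q1 : ∀ m : ℤ, freq Z (Meets d y m) ≤ E := by
        intro m
        have := h1 m y Z hy1 hyZ
        rw [fm_eq, hly] at this
        refine this.trans ?_
        rw [hEdef]
        exact mul_le_mul_of_nonneg_left (hE _ le_rfl) hC.le
      have q2 : ∑ b ∈ Icc 0 ⌊y⌋, |(freq Z fun n => pass d y n = b) - μ b| ≤ E := by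
        refine (p5 Z hyZ).trans ?_
        rw [hEdef]
        exact mul_le_mul_of_nonneg_left (hE _ hlZ) hC.le
      have q3 : (freq Z fun n => pass d y n = 0) ≤ 2 * E := by
        have r1 : |(freq Z fun n => pass d y n = 0) - μ 0| ≤ E := by
          refine le_trans ?_ q2
          exact Finset.single_le_sum (f := fun b => |(freq Z fun n => pass d y n = b) - μ b|)
            (fun b _ => abs_nonneg _) (by
              rw [Finset.mem_Icc]
              exact ⟨le_rfl, Int.le_floor.2 (by push_cast; linarith)⟩)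
        have r2 : μ 0 ≤ E := by
          refine p4.trans ?_
          rw [hly, hEdef]
          exact mul_le_mul_of_nonneg_left (hE _ le_rfl) hC.le
        rw [abs_le] at r1
        linarith [r1.2]
      -- replacing `n` by its first passage
      have q4 : |mn Z H - mn Z (fun n => H (pass d y n))| ≤ 2 * (k * E + 2 * E) := by
        classical
        rw [mn_sub]
        refine (mn_abs Z _).trans ?_
        have r1 : ∀ n : ℤ, 1 ≤ n → |H n - H (pass d y n)| ≤
            2 * ((∑ j : Fin k, if Meets d y (v j) n then (1 : ℝ) else 0) + if pass d y n = 0 then (1 : ℝ) else 0) := by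
          intro n hn
          have s1 : ∀ j : Fin k, (0 : ℝ) ≤ if Meets d y (v j) n then (1 : ℝ) else 0 := fun j => by
            split_ifs <;> norm_num
          have s2 : (0 : ℝ) ≤ if pass d y n = 0 then (1 : ℝ) else 0 := by split_ifs <;> norm_num
          have s3 : |H n - H (pass d y n)| ≤ 2 := by
            have := abs_sub (H n) (H (pass d y n))
            linarith [hH n, hH (pass d y n)]
          by_cases s4 : pass d y n = 0
          · rw [if_pos s4] at s2 ⊢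
            have := Finset.sum_nonneg (s := Finset.univ) fun j _ => s1 j
            linarith
          · by_cases s5 : ∃ j, Meets d y (v j) n
            · obtain ⟨j, hj⟩ := s5
              have s6 := Finset.single_le_sum (s := Finset.univ)
                (f := fun j => if Meets d y (v j) n then (1 : ℝ) else 0) (fun j _ => s1 j) (Finset.mem_univ j)
              simp only [if_pos hj] at s6
              linarith
            · push Not at s5
              have s6 : ∃ i : ℕ, (((Td d)^[i] n : ℤ) : ℝ) ≤ y := by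
                by_contra hc
                apply s4
                unfold Pool.Agent.Q74.PD.pass
                rw [dif_neg hc]
              rw [hinv y n s6 s5, sub_self, abs_zero]
              have := Finset.sum_nonneg (s := Finset.univ) fun j _ => s1 j
              linarith
        refine (mn_mono Z r1).trans ?_
        rw [mn_smul, mn_add, mn_sum, mn_ind]
        have r2 : ∑ j : Fin k, mn Z (fun n => if Meets d y (v j) n then (1 : ℝ) else 0) ≤ k * E := by
          calc ∑ j : Fin k, mn Z (fun n => if Meets d y (v j) n then (1 : ℝ) else 0) ≤ ∑ _j : Fin k, E :=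
                sum_le_sum fun j _ => by rw [mn_ind]; exact q1 (v j)
            _ = k * E := by rw [sum_const, card_univ, Fintype.card_fin, nsmul_eq_mul]
        linarith
      have q5 : |mn Z (fun n => H (pass d y n)) - ∑ b ∈ Icc 0 ⌊y⌋, μ b * H b| ≤ E := by
        rw [mn_pass p1, ← sum_sub_distrib]
        refine (abs_sum_le_sum_abs _ _).trans (le_trans (sum_le_sum fun b _ => ?_) q2)
        rw [← sub_mul, abs_mul]
        exact mul_le_of_le_one_right (abs_nonneg _) (hH b)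
      have q6 := abs_sub_le (mn Z H) (mn Z (fun n => H (pass d y n))) (∑ b ∈ Icc 0 ⌊y⌋, μ b * H b)
      linarith
    have m1 := main X hNX
    have m2 := main X' hNX'
    rw [abs_sub_comm] at m2
    have m3 := abs_sub_le (mn X H) (∑ b ∈ Icc 0 ⌊y⌋, μ b * H b) (mn X' H)
    have m4 : |mn X H - mn X' H| ≤ 2 * ((2 * k + 5) * E) := by linarith
    refine m4.trans ?_
    rw [hEdef]
    have m5 : 0 ≤ (2 * (1 + t₁) ^ c + C) * (k + 1) * (1 + t) ^ (-c) := by positivity
    have m6 : 2 * ((2 * (k : ℝ) + 5) * (C * ((1 / 2 : ℝ) ^ (-c) * (1 + t) ^ (-c)))) ≤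
        10 * C * (1 / 2 : ℝ) ^ (-c) * (k + 1) * (1 + t) ^ (-c) := by
      have m7 : 0 ≤ C * (1 / 2 : ℝ) ^ (-c) * (1 + t) ^ (-c) := by positivity
      have m8 : (0 : ℝ) ≤ k := Nat.cast_nonneg _
      nlinarith [mul_nonneg m8 m7]
    linarith

end Pool.Agent.Q74.MG
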