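import Mathlib
import Pool.Agent.Q74.MG.Mrg

set_option autoImplicit false

/-! # Limit laws and several random starting points -/

namespace Pool.Agent.Q74.MG

open Finset Filter Topology

/-- LIMIT LAWS: a family of finitely supported laws which is Cauchy in total variation -/
theorem lim_law {ι J : Type} (g : J → ℕ → Prop) (D : ℕ → J) (hD : ∀ N M : ℕ, N ≤ M → g (D M) N)
    (L : J → ι → ℝ) (B : ℕ → ℝ) (hB : Tendsto B atTop (𝓝 0))
    (hL0 : ∀ X, g X 1 → (∀ a, 0 ≤ L X a) ∧ ∃ S : Finset ι, ∑ a ∈ S, L X a = 1 ∧ ∀ a ∉ S, L X a = 0)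
    (hC : ∀ (S : Finset ι) (N : ℕ) (X X' : J), 1 ≤ N → g X N → g X' N → ∑ a ∈ S, |L X a - L X' a| ≤ B N) :
    ∃ l : ι → ℝ, (∀ a, 0 ≤ l a) ∧ HasSum l 1 ∧ ∀ (N : ℕ) (X : J), 1 ≤ N → g X N →
      (Summable fun a => |L X a - l a|) ∧ ∑' a, |L X a - l a| ≤ B N := by
  have h1 : ∀ a, ∃ x, Tendsto (fun M : ℕ => L (D (M + 1)) a) atTop (𝓝 x) := by
    intro a
    apply cauchySeq_tendsto_of_complete
    apply cauchySeq_of_le_tendsto_0 (fun N => B (N + 1))
    · intro n m N hn hm
      rw [Real.dist_eq]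
      have := hC {a} (N + 1) (D (n + 1)) (D (m + 1)) (by omega) (hD _ _ (by omega)) (hD _ _ (by omega))
      rwa [sum_singleton] at this
    · exact hB.comp (tendsto_add_atTop_nat 1)
  choose l hl using h1
  have h2 : ∀ (S : Finset ι) (N : ℕ) (X : J), 1 ≤ N → g X N → ∑ a ∈ S, |L X a - l a| ≤ B N := by
    intro S N X hN hX
    have h3 : Tendsto (fun M : ℕ => ∑ a ∈ S, |L X a - L (D (M + 1)) a|) atTop (𝓝 (∑ a ∈ S, |L X a - l a|)) :=
      tendsto_finsetSum _ fun a _ => ((tendsto_const_nhds.sub (hl a)).abs)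
    refine le_of_tendsto h3 ?_
    filter_upwards [eventually_ge_atTop N] with M hM
    exact hC S N X (D (M + 1)) hN hX (hD _ _ (by omega))
  have h3 : ∀ (N : ℕ) (X : J), 1 ≤ N → g X N → (Summable fun a => |L X a - l a|) ∧ ∑' a, |L X a - l a| ≤ B N := by
    intro N X hN hX
    have h4 := summable_of_sum_le (f := fun a => |L X a - l a|) (fun a => abs_nonneg _) (c := B N)
      (fun S => h2 S N X hN hX)
    exact ⟨h4, h4.tsum_le_of_sum_le fun S => h2 S N X hN hX⟩
  refine ⟨l, fun a => ?_, ?_, h3⟩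
  · exact ge_of_tendsto' (hl a) fun M => (hL0 (D (M + 1)) (hD _ _ (by omega))).1 a
  · have h5 : ∀ X, g X 1 → Summable (L X) ∧ ∑' a, L X a = 1 := by
      intro X hX
      obtain ⟨_, S, hS1, hS2⟩ := hL0 X hX
      refine ⟨summable_of_ne_finset_zero hS2, ?_⟩
      rw [tsum_eq_sum hS2, hS1]
    have hg1 : ∀ N, 1 ≤ N → g (D N) 1 := fun N hN => hD _ _ hN
    have h6 : Summable l := by
      have h7 := (h3 1 (D 1) le_rfl (hD _ _ le_rfl)).1
      have h8 := (h5 (D 1) (hD _ _ le_rfl)).1
      have h9 : Summable fun a => L (D 1) a - l a := h7.of_abs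
      have := h8.sub h9
      refine this.congr fun a => ?_
      ring
    have h7 : ∀ N, 1 ≤ N → |∑' a, l a - 1| ≤ B N := by
      intro N hN
      obtain ⟨g1, g2⟩ := h5 (D N) (hg1 N hN)
      obtain ⟨g3, g4⟩ := h3 N (D N) hN (hD _ _ le_rfl)
      rw [← g2, ← h6.tsum_sub g1]
      have g5 : Summable fun a => |l a - L (D N) a| := g3.congr fun a => abs_sub_comm _ _
      have g6 := norm_tsum_le_tsum_norm (f := fun a => l a - L (D N) a) g5
      simp only [Real.norm_eq_abs] at g6
      refine g6.trans (le_trans (le_of_eq ?_) g4)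
      exact tsum_congr fun a => abs_sub_comm _ _
    have h8 : ∑' a, l a = 1 := by
      have h9 : |∑' a, l a - 1| ≤ 0 := by
        refine ge_of_tendsto hB ?_
        filter_upwards [eventually_ge_atTop 1] with N hN using h7 N hN
      have := abs_nonpos_iff.1 h9
      linarith
    rw [← h8]
    exact h6.hasSum

/-- mean over the `k`-tuples with `1 ≤ n_i ≤ X_i` -/
noncomputable def av : (k : ℕ) → (Fin k → ℕ) → ((Fin k → ℤ) → ℝ) → ℝ
  | 0, _, F => F Fin.elim0
  | k + 1, X, F => mn (X 0) fun n => av k (fun i => X i.succ) fun v => F (Fin.cons n v)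

theorem mn_comm (X Y : ℕ) (g : ℤ → ℤ → ℝ) : mn X (fun n => mn Y fun m => g n m) = mn Y fun m => mn X fun n => g n m := by
  unfold mn
  rw [← sum_div, ← sum_div, sum_comm, div_div, div_div, mul_comm]

theorem mn_congr {X : ℕ} {g g' : ℤ → ℝ} (h : ∀ n, g n = g' n) : mn X g = mn X g' := by
  rw [funext h]

theorem av_comm (k : ℕ) (X₀ : ℕ) (X : Fin k → ℕ) (G : ℤ → (Fin k → ℤ) → ℝ) :
    mn X₀ (fun n => av k X (G n)) = av k X fun v => mn X₀ fun n => G n v := by
  induction k with
  | zero => rfl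
  | succ k ih =>
    unfold av
    rw [mn_comm]
    exact mn_congr fun m => ih (fun i => X i.succ) fun n v => G n (Fin.cons m v)

theorem av_sub (k : ℕ) (X : Fin k → ℕ) (F F' : (Fin k → ℤ) → ℝ) :
    av k X F - av k X F' = av k X fun v => F v - F' v := by
  induction k with
  | zero => rfl
  | succ k ih =>
    unfold av
    rw [mn_sub]
    exact mn_congr fun n => ih _ _ _

theorem av_abs {k : ℕ} {X : Fin k → ℕ} (hX : ∀ i, 1 ≤ X i) {F : (Fin k → ℤ) → ℝ} {a : ℝ} (h : ∀ v, |F v| ≤ a) :
    |av k X F| ≤ a := by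
  induction k with
  | zero => exact h _
  | succ k ih =>
    unfold av
    exact abs_mn_le (hX 0) fun n _ => ih (fun i => hX i.succ) fun v => h _

theorem av_const {k : ℕ} {X : Fin k → ℕ} (hX : ∀ i, 1 ≤ X i) (a : ℝ) : av k X (fun _ => a) = a := by
  induction k with
  | zero => rfl
  | succ k ih =>
    unfold av
    rw [mn_congr fun n => ih fun i => hX i.succ, mn_const (hX 0)]

theorem av_nonneg {k : ℕ} {X : Fin k → ℕ} {F : (Fin k → ℤ) → ℝ} (h : ∀ v, 0 ≤ F v) : 0 ≤ av k X F := by
  induction k with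
  | zero => exact h _
  | succ k ih =>
    unfold av
    unfold mn
    exact div_nonneg (sum_nonneg fun n _ => ih fun v => h _) (Nat.cast_nonneg _)

theorem av_sum {ι : Type*} (k : ℕ) (X : Fin k → ℕ) (s : Finset ι) (F : ι → (Fin k → ℤ) → ℝ) :
    av k X (fun v => ∑ i ∈ s, F i v) = ∑ i ∈ s, av k X (F i) := by
  induction k with
  | zero => rfl
  | succ k ih =>
    unfold av
    rw [← mn_sum]
    exact mn_congr fun n => ih _ _

theorem av_smul (k : ℕ) (X : Fin k → ℕ) (a : ℝ) (F : (Fin k → ℤ) → ℝ) : av k X (fun v => a * F v) = a * av k X F := by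
  induction k with
  | zero => rfl
  | succ k ih =>
    unfold av
    rw [← mn_smul]
    exact mn_congr fun n => ih _ _

theorem av_lip {ε : ℝ} {N : ℕ} (hN : 1 ≤ N) (k : ℕ) (F : (Fin k → ℤ) → ℝ)
    (h : ∀ (i : Fin k) (v : Fin k → ℤ) (Z Z' : ℕ), N ≤ Z → N ≤ Z' →
      |mn Z (fun n => F (Function.update v i n)) - mn Z' (fun n => F (Function.update v i n))| ≤ ε)
    (X X' : Fin k → ℕ) (hX : ∀ i, N ≤ X i) (hX' : ∀ i, N ≤ X' i) : |av k X F - av k X' F| ≤ k * ε := by
  induction k with
  | zero => simp [av]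
  | succ k ih =>
    have h1 : |av (k + 1) X F - mn (X 0) (fun n => av k (fun i => X' i.succ) fun v => F (Fin.cons n v))| ≤ k * ε := by
      have e : av (k + 1) X F = mn (X 0) (fun n => av k (fun i => X i.succ) fun v => F (Fin.cons n v)) := rfl
      rw [e, mn_sub]
      refine abs_mn_le (hN.trans (hX 0)) fun n _ => ?_
      refine ih (fun v => F (Fin.cons n v)) (fun i v Z Z' hZ hZ' => ?_) _ _ (fun i => hX _) fun i => hX' _
      have h2 := h i.succ (Fin.cons n v) Z Z' hZ hZ'
      have h3 : ∀ a : ℤ, F (Fin.cons n (Function.update v i a)) = F (Function.update (Fin.cons n v : Fin (k + 1) → ℤ) i.succ a) := by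
        intro a
        rw [Fin.cons_update]
      rw [mn_congr h3, mn_congr (X := Z') h3]
      exact h2
    have h2 : |mn (X 0) (fun n => av k (fun i => X' i.succ) fun v => F (Fin.cons n v)) - av (k + 1) X' F| ≤ ε := by
      have e : av (k + 1) X' F = mn (X' 0) (fun n => av k (fun i => X' i.succ) fun v => F (Fin.cons n v)) := rfl
      rw [e, av_comm, av_comm, av_sub]
      refine av_abs (fun i => hN.trans (hX' _)) fun v => ?_
      have h3 := h 0 (Fin.cons 0 v) (X 0) (X' 0) (hX 0) (hX' 0)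
      have h4 : ∀ a : ℤ, F (Function.update (Fin.cons 0 v : Fin (k + 1) → ℤ) 0 a) = F (Fin.cons a v) := by
        intro a
        rw [Fin.update_cons_zero]
      rw [mn_congr h4, mn_congr (X := X' 0) h4] at h3
      exact h3
    have h3 := abs_sub_le (av (k + 1) X F) (mn (X 0) (fun n => av k (fun i => X' i.succ) fun v => F (Fin.cons n v)))
      (av (k + 1) X' F)
    push_cast
    linarith

/-- the mean as a sum over the tuples -/
theorem av_eq (k : ℕ) (X : Fin k → ℕ) (F : (Fin k → ℤ) → ℝ) :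
    av k X F = (∑ v ∈ Fintype.piFinset fun i => Finset.Icc (1 : ℤ) (X i), F v) / ∏ i, (X i : ℝ) := by
  induction k with
  | zero =>
    unfold av
    rw [Finset.univ_eq_empty, Finset.prod_empty, div_one]
    have : (Fintype.piFinset fun i : Fin 0 => Finset.Icc (1 : ℤ) (X i)) = {Fin.elim0} := by
      ext v
      simp only [Fintype.mem_piFinset, mem_singleton]
      constructor
      · intro _
        exact Subsingleton.elim _ _
      · intro _ i
        exact i.elim0
    rw [this, sum_singleton]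
  | succ k ih =>
    unfold av
    rw [mn_congr fun n => ih (fun i => X i.succ) fun v => F (Fin.cons n v)]
    unfold mn
    rw [Fin.prod_univ_succ, ← sum_div, div_div, mul_comm (∏ i : Fin k, (X i.succ : ℝ))]
    congr 1
    rw [← Finset.sum_product']
    refine Finset.sum_nbij' (fun p => (Fin.cons p.1 p.2 : Fin (k + 1) → ℤ)) (fun v => (v 0, Fin.tail v)) ?_ ?_ ?_ ?_ ?_
    · intro p hp
      rw [Finset.mem_product, Fintype.mem_piFinset] at hp
      rw [Fintype.mem_piFinset]
      intro i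
      refine Fin.cases ?_ (fun j => ?_) i
      · exact hp.1
      · exact hp.2 j
    · intro v hv
      rw [Fintype.mem_piFinset] at hv
      rw [Finset.mem_product, Fintype.mem_piFinset]
      exact ⟨hv 0, fun j => hv j.succ⟩
    · intro p _
      simp
    · intro v _
      simp
    · intro p _
      rfl

end Pool.Agent.Q74.MG
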