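import Mathlib
import Pool.Agent.Q74.MG.Lim

set_option autoImplicit false

/-! # The laws of the merging points -/

namespace Pool.Agent.Q74.MG

open Finset Filter Topology
open Pool.Agent.H499R2.ND (Td)
open Pool.Agent.Q74.PD (pass)
open Pool.Agent.Results.MP_2d22f3_nt.FirstPassageLaw (freq)

open Classical in
/-- the law of `m v`, `v` uniform in `s` -/
noncomputable def lw {α ι : Type} (s : Finset α) (m : α → ι) (a : ι) : ℝ := ((s.filter fun v => m v = a).card : ℝ) / s.card

theorem lw_fin {α ι : Type} {s : Finset α} (m : α → ι) (hs : 0 < s.card) :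
    (∀ a, 0 ≤ lw s m a) ∧ ∃ S : Finset ι, ∑ a ∈ S, lw s m a = 1 ∧ ∀ a ∉ S, lw s m a = 0 := by
  classical
  refine ⟨fun a => by unfold lw; positivity, s.image m, ?_, fun a ha => ?_⟩
  · unfold lw
    rw [← sum_div]
    have h1 := Finset.card_eq_sum_card_image m s
    have h2 : (∑ a ∈ s.image m, ((s.filter fun v => m v = a).card : ℝ)) = s.card := by exact_mod_cast h1.symm
    have h3 : (s.card : ℝ) ≠ 0 := by positivity
    rw [h2, div_self h3]
  · unfold lw
    have : (s.filter fun v => m v = a) = ∅ := by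
      rw [filter_eq_empty_iff]
      intro v hv h
      exact ha (h ▸ mem_image_of_mem m hv)
    rw [this]
    simp

theorem lw_test {α ι : Type} [DecidableEq ι] (s : Finset α) (m : α → ι) (S : Finset ι) (σ : ι → ℝ) :
    (∑ v ∈ s, if m v ∈ S then σ (m v) else 0) / s.card = ∑ a ∈ S, σ a * lw s m a := by
  classical
  have h1 : ∀ v : α, (if m v ∈ S then σ (m v) else 0) = ∑ a ∈ S, if m v = a then σ a else 0 := by
    intro v
    rw [Finset.sum_ite_eq]
  rw [sum_congr rfl fun v _ => h1 v, sum_comm, sum_div]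
  refine sum_congr rfl fun a _ => ?_
  unfold lw
  rw [← Finset.sum_filter, sum_const, nsmul_eq_mul]
  have : (s.filter fun v => m v = a).card = (s.filter fun v => m v = a).card := rfl
  rw [mul_comm, mul_div_assoc]
  congr!

theorem lw_tv {α ι : Type} (s s' : Finset α) (m : α → ι) (B : ℝ)
    (h : ∀ Φ : ι → ℝ, (∀ a, |Φ a| ≤ 1) → |(∑ v ∈ s, Φ (m v)) / s.card - (∑ v ∈ s', Φ (m v)) / s'.card| ≤ B)
    (S : Finset ι) : ∑ a ∈ S, |lw s m a - lw s' m a| ≤ B := by
  classical
  obtain ⟨σ, hσ⟩ : ∃ σ : ι → ℝ, σ = fun a => if 0 ≤ lw s m a - lw s' m a then 1 else -1 := ⟨_, rfl⟩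
  have h1 := h (fun a => if a ∈ S then σ a else 0) (fun a => by
    rw [hσ]
    dsimp only
    split_ifs <;> norm_num)
  rw [lw_test s m S σ, lw_test s' m S σ, ← sum_sub_distrib] at h1
  have h2 : ∀ a ∈ S, |lw s m a - lw s' m a| = σ a * lw s m a - σ a * lw s' m a := by
    intro a _
    rw [hσ]
    dsimp only
    split_ifs with h3
    · rw [abs_of_nonneg h3]; ring
    · rw [abs_of_neg (not_le.1 h3)]; ring
  rw [sum_congr rfl h2]
  exact (le_abs_self _).trans h1

/-- all merging points of several trajectories -/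
noncomputable def merges {k : ℕ} (d : ℤ) (v : Fin k → ℤ) (i j : Fin k) : ℤ := if i = j then 0 else merge d (v i) (v j)

theorem merges_inv {k : ℕ} {d : ℤ} (v : Fin k → ℤ) (i : Fin k) (y : ℝ) (n : ℤ)
    (h : ∃ i : ℕ, (((Td d)^[i] n : ℤ) : ℝ) ≤ y) (hm : ∀ j, ¬ Meets d y (v j) n) :
    merges d (Function.update v i n) = merges d (Function.update v i (pass d y n)) := by
  funext a b
  unfold merges
  by_cases hab : a = b
  · rw [if_pos hab, if_pos hab]
  · rw [if_neg hab, if_neg hab]
    by_cases ha : a = i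
    · subst ha
      have hb : b ≠ a := fun h => hab h.symm
      rw [Function.update_self, Function.update_self, Function.update_of_ne hb, Function.update_of_ne hb]
      exact merge_left h (hm b)
    · rw [Function.update_of_ne ha, Function.update_of_ne ha]
      by_cases hb : b = i
      · subst hb
        rw [Function.update_self, Function.update_self]
        exact merge_right h (hm a)
      · rw [Function.update_of_ne hb, Function.update_of_ne hb]

theorem B_tendsto {c : ℝ} (hc : 0 < c) (K : ℝ) : Tendsto (fun N : ℕ => K * (1 + Real.log N) ^ (-c)) atTop (𝓝 0) := by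
  have h1 : Tendsto (fun N : ℕ => 1 + Real.log (N : ℝ)) atTop atTop :=
    tendsto_atTop_add_const_left _ _ (Real.tendsto_log_atTop.comp tendsto_natCast_atTop_atTop)
  have h2 := (tendsto_rpow_neg_atTop hc).comp h1
  have h3 := h2.const_mul K
  rw [mul_zero] at h3
  exact h3

/-- THE LIMIT LAWS -/
theorem laws : ∃ c : ℝ, 0 < c ∧ ∀ d : ℤ, d % 2 = 1 → ¬ (3 : ℤ) ∣ d → ∃ K : ℝ, 0 < K ∧
    (∀ (m : ℤ) (y : ℝ) (N : ℕ), 1 ≤ y → y ≤ N → fm d y m N ≤ K * (1 + Real.log y) ^ (-c)) ∧
    (∀ m : ℤ, ∃ l : ℤ → ℝ, (∀ a, 0 ≤ l a) ∧ HasSum l 1 ∧ ∀ X : ℕ, 1 ≤ X →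
      (Summable fun a => |lw (Finset.Icc (1 : ℤ) X) (fun n => merge d n m) a - l a|) ∧
      ∑' a, |lw (Finset.Icc (1 : ℤ) X) (fun n => merge d n m) a - l a| ≤ K * (1 + Real.log X) ^ (-c)) ∧
    ∀ k : ℕ, ∃ l : (Fin k → Fin k → ℤ) → ℝ, (∀ a, 0 ≤ l a) ∧ HasSum l 1 ∧ ∀ (N : ℕ) (X : Fin k → ℕ), 1 ≤ N →
      (∀ i, N ≤ X i) →
      (Summable fun a => |lw (Fintype.piFinset fun i => Finset.Icc (1 : ℤ) (X i)) (merges d) a - l a|) ∧
      ∑' a, |lw (Fintype.piFinset fun i => Finset.Icc (1 : ℤ) (X i)) (merges d) a - l a| ≤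
        K * k ^ 2 * (1 + Real.log N) ^ (-c) := by
  obtain ⟨c, hc, h0⟩ := one
  refine ⟨c, hc, fun d hd hd3 => ?_⟩
  obtain ⟨K, hK, h1, h2⟩ := h0 d hd hd3
  have hcard : ∀ X : ℕ, (Finset.Icc (1 : ℤ) X).card = X := fun X => by
    rw [Int.card_Icc]
    simp
  refine ⟨2 * K, by positivity, fun m y N hy hyN => ?_, fun m => ?_, fun k => ?_⟩
  · refine (h1 m y N hy hyN).trans (mul_le_mul_of_nonneg_right (by linarith) ?_)
    have := Real.log_nonneg hy
    positivity
  · obtain ⟨l, hl0, hl1, hl⟩ := lim_law (ι := ℤ) (J := ℕ) (fun X N => N ≤ X) id (fun N M h => h)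
      (fun X a => lw (Finset.Icc (1 : ℤ) X) (fun n => merge d n m) a)
      (fun N => 2 * K * (1 + Real.log N) ^ (-c)) (B_tendsto hc _)
      (fun X hX => lw_fin _ (by rw [hcard]; omega))
      (fun S N X X' hN hX hX' => by
        refine lw_tv _ _ _ _ (fun Φ hΦ => ?_) S
        have g1 := h2 1 (fun _ => m) (fun n => Φ (merge d n m)) (fun n => hΦ _)
          (fun y n hp hm => by rw [merge_left hp (hm 0)]) N X X' hN hX hX'
        unfold mn at g1
        rw [hcard, hcard]
        refine g1.trans (le_of_eq ?_)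
        push_cast
        ring)
    exact ⟨l, hl0, hl1, fun X hX => hl X X hX le_rfl⟩
  · have hcard2 : ∀ X : Fin k → ℕ, ((Fintype.piFinset fun i => Finset.Icc (1 : ℤ) (X i)).card : ℝ) = ∏ i, (X i : ℝ) := by
      intro X
      rw [Fintype.card_piFinset]
      push_cast
      exact prod_congr rfl fun i _ => by rw [hcard]
    obtain ⟨l, hl0, hl1, hl⟩ := lim_law (ι := Fin k → Fin k → ℤ) (J := Fin k → ℕ) (fun X N => ∀ i, N ≤ X i)
      (fun N _ => N) (fun N M h _ => h)
      (fun X a => lw (Fintype.piFinset fun i => Finset.Icc (1 : ℤ) (X i)) (merges d) a)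
      (fun N => 2 * K * k ^ 2 * (1 + Real.log N) ^ (-c)) (B_tendsto hc _)
      (fun X hX => lw_fin _ (by
        rw [Fintype.card_piFinset]
        exact prod_pos fun i _ => by rw [hcard]; exact hX i))
      (fun S N X X' hN hX hX' => by
        refine lw_tv _ _ _ _ (fun Φ hΦ => ?_) S
        have g1 := av_lip hN k (fun v => Φ (merges d v)) (ε := K * (k + 1) * (1 + Real.log N) ^ (-c))
          (fun i v Z Z' hZ hZ' => h2 k v (fun n => Φ (merges d (Function.update v i n))) (fun n => hΦ _)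
            (fun y n hp hm => by rw [merges_inv v i y n hp hm]) N Z Z' hN hZ hZ') X X' hX hX'
        rw [av_eq, av_eq] at g1
        rw [hcard2, hcard2]
        refine g1.trans ?_
        have hN1 : (1 : ℝ) ≤ N := by exact_mod_cast hN
        have hq : 0 ≤ (1 + Real.log N) ^ (-c) := by
          have := Real.log_nonneg hN1
          positivity
        have hk : (k : ℝ) * (k + 1) ≤ 2 * k ^ 2 := by
          rcases Nat.eq_zero_or_pos k with hk | hk
          · rw [hk]; norm_num
          · have : (1 : ℝ) ≤ k := by exact_mod_cast hk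
            nlinarith
        have h5 : 0 ≤ K * (1 + Real.log N) ^ (-c) := by positivity
        nlinarith)
    exact ⟨l, hl0, hl1, fun N X hN hX => hl N X hN hX⟩

end Pool.Agent.Q74.MG
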