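import Mathlib
import Pool.Agent.Q74.MG.Tail
import Pool.Agent.Q74.PD.Fin

set_option autoImplicit false

/-! # The law of the merging point of two random trajectories -/

namespace Pool.Agent.Q74.MG

open Finset Filter Topology
open Pool.Agent.H499R2.ND (Td G)
open Pool.Agent.Q74.PD (pass Pr cntP cntP_eq)
open Pool.Agent.Y856.PD (EInv density_existsA)

/-- predecessor sets have natural densities -/
theorem dens_all {d : ℤ} (hd : Odd d) (hd3 : IsCoprime d 3) (a : ℤ) :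
    ∃ x : ℝ, Tendsto (fun X : ℕ => (cntP d a X : ℝ) / X) atTop (𝓝 x) := by
  have hE : EInv (max (a : ℝ) |(d : ℝ)|) d (Pr d a) := by
    intro x hx
    have hxa : x ≠ a := by
      rintro rfl
      exact absurd hx (not_lt.2 (le_max_left _ _))
    constructor
    · rintro ⟨j, hj⟩
      cases j with
      | zero => exact absurd hj hxa
      | succ j => exact ⟨j, by rwa [Function.iterate_succ_apply] at hj⟩
    · rintro ⟨j, hj⟩
      exact ⟨j + 1, by rwa [Function.iterate_succ_apply]⟩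
  obtain ⟨l, h1⟩ := density_existsA hd hd3 (le_max_right (a : ℝ) |(d : ℝ)|) hE
  refine ⟨l, ?_⟩
  have h2 : Tendsto (fun X : ℕ => (X : ℝ) + 1) atTop atTop :=
    tendsto_atTop_add_const_right _ _ tendsto_natCast_atTop_atTop
  have h3 := h1.comp h2
  have h4 : Tendsto (fun X : ℕ => ((X : ℝ) + 1) / X) atTop (𝓝 1) := by
    have h5 : Tendsto (fun X : ℕ => 1 + 1 / (X : ℝ)) atTop (𝓝 (1 + 0)) :=
      tendsto_const_nhds.add tendsto_one_div_atTop_nhds_zero_nat
    rw [add_zero] at h5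
    refine h5.congr' ?_
    filter_upwards [eventually_gt_atTop 0] with X hX
    have : (X : ℝ) ≠ 0 := by positivity
    field_simp
  have h5 := h3.mul h4
  rw [mul_one] at h5
  refine h5.congr' ?_
  filter_upwards [eventually_gt_atTop 0] with X hX
  have hX' : (X : ℝ) ≠ 0 := by positivity
  simp only [Function.comp_apply]
  rw [cntP_eq]
  field_simp

theorem Td_pre {d x a : ℤ} (hd : d % 2 = 1) : Td d x = a ↔ x = 2 * a ∨ 3 * x + d = 2 * a := by
  unfold Pool.Agent.H499R2.ND.Td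
  split_ifs with h <;> omega

theorem Td_zero (d : ℤ) : Td d 0 = 0 := by
  unfold Pool.Agent.H499R2.ND.Td
  norm_num

theorem per_of_two {d a u w n : ℤ} (hper : ∀ k, 1 ≤ k → (Td d)^[k] a ≠ a) (hu : Td d u = a) (hw : Td d w = a)
    (huw : u ≠ w) (h1 : n ∈ Pr d u) (h2 : n ∈ Pr d w) : False := by
  obtain ⟨i, hi⟩ := h1
  obtain ⟨j, hj⟩ := h2
  have hi' : (Td d)^[i + 1] n = a := by rw [Function.iterate_succ_apply', hi, hu]
  have hj' : (Td d)^[j + 1] n = a := by rw [Function.iterate_succ_apply', hj, hw]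
  rcases lt_trichotomy i j with h | h | h
  · apply hper (j - i) (by omega)
    conv_lhs => rw [← hi']
    rw [← Function.iterate_add_apply, show j - i + (i + 1) = j + 1 by omega, hj']
  · subst h
    exact huw (hi.symm.trans hj)
  · apply hper (i - j) (by omega)
    conv_lhs => rw [← hj']
    rw [← Function.iterate_add_apply, show i - j + (j + 1) = i + 1 by omega, hi']

theorem merge_of {d a u w n₁ n₂ : ℤ} (hper : ∀ k, 1 ≤ k → (Td d)^[k] a ≠ a) (hu : Td d u = a) (hw : Td d w = a)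
    (huw : u ≠ w) (h1 : n₁ ∈ Pr d u) (h2 : n₂ ∈ Pr d w) : merge d n₁ n₂ = a := by
  obtain ⟨i, hi⟩ := h1
  have h2' := h2
  obtain ⟨j, hj⟩ := h2'
  have hi' : (Td d)^[i + 1] n₁ = a := by rw [Function.iterate_succ_apply', hi, hu]
  have hj' : (Td d)^[j + 1] n₂ = a := by rw [Function.iterate_succ_apply', hj, hw]
  rw [merge_eq (i := i + 1) ⟨j + 1, by rw [hi', hj']⟩, hi']
  rintro l hl ⟨j', hj''⟩
  refine per_of_two hper hu hw huw (n := n₂) ⟨i - l + j', ?_⟩ h2
  rw [Function.iterate_add_apply, ← hj'', ← Function.iterate_add_apply, show i - l + l = i by omega, hi]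

theorem of_merge {d a n₁ n₂ : ℤ} (hper : ∀ k, 1 ≤ k → (Td d)^[k] a ≠ a) (h1 : n₁ ≠ a) (h2 : n₂ ≠ a)
    (h : merge d n₁ n₂ = a) : ∃ u w : ℤ, u ≠ w ∧ Td d u = a ∧ Td d w = a ∧ n₁ ∈ Pr d u ∧ n₂ ∈ Pr d w := by
  classical
  have ha0 : a ≠ 0 := by
    rintro rfl
    exact hper 1 le_rfl (by rw [Function.iterate_one, Td_zero])
  by_cases hex : ∃ i j : ℕ, (Td d)^[i] n₁ = (Td d)^[j] n₂
  swap
  · exact absurd (h.symm.trans (merge_zero hex)) ha0
  obtain ⟨i, hi⟩ : ∃ i, i = Nat.find hex := ⟨_, rfl⟩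
  have hi1 : ∃ j : ℕ, (Td d)^[i] n₁ = (Td d)^[j] n₂ := by rw [hi]; exact Nat.find_spec hex
  have hi2 : ∀ l < i, ¬ ∃ j : ℕ, (Td d)^[l] n₁ = (Td d)^[j] n₂ := fun l hl' => by
    rw [hi] at hl'
    exact Nat.find_min hex hl'
  have h3 := merge_eq hi1 hi2
  rw [h] at h3
  obtain ⟨j, hj⟩ := hi1
  cases i with
  | zero => exact absurd h3.symm h1
  | succ i =>
    cases j with
    | zero => exact absurd (hj.symm.trans h3.symm) h2
    | succ j =>
      refine ⟨(Td d)^[i] n₁, (Td d)^[j] n₂, fun e => hi2 i (by omega) ⟨j, e⟩, ?_, ?_, ⟨i, rfl⟩, ⟨j, rfl⟩⟩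
      · exact (Function.iterate_succ_apply' (Td d) i n₁).symm.trans h3.symm
      · exact (Function.iterate_succ_apply' (Td d) j n₂).symm.trans (hj.symm.trans h3.symm)

/-- the law of the merging point of two integers -/
noncomputable def lp (d : ℤ) (X : ℕ × ℕ) (a : ℤ) : ℝ :=
  lw (Finset.Icc (1 : ℤ) X.1 ×ˢ Finset.Icc (1 : ℤ) X.2) (fun p => merge d p.1 p.2) a

open Classical in
theorem card_pr (d a : ℤ) (X : ℕ) : ((Finset.Icc (1 : ℤ) X).filter fun n => n ∈ Pr d a).card = cntP d a X := by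
  unfold Pool.Agent.Q74.PD.cntP
  rw [← Set.ncard_coe_finset]
  congr 1
  ext n
  simp only [Finset.coe_filter, Finset.mem_Icc, Set.mem_ofPred_eq, and_assoc]
  rfl

theorem card_Icc1 (X : ℕ) : (Finset.Icc (1 : ℤ) X).card = X := by
  rw [Int.card_Icc]
  simp

theorem lp_upper {d a : ℤ} (hper : ∀ k, 1 ≤ k → (Td d)^[k] a ≠ a) (X : ℕ) (Q : Finset (ℤ × ℤ))
    (hQ : ∀ n₁ n₂ u w : ℤ, 1 ≤ n₁ → n₁ ≤ X → 1 ≤ n₂ → n₂ ≤ X → u ≠ w → Td d u = a → Td d w = a → n₁ ∈ Pr d u →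
      n₂ ∈ Pr d w → (n₁, n₂) ∈ Q) :
    lp d (X, X) a ≤ (Q.card + 2 * X) / (X * X) := by
  classical
  unfold lp lw
  rw [card_product, card_Icc1]
  push_cast
  apply div_le_div_of_nonneg_right _ (by positivity)
  have h1 : ((Finset.Icc (1 : ℤ) X ×ˢ Finset.Icc (1 : ℤ) X).filter fun p => merge d p.1 p.2 = a) ⊆
      Q ∪ (({a} ×ˢ Finset.Icc (1 : ℤ) X) ∪ (Finset.Icc (1 : ℤ) X ×ˢ {a})) := by
    rintro ⟨n₁, n₂⟩ hp
    rw [mem_filter, mem_product, Finset.mem_Icc, Finset.mem_Icc] at hp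
    obtain ⟨⟨⟨p1, p2⟩, p3, p4⟩, p5⟩ := hp
    rw [mem_union, mem_union, mem_product, mem_product, Finset.mem_Icc, Finset.mem_Icc, mem_singleton, mem_singleton]
    by_cases e1 : n₁ = a
    · exact Or.inr (Or.inl ⟨e1, p3, p4⟩)
    · by_cases e2 : n₂ = a
      · exact Or.inr (Or.inr ⟨⟨p1, p2⟩, e2⟩)
      · obtain ⟨u, w, q1, q2, q3, q4, q5⟩ := of_merge hper e1 e2 p5
        exact Or.inl (hQ n₁ n₂ u w p1 p2 p3 p4 q1 q2 q3 q4 q5)
  have h2 := (card_le_card h1).trans ((card_union_le _ _).trans (Nat.add_le_add_left (card_union_le _ _) _))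
  rw [card_product, card_product, card_Icc1, card_singleton] at h2
  have h3 : (((Finset.Icc (1 : ℤ) X ×ˢ Finset.Icc (1 : ℤ) X).filter fun p => merge d p.1 p.2 = a).card : ℝ) ≤
      Q.card + (1 * X + X * 1) := by exact_mod_cast h2
  refine le_trans (le_of_eq ?_) (h3.trans (le_of_eq (by ring)))
  congr!

theorem lp_limit {d a b : ℤ} (hd : d % 2 = 1) (hper : ∀ k, 1 ≤ k → (Td d)^[k] a ≠ a) (hb : 3 * b + d = 2 * a)
    {x y : ℝ} (hx : Tendsto (fun X : ℕ => (cntP d (2 * a) X : ℝ) / X) atTop (𝓝 x))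
    (hy : Tendsto (fun X : ℕ => (cntP d b X : ℝ) / X) atTop (𝓝 y)) :
    Tendsto (fun X : ℕ => lp d (X, X) a) atTop (𝓝 (2 * x * y)) := by
  classical
  have hab : 2 * a ≠ b := by omega
  have hu : Td d (2 * a) = a := (Td_pre hd).2 (Or.inl rfl)
  have hw : Td d b = a := (Td_pre hd).2 (Or.inr hb)
  have main : ∀ X : ℕ, ∃ Q : Finset (ℤ × ℤ), (Q.card : ℝ) = 2 * cntP d (2 * a) X * cntP d b X ∧
      (Q.card : ℝ) / (X * X) ≤ lp d (X, X) a ∧ lp d (X, X) a ≤ (Q.card + 2 * X) / (X * X) := by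
    intro X
    obtain ⟨U, hU⟩ : ∃ U, U = (Finset.Icc (1 : ℤ) X).filter fun n => n ∈ Pr d (2 * a) := ⟨_, rfl⟩
    obtain ⟨W, hW⟩ : ∃ W, W = (Finset.Icc (1 : ℤ) X).filter fun n => n ∈ Pr d b := ⟨_, rfl⟩
    have hUc : U.card = cntP d (2 * a) X := by rw [hU, card_pr]
    have hWc : W.card = cntP d b X := by rw [hW, card_pr]
    have hdis : Disjoint (U ×ˢ W) (W ×ˢ U) := by
      rw [Finset.disjoint_left]
      rintro ⟨n₁, n₂⟩ h1 h2
      rw [mem_product] at h1 h2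
      rw [hU, mem_filter] at h1
      rw [hW, mem_filter] at h2
      exact per_of_two hper hu hw hab h1.1.2 h2.1.2
    refine ⟨U ×ˢ W ∪ W ×ˢ U, ?_, ?_, ?_⟩
    · rw [card_union_of_disjoint hdis, card_product, card_product, hUc, hWc]
      push_cast
      ring
    · unfold lp lw
      rw [card_product, card_Icc1]
      push_cast
      apply div_le_div_of_nonneg_right _ (by positivity)
      have h1 : U ×ˢ W ∪ W ×ˢ U ⊆
          ((Finset.Icc (1 : ℤ) X ×ˢ Finset.Icc (1 : ℤ) X).filter fun p => merge d p.1 p.2 = a) := by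
        rintro ⟨n₁, n₂⟩ h1
        rw [mem_union, mem_product, mem_product, hU, hW] at h1
        simp only [mem_filter] at h1
        rw [mem_filter, mem_product]
        rcases h1 with ⟨⟨e1, e2⟩, e3, e4⟩ | ⟨⟨e1, e2⟩, e3, e4⟩
        · exact ⟨⟨e1, e3⟩, merge_of hper hu hw hab e2 e4⟩
        · exact ⟨⟨e1, e3⟩, merge_of hper hw hu hab.symm e2 e4⟩
      have h2 := card_le_card h1
      have h3 : ((U ×ˢ W ∪ W ×ˢ U).card : ℝ) ≤
        (((Finset.Icc (1 : ℤ) X ×ˢ Finset.Icc (1 : ℤ) X).filter fun p => merge d p.1 p.2 = a).card : ℝ) := by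
        exact_mod_cast h2
      refine h3.trans (le_of_eq ?_)
      congr!
    · apply lp_upper hper
      intro n₁ n₂ u w p1 p2 p3 p4 q1 q2 q3 q4 q5
      rw [mem_union, mem_product, mem_product, hU, hW]
      simp only [mem_filter, Finset.mem_Icc]
      rcases (Td_pre hd).1 q2 with e | e <;> rcases (Td_pre hd).1 q3 with e' | e'
      · exact absurd (e.trans e'.symm) q1
      · have : w = b := by omega
        subst e
        subst this
        exact Or.inl ⟨⟨⟨p1, p2⟩, q4⟩, ⟨p3, p4⟩, q5⟩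
      · have : u = b := by omega
        subst e'
        subst this
        exact Or.inr ⟨⟨⟨p1, p2⟩, q4⟩, ⟨p3, p4⟩, q5⟩
      · exact absurd (show u = w by omega) q1
  choose Q hQ1 hQ2 hQ3 using main
  have h1 : Tendsto (fun X : ℕ => ((Q X).card : ℝ) / (X * X)) atTop (𝓝 (2 * x * y)) := by
    have h2 := (hx.mul hy).const_mul 2
    rw [← mul_assoc] at h2
    refine h2.congr fun X => ?_
    rw [hQ1 X, div_mul_div_comm]
    ring
  have h2 : Tendsto (fun X : ℕ => (((Q X).card : ℝ) + 2 * X) / (X * X)) atTop (𝓝 (2 * x * y)) := by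
    have h3 : Tendsto (fun X : ℕ => ((Q X).card : ℝ) / (X * X) + 2 * (1 / (X : ℝ))) atTop (𝓝 (2 * x * y + 2 * 0)) :=
      h1.add (tendsto_one_div_atTop_nhds_zero_nat.const_mul 2)
    rw [mul_zero, add_zero] at h3
    refine h3.congr' ?_
    filter_upwards [eventually_gt_atTop 0] with X hX
    have : (X : ℝ) ≠ 0 := by positivity
    field_simp
  exact tendsto_of_tendsto_of_tendsto_of_le_of_le h1 h2 hQ2 hQ3

theorem lp_limit_zero {d a : ℤ} (hd : d % 2 = 1) (hper : ∀ k, 1 ≤ k → (Td d)^[k] a ≠ a)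
    (hb : ¬ ∃ b : ℤ, 3 * b + d = 2 * a) : Tendsto (fun X : ℕ => lp d (X, X) a) atTop (𝓝 0) := by
  classical
  have h1 : ∀ X : ℕ, lp d (X, X) a ≤ (((∅ : Finset (ℤ × ℤ)).card : ℝ) + 2 * X) / (X * X) := by
    intro X
    apply lp_upper hper
    intro n₁ n₂ u w p1 p2 p3 p4 q1 q2 q3 q4 q5
    rcases (Td_pre hd).1 q2 with e | e
    · rcases (Td_pre hd).1 q3 with e' | e'
      · exact absurd (e.trans e'.symm) q1
      · exact absurd ⟨w, e'⟩ hb
    · exact absurd ⟨u, e⟩ hb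
  have h2 : Tendsto (fun X : ℕ => (((∅ : Finset (ℤ × ℤ)).card : ℝ) + 2 * X) / (X * X)) atTop (𝓝 0) := by
    have h3 : Tendsto (fun X : ℕ => 2 * (1 / (X : ℝ))) atTop (𝓝 (2 * 0)) :=
      tendsto_one_div_atTop_nhds_zero_nat.const_mul 2
    rw [mul_zero] at h3
    refine h3.congr' ?_
    filter_upwards [eventually_gt_atTop 0] with X hX
    have : (X : ℝ) ≠ 0 := by positivity
    rw [card_empty]
    push_cast
    field_simp
    ring
  refine tendsto_of_tendsto_of_tendsto_of_le_of_le tendsto_const_nhds h2 (fun X => ?_) h1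
  unfold lp lw
  positivity

end Pool.Agent.Q74.MG
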