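import Mathlib
import Pool.Agent.Q74.MG.Tail

set_option autoImplicit false

/-! # Two random trajectories meet above `z` with probability at least `1/(C z)` -/

namespace Pool.Agent.Q74.MG

open Finset Filter Topology
open Pool.Agent.H499R2.ND (Td)
open Pool.Agent.Q74.PD (pass)
open Pool.Agent.Results.MP_2d22f3_nt.FirstPassageLaw (freq)

theorem meets_pass {d : ℤ} {y z : ℝ} (hzy : z ≤ y) {n₁ n₂ b : ℤ} (hz : 0 ≤ z) (hb : z < b) (h₁ : pass d y n₁ = b)
    (h₂ : pass d y n₂ = b) : Meets d z n₂ n₁ := by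
  classical
  have hb0 : b ≠ 0 := by
    intro h
    rw [h] at hb
    norm_num at hb
    linarith
  have hp : ∀ n : ℤ, pass d y n = b → ∃ k : ℕ, (((Td d)^[k] n : ℤ) : ℝ) ≤ y := by
    intro n hn
    by_contra hc
    apply hb0
    rw [← hn]
    unfold Pool.Agent.Q74.PD.pass
    rw [dif_neg hc]
  obtain ⟨k₁, e₁, l₁⟩ := pass_spec (hp n₁ h₁)
  obtain ⟨k₂, e₂, -⟩ := pass_spec (hp n₂ h₂)
  exact ⟨k₁, k₂, by rw [← e₁, ← e₂, h₁, h₂], fun l hl => lt_of_le_of_lt hzy (l₁ l hl)⟩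

open Classical in
/-- proportion of the pairs whose trajectories meet above `z` -/
noncomputable def pm (d : ℤ) (z : ℝ) (X₁ X₂ : ℕ) : ℝ :=
  (((Finset.Icc (1 : ℤ) X₁ ×ˢ Finset.Icc (1 : ℤ) X₂).filter fun p => Meets d z p.2 p.1).card : ℝ) / (X₁ * X₂)

open Classical in
theorem pm_eq (d : ℤ) (z : ℝ) (X₁ X₂ : ℕ) : pm d z X₁ X₂ =
    mn X₁ fun n₁ => mn X₂ fun n₂ => if Meets d z n₂ n₁ then (1 : ℝ) else 0 := by
  unfold pm mn
  rw [← sum_div, div_div, mul_comm (X₂ : ℝ)]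
  congr 1
  rw [← Finset.sum_product', Finset.card_filter]
  push_cast
  refine sum_congr rfl fun p _ => ?_
  split_ifs <;> rfl

theorem tail2 {d : ℤ} (hd : d % 2 = 1) (hd3 : ¬ (3 : ℤ) ∣ d) : ∃ C : ℝ, 0 < C ∧ ∀ z : ℝ, 1 ≤ z → ∃ X₀ : ℕ,
    ∀ X₁ X₂ : ℕ, X₀ ≤ X₁ → X₀ ≤ X₂ → 1 / (C * z) ≤ pm d z X₁ X₂ := by
  classical
  obtain ⟨c, hc, h0⟩ := rare
  obtain ⟨C, hC, -, h2⟩ := h0 d hd hd3
  have h3 : Tendsto (fun z : ℝ => C * (1 + Real.log (2 * z)) ^ (-c)) atTop (𝓝 0) := by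
    have g1 : Tendsto (fun z : ℝ => 1 + Real.log (2 * z)) atTop atTop :=
      tendsto_atTop_add_const_left _ _ (Real.tendsto_log_atTop.comp (tendsto_id.const_mul_atTop (by norm_num)))
    have g2 := ((tendsto_rpow_neg_atTop hc).comp g1).const_mul C
    rw [mul_zero] at g2
    exact g2
  obtain ⟨z₁, hz₁⟩ := eventually_atTop.1 (h3.eventually_le_const (show (0 : ℝ) < 1 / 4 by norm_num))
  obtain ⟨z₀, hz₀⟩ : ∃ z₀, z₀ = max z₁ (max 1 |(d : ℝ)|) := ⟨_, rfl⟩
  have hz₀1 : 1 ≤ z₀ := by rw [hz₀]; exact (le_max_left _ _).trans (le_max_right _ _)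
  have main : ∀ z : ℝ, z₀ ≤ z → ∃ X₀ : ℕ, ∀ X₁ X₂ : ℕ, X₀ ≤ X₁ → X₀ ≤ X₂ → 1 / (4 * z) ≤ pm d z X₁ X₂ := by
    intro z hz
    have hz1 : 1 ≤ z := hz₀1.trans hz
    have hdz : |(d : ℝ)| ≤ z := by
      refine le_trans ?_ hz
      rw [hz₀]
      exact (le_max_right _ _).trans (le_max_right _ _)
    obtain ⟨μ, p1, p2, p3, p4, -⟩ := h2 (2 * z) (by linarith) (by linarith)
    obtain ⟨I, hI⟩ : ∃ I, I = (Icc (0 : ℤ) ⌊2 * z⌋).filter fun b : ℤ => z < (b : ℝ) := ⟨_, rfl⟩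
    have hμ0 : μ 0 ≤ 1 / 4 := p4.trans (hz₁ z (by
      refine le_trans ?_ hz
      rw [hz₀]
      exact le_max_left _ _))
    have q1 : 3 / 4 ≤ ∑ b ∈ I, μ b := by
      have r1 : ∑ b ∈ Icc (0 : ℤ) ⌊2 * z⌋, μ b = ∑ b ∈ I, μ b + ∑ b ∈ (Icc (0 : ℤ) ⌊2 * z⌋).filter (fun b : ℤ => ¬ z < (b : ℝ)), μ b := by
        rw [hI]
        exact (Finset.sum_filter_add_sum_filter_not _ _ _).symm
      have r2 : ∑ b ∈ (Icc (0 : ℤ) ⌊2 * z⌋).filter (fun b : ℤ => ¬ z < (b : ℝ)), μ b ≤ μ 0 := by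
        have r3 : ∑ b ∈ (Icc (0 : ℤ) ⌊2 * z⌋).filter (fun b : ℤ => ¬ z < (b : ℝ)), μ b =
            ∑ b ∈ (Icc (0 : ℤ) ⌊2 * z⌋).filter (fun b : ℤ => ¬ z < (b : ℝ)), if b = 0 then μ 0 else 0 := by
          refine sum_congr rfl fun b hb => ?_
          rw [mem_filter] at hb
          by_cases hb0 : b = 0
          · rw [hb0, if_pos rfl]
          · rw [if_neg hb0]
            by_contra hne
            rcases (p2 b).2.2 hne with h | h
            · exact hb0 h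
            · apply hb.2
              have := h.1
              linarith
        rw [r3, Finset.sum_ite_eq']
        split_ifs
        · exact le_rfl
        · exact (p2 0).1
      linarith
    have q2 : (I.card : ℝ) ≤ 2 * z := by
      have r1 : I ⊆ Icc (⌊z⌋ + 1) ⌊2 * z⌋ := by
        intro b hb
        rw [hI, mem_filter, Finset.mem_Icc] at hb
        rw [Finset.mem_Icc]
        refine ⟨?_, hb.1.2⟩
        have : ⌊z⌋ < b := Int.floor_lt.2 hb.2
        omega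
      have r2 := card_le_card r1
      rw [Int.card_Icc] at r2
      have r3 : ((⌊2 * z⌋ + 1 - (⌊z⌋ + 1)).toNat : ℤ) = ⌊2 * z⌋ - ⌊z⌋ := by
        rw [Int.toNat_of_nonneg]
        · ring
        · have : ⌊z⌋ ≤ ⌊2 * z⌋ := Int.floor_le_floor (by linarith)
          omega
      have r4 : (I.card : ℤ) ≤ ⌊2 * z⌋ - ⌊z⌋ := by
        rw [← r3]
        exact_mod_cast r2
      have r5 : (I.card : ℝ) ≤ (⌊2 * z⌋ : ℝ) - ⌊z⌋ := by exact_mod_cast r4
      have r6 := Int.floor_le (2 * z)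
      have r7 := Int.lt_floor_add_one z
      linarith
    have q3 : 9 / (32 * z) ≤ ∑ b ∈ I, μ b ^ 2 := by
      have r1 := sq_sum_le_card_mul_sum_sq (s := I) (f := μ)
      have r2 : (9 / 16 : ℝ) ≤ (∑ b ∈ I, μ b) ^ 2 := by nlinarith
      have r3 : 0 ≤ ∑ b ∈ I, μ b ^ 2 := sum_nonneg fun b _ => sq_nonneg _
      rw [div_le_iff₀ (by linarith)]
      nlinarith
    have hμ1 : ∀ b, μ b ≤ 1 := fun b => le_of_tendsto (p2 b).2.1 (by
      filter_upwards [eventually_ge_atTop 1] with X hX using freq_le_one hX _)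
    have q4 : Tendsto (fun X : ℕ => ∑ b ∈ I, |(freq X fun n => pass d (2 * z) n = b) - μ b|) atTop (𝓝 0) := by
      have r1 : Tendsto (fun X : ℕ => ∑ b ∈ I, |(freq X fun n => pass d (2 * z) n = b) - μ b|) atTop
          (𝓝 (∑ b ∈ I, |μ b - μ b|)) :=
        tendsto_finsetSum _ fun b _ => ((p2 b).2.1.sub tendsto_const_nhds).abs
      simpa using r1
    obtain ⟨X₀, hX₀⟩ := eventually_atTop.1 (q4.eventually_le_const (show (0 : ℝ) < 1 / (64 * z) by positivity))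
    refine ⟨max X₀ 1, fun X₁ X₂ hX₁ hX₂ => ?_⟩
    have e₁ := hX₀ X₁ ((le_max_left _ _).trans hX₁)
    have e₂ := hX₀ X₂ ((le_max_left _ _).trans hX₂)
    have g₁ : 1 ≤ X₁ := (le_max_right _ _).trans hX₁
    have g₂ : 1 ≤ X₂ := (le_max_right _ _).trans hX₂
    have q5 : ∑ b ∈ I, (freq X₁ fun n => pass d (2 * z) n = b) * (freq X₂ fun n => pass d (2 * z) n = b) ≤ pm d z X₁ X₂ := by
      rw [pm_eq]
      have r1 : ∀ b : ℤ, (freq X₁ fun n => pass d (2 * z) n = b) * (freq X₂ fun n => pass d (2 * z) n = b) =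
          mn X₁ fun n₁ => mn X₂ fun n₂ => (if pass d (2 * z) n₁ = b then (1 : ℝ) else 0) * if pass d (2 * z) n₂ = b then (1 : ℝ) else 0 := by
        intro b
        rw [← mn_ind, ← mn_ind, mul_comm, ← mn_smul]
        refine mn_congr fun n₁ => ?_
        rw [mn_smul, mul_comm]
      rw [sum_congr rfl fun b _ => r1 b, ← mn_sum]
      refine mn_mono _ fun n₁ _ => ?_
      rw [← mn_sum]
      refine mn_mono _ fun n₂ _ => ?_
      by_cases hb : ∃ b ∈ I, pass d (2 * z) n₁ = b ∧ pass d (2 * z) n₂ = b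
      · obtain ⟨b, hbI, hb1, hb2⟩ := hb
        rw [hI, mem_filter] at hbI
        rw [if_pos (meets_pass (y := 2 * z) (by linarith) (by linarith) hbI.2 hb1 hb2)]
        rw [Finset.sum_eq_single_of_mem b (by rw [hI, mem_filter]; exact hbI) (fun b' _ hb' => by
          rw [if_neg (fun h => hb' (h.symm.trans hb1)), zero_mul])]
        rw [if_pos hb1, if_pos hb2, mul_one]
      · have r2 : ∑ b ∈ I, (if pass d (2 * z) n₁ = b then (1 : ℝ) else 0) * (if pass d (2 * z) n₂ = b then (1 : ℝ) else 0) = 0 := by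
          refine sum_eq_zero fun b hbI => ?_
          by_cases h : pass d (2 * z) n₁ = b
          · rw [if_neg (fun h' => hb ⟨b, hbI, h, h'⟩), mul_zero]
          · rw [if_neg h, zero_mul]
        rw [r2]
        split_ifs <;> norm_num
    have q6 : ∑ b ∈ I, μ b ^ 2 - 2 * (1 / (64 * z)) ≤
        ∑ b ∈ I, (freq X₁ fun n => pass d (2 * z) n = b) * (freq X₂ fun n => pass d (2 * z) n = b) := by
      have r1 : ∀ b ∈ I, μ b ^ 2 - (|(freq X₁ fun n => pass d (2 * z) n = b) - μ b| + |(freq X₂ fun n => pass d (2 * z) n = b) - μ b|) ≤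
          (freq X₁ fun n => pass d (2 * z) n = b) * (freq X₂ fun n => pass d (2 * z) n = b) := by
        intro b _
        have s1 := freq_nonneg X₁ fun n => pass d (2 * z) n = b
        have s2 := freq_nonneg X₂ fun n => pass d (2 * z) n = b
        have s3 := freq_le_one g₁ fun n => pass d (2 * z) n = b
        have s4 := freq_le_one g₂ fun n => pass d (2 * z) n = b
        have s5 := (p2 b).1
        have s6 := hμ1 b
        generalize (freq X₁ fun n => pass d (2 * z) n = b) = a₁ at *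
        generalize (freq X₂ fun n => pass d (2 * z) n = b) = a₂ at *
        have s7 := neg_abs_le (a₁ - μ b)
        have s8 := neg_abs_le (a₂ - μ b)
        have s9 := abs_nonneg (a₁ - μ b)
        have s10 := abs_nonneg (a₂ - μ b)
        have s11 : a₁ * a₂ - μ b ^ 2 = (a₁ - μ b) * a₂ + μ b * (a₂ - μ b) := by ring
        have s12 : -|a₁ - μ b| ≤ (a₁ - μ b) * a₂ := by nlinarith
        have s13 : -|a₂ - μ b| ≤ μ b * (a₂ - μ b) := by nlinarith
        linarith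
      have r2 := sum_le_sum r1
      rw [sum_sub_distrib, sum_add_distrib] at r2
      linarith
    have q7 : 1 / (4 * z) = 9 / (32 * z) - 2 * (1 / (64 * z)) := by
      field_simp
      norm_num
    rw [q7]
    linarith
  refine ⟨4 * z₀, by positivity, fun z hz => ?_⟩
  obtain ⟨X₀, hX₀⟩ := main (max z z₀) (le_max_right _ _)
  refine ⟨X₀, fun X₁ X₂ h₁ h₂ => ?_⟩
  have h4 := hX₀ X₁ X₂ h₁ h₂
  have h5 : pm d (max z z₀) X₁ X₂ ≤ pm d z X₁ X₂ := by
    rw [pm_eq, pm_eq]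
    refine mn_mono _ fun n₁ _ => mn_mono _ fun n₂ _ => ?_
    by_cases h : Meets d (max z z₀) n₂ n₁
    · obtain ⟨i, j, h', h''⟩ := h
      rw [if_pos ⟨i, j, h', h''⟩, if_pos ⟨i, j, h', fun l hl => (le_max_left _ _).trans_lt (h'' l hl)⟩]
    · rw [if_neg h]
      split_ifs <;> norm_num
  have h6 : max z z₀ ≤ z₀ * z := by
    apply max_le
    · nlinarith
    · nlinarith
  refine le_trans ?_ (h4.trans h5)
  apply one_div_le_one_div_of_le (by positivity)
  nlinarith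

end Pool.Agent.Q74.MG
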