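import Mathlib
import Pool.Agent.Q74.MG.Pair
import Pool.Agent.Q74.MG.Tail2

set_option autoImplicit false

/-! # All laws together -/

namespace Pool.Agent.Q74.MG

open Finset Filter Topology
open Pool.Agent.H499R2.ND (Td G)
open Pool.Agent.Q74.PD (pass Pr cntP cntP_eq)

theorem lw_prod (X : ℕ × ℕ) (F : ℤ → ℤ → ℝ) :
    (∑ v ∈ Finset.Icc (1 : ℤ) X.1 ×ˢ Finset.Icc (1 : ℤ) X.2, F v.1 v.2) /
      (Finset.Icc (1 : ℤ) X.1 ×ˢ Finset.Icc (1 : ℤ) X.2).card = mn X.1 fun n₁ => mn X.2 fun n₂ => F n₁ n₂ := by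
  rw [card_product, card_Icc1, card_Icc1, Finset.sum_product]
  unfold mn
  rw [← sum_div, div_div]
  push_cast
  rw [mul_comm (X.2 : ℝ)]

theorem lw_nonneg {α ι : Type} (s : Finset α) (m : α → ι) (a : ι) : 0 ≤ lw s m a := by
  unfold lw
  positivity

/-- the tail of the limit law -/
theorem tail_law {d : ℤ} {l : ℤ → ℝ} (hl0 : ∀ a, 0 ≤ l a) (hl1 : Summable l) {z C : ℝ} {B : ℕ → ℝ}
    (hB : Tendsto B atTop (𝓝 0))
    (h : ∀ N : ℕ, 1 ≤ N → (Summable fun a => |lp d (N, N) a - l a|) ∧ ∑' a, |lp d (N, N) a - l a| ≤ B N)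
    (ht : ∃ X₀ : ℕ, ∀ X₁ X₂ : ℕ, X₀ ≤ X₁ → X₀ ≤ X₂ → C ≤ pr d z X₁ X₂) :
    C ≤ ∑' a : ℤ, if z < (a : ℝ) then l a else 0 := by
  classical
  obtain ⟨X₀, hX₀⟩ := ht
  have h1 : Tendsto (fun N => (∑' a : ℤ, if z < (a : ℝ) then l a else 0) + B N) atTop
      (𝓝 ((∑' a : ℤ, if z < (a : ℝ) then l a else 0) + 0)) := tendsto_const_nhds.add hB
  rw [add_zero] at h1
  refine ge_of_tendsto h1 ?_
  filter_upwards [eventually_ge_atTop (max X₀ 1)] with N hN
  have hN1 : 1 ≤ N := (le_max_right _ _).trans hN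
  refine (hX₀ N N ((le_max_left _ _).trans hN) ((le_max_left _ _).trans hN)).trans ?_
  obtain ⟨g1, g2⟩ := h N hN1
  obtain ⟨s, hs⟩ : ∃ s, s = Finset.Icc (1 : ℤ) N ×ˢ Finset.Icc (1 : ℤ) N := ⟨_, rfl⟩
  obtain ⟨S, hS⟩ : ∃ S, S = s.image fun p => merge d p.1 p.2 := ⟨_, rfl⟩
  have h2 : pr d z N N = ∑ a ∈ S, (if z < (a : ℝ) then (1 : ℝ) else 0) * lp d (N, N) a := by
    have h3 := lw_test s (fun p : ℤ × ℤ => merge d p.1 p.2) S (fun a : ℤ => if z < (a : ℝ) then (1 : ℝ) else 0)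
    have h4 : ∀ a : ℤ, lp d (N, N) a = lw s (fun p : ℤ × ℤ => merge d p.1 p.2) a := fun a => by rw [hs]; rfl
    rw [sum_congr rfl fun a _ => by rw [h4 a], ← h3]
    unfold pr
    have e1 : ((s.card : ℕ) : ℝ) = (N : ℝ) * N := by
      rw [hs, card_product, card_Icc1]
      push_cast
      rfl
    rw [e1]
    congr 1
    rw [← hs, Finset.card_filter]
    push_cast
    refine sum_congr rfl fun p hp => ?_
    rw [if_pos (show merge d p.1 p.2 ∈ S by rw [hS]; exact mem_image_of_mem _ hp)]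
  have hsum : Summable fun a : ℤ => if z < (a : ℝ) then l a else 0 := by
    refine Summable.of_nonneg_of_le (fun a => ?_) (fun a => ?_) hl1
    · split_ifs
      · exact hl0 a
      · exact le_rfl
    · split_ifs
      · exact le_rfl
      · exact hl0 a
  have h3 : ∑ a ∈ S, (if z < (a : ℝ) then (1 : ℝ) else 0) * lp d (N, N) a ≤
      ∑ a ∈ S, ((if z < (a : ℝ) then l a else 0) + |lp d (N, N) a - l a|) := by
    refine sum_le_sum fun a _ => ?_
    have h5 := le_abs_self (lp d (N, N) a - l a)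
    have h6 := abs_nonneg (lp d (N, N) a - l a)
    split_ifs <;> linarith
  rw [h2]
  refine h3.trans ?_
  rw [sum_add_distrib]
  refine add_le_add (hsum.sum_le_tsum S fun a _ => ?_) ((g1.sum_le_tsum S fun a _ => abs_nonneg _).trans g2)
  split_ifs
  · exact hl0 a
  · exact le_rfl

/-- both lower bounds -/
theorem tails {d : ℤ} (hd : d % 2 = 1) (hd3 : ¬ (3 : ℤ) ∣ d) : ∃ C : ℝ, 0 < C ∧ ∀ z : ℝ, 1 ≤ z → ∃ X₀ : ℕ,
    ∀ X₁ X₂ : ℕ, X₀ ≤ X₁ → X₀ ≤ X₂ → 1 / (C * z) ≤ pr d z X₁ X₂ ∧ 1 / (C * z) ≤ pm d z X₁ X₂ := by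
  obtain ⟨C₁, hC₁, h₁⟩ := tail hd hd3
  obtain ⟨C₂, hC₂, h₂⟩ := tail2 hd hd3
  refine ⟨C₁ + C₂, by positivity, fun z hz => ?_⟩
  obtain ⟨A₁, hA₁⟩ := h₁ z hz
  obtain ⟨A₂, hA₂⟩ := h₂ z hz
  refine ⟨max A₁ A₂, fun X₁ X₂ g₁ g₂ => ⟨?_, ?_⟩⟩
  · refine le_trans ?_ (hA₁ X₁ X₂ ((le_max_left _ _).trans g₁) ((le_max_left _ _).trans g₂))
    apply one_div_le_one_div_of_le (by positivity)
    apply mul_le_mul_of_nonneg_right _ (by linarith)
    linarith
  · refine le_trans ?_ (hA₂ X₁ X₂ ((le_max_right _ _).trans g₁) ((le_max_right _ _).trans g₂))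
    apply one_div_le_one_div_of_le (by positivity)
    apply mul_le_mul_of_nonneg_right _ (by linarith)
    linarith

/-- THE LIMIT LAWS -/
theorem laws2 : ∃ c : ℝ, 0 < c ∧ ∀ d : ℤ, d % 2 = 1 → ¬ (3 : ℤ) ∣ d → ∃ K : ℝ, 0 < K ∧
    (∀ (m : ℤ) (y : ℝ) (N : ℕ), 1 ≤ y → y ≤ N → fm d y m N ≤ K * (1 + Real.log y) ^ (-c)) ∧
    (∀ m : ℤ, ∃ l : ℤ → ℝ, (∀ a, 0 ≤ l a) ∧ HasSum l 1 ∧ ∀ X : ℕ, 1 ≤ X →
      (Summable fun a => |lw (Finset.Icc (1 : ℤ) X) (fun n => merge d n m) a - l a|) ∧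
      ∑' a, |lw (Finset.Icc (1 : ℤ) X) (fun n => merge d n m) a - l a| ≤ K * (1 + Real.log X) ^ (-c)) ∧
    (∃ l : ℤ → ℝ, (∀ a, 0 ≤ l a) ∧ HasSum l 1 ∧ (∀ (N : ℕ) (X : ℕ × ℕ), 1 ≤ N → N ≤ X.1 ∧ N ≤ X.2 →
      (Summable fun a => |lp d X a - l a|) ∧ ∑' a, |lp d X a - l a| ≤ K * (1 + Real.log N) ^ (-c)) ∧
      ∃ δ : ℤ → ℝ, (∀ a, Tendsto (fun X : ℕ => (cntP d a X : ℝ) / X) atTop (𝓝 (δ a))) ∧
        (∀ a b : ℤ, (∀ k, 1 ≤ k → (Td d)^[k] a ≠ a) → 3 * b + d = 2 * a → l a = 2 * δ (2 * a) * δ b) ∧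
        (∀ a : ℤ, (∀ k, 1 ≤ k → (Td d)^[k] a ≠ a) → (¬ ∃ b : ℤ, 3 * b + d = 2 * a) → l a = 0) ∧
        ∀ z : ℝ, 1 ≤ z → 1 / (K * z) ≤ ∑' a : ℤ, if z < (a : ℝ) then l a else 0) ∧
    (∀ z : ℝ, 1 ≤ z → ∃ X₀ : ℕ, ∀ X₁ X₂ : ℕ, X₀ ≤ X₁ → X₀ ≤ X₂ → 1 / (K * z) ≤ pm d z X₁ X₂) ∧
    ∀ k : ℕ, ∃ l : (Fin k → Fin k → ℤ) → ℝ, (∀ a, 0 ≤ l a) ∧ HasSum l 1 ∧ ∀ (N : ℕ) (X : Fin k → ℕ), 1 ≤ N →
      (∀ i, N ≤ X i) →
      (Summable fun a => |lw (Fintype.piFinset fun i => Finset.Icc (1 : ℤ) (X i)) (merges d) a - l a|) ∧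
      ∑' a, |lw (Fintype.piFinset fun i => Finset.Icc (1 : ℤ) (X i)) (merges d) a - l a| ≤
        K * k ^ 2 * (1 + Real.log N) ^ (-c) := by
  obtain ⟨c, hc, h0⟩ := one
  refine ⟨c, hc, fun d hd hd3 => ?_⟩
  obtain ⟨K, hK, h1, h2⟩ := h0 d hd hd3
  obtain ⟨C, hC, htails⟩ := tails hd hd3
  have htail : ∀ z : ℝ, 1 ≤ z → ∃ X₀ : ℕ, ∀ X₁ X₂ : ℕ, X₀ ≤ X₁ → X₀ ≤ X₂ → 1 / (C * z) ≤ pr d z X₁ X₂ := fun z hz => by
    obtain ⟨X₀, hX₀⟩ := htails z hz
    exact ⟨X₀, fun X₁ X₂ h₁ h₂ => (hX₀ X₁ X₂ h₁ h₂).1⟩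
  have hodd : Odd d := Int.odd_iff.2 hd
  have hcop : IsCoprime d 3 := by
    rw [isCoprime_comm]
    exact (Int.prime_three.coprime_iff_not_dvd).2 hd3
  have hcard : ∀ X : ℕ, (Finset.Icc (1 : ℤ) X).card = X := card_Icc1
  obtain ⟨M, hM⟩ : ∃ M, M = 4 * K + C := ⟨_, rfl⟩
  have hM0 : 0 < M := by rw [hM]; positivity
  have hq : ∀ t : ℝ, 1 ≤ t → 0 ≤ (1 + Real.log t) ^ (-c) := fun t ht => by
    have := Real.log_nonneg ht
    positivity
  refine ⟨M, hM0, fun m y N hy hyN => ?_, fun m => ?_, ?_, fun z hz => ?_, fun k => ?_⟩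
  · exact (h1 m y N hy hyN).trans (mul_le_mul_of_nonneg_right (by rw [hM]; linarith) (hq y hy))
  · obtain ⟨l, hl0, hl1, hl⟩ := lim_law (ι := ℤ) (J := ℕ) (fun X N => N ≤ X) id (fun N M h => h)
      (fun X a => lw (Finset.Icc (1 : ℤ) X) (fun n => merge d n m) a)
      (fun N => M * (1 + Real.log N) ^ (-c)) (B_tendsto hc _)
      (fun X hX => lw_fin _ (by rw [hcard]; omega))
      (fun S N X X' hN hX hX' => by
        refine lw_tv _ _ _ _ (fun Φ hΦ => ?_) S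
        have g1 := h2 1 (fun _ => m) (fun n => Φ (merge d n m)) (fun n => hΦ _)
          (fun y n hp hm => by rw [merge_left hp (hm 0)]) N X X' hN hX hX'
        unfold mn at g1
        rw [hcard, hcard]
        refine g1.trans (mul_le_mul_of_nonneg_right ?_ (hq N (by exact_mod_cast hN)))
        push_cast
        rw [hM]
        linarith)
    exact ⟨l, hl0, hl1, fun X hX => hl X X hX le_rfl⟩
  · obtain ⟨l, hl0, hl1, hl⟩ := lim_law (ι := ℤ) (J := ℕ × ℕ) (fun X N => N ≤ X.1 ∧ N ≤ X.2)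
      (fun N => (N, N)) (fun N M h => ⟨h, h⟩)
      (fun X a => lp d X a)
      (fun N => M * (1 + Real.log N) ^ (-c)) (B_tendsto hc _)
      (fun X hX => lw_fin _ (by
        rw [card_product, hcard, hcard]
        exact Nat.mul_pos hX.1 hX.2))
      (fun S N X X' hN hX hX' => by
        refine lw_tv _ _ _ _ (fun Φ hΦ => ?_) S
        have e1 := lw_prod X fun n₁ n₂ => Φ (merge d n₁ n₂)
        have e2 := lw_prod X' fun n₁ n₂ => Φ (merge d n₁ n₂)
        have hN1 : (1 : ℝ) ≤ N := by exact_mod_cast hN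
        have g1 : |(mn X.1 fun n₁ => mn X.2 fun n₂ => Φ (merge d n₁ n₂)) -
            mn X.1 fun n₁ => mn X'.2 fun n₂ => Φ (merge d n₁ n₂)| ≤ 2 * K * (1 + Real.log N) ^ (-c) := by
          rw [mn_sub]
          refine abs_mn_le (hN.trans hX.1) fun n _ => ?_
          have := h2 1 (fun _ => n) (fun n₂ => Φ (merge d n n₂)) (fun n => hΦ _)
            (fun y n' hp hm => by rw [merge_right hp (hm 0)]) N X.2 X'.2 hN hX.2 hX'.2
          refine this.trans (le_of_eq ?_)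
          push_cast
          ring
        have g2 : |(mn X.1 fun n₁ => mn X'.2 fun n₂ => Φ (merge d n₁ n₂)) -
            mn X'.1 fun n₁ => mn X'.2 fun n₂ => Φ (merge d n₁ n₂)| ≤ 2 * K * (1 + Real.log N) ^ (-c) := by
          rw [mn_comm X.1, mn_comm X'.1, mn_sub]
          refine abs_mn_le (hN.trans hX'.2) fun n _ => ?_
          have := h2 1 (fun _ => n) (fun n₁ => Φ (merge d n₁ n)) (fun n => hΦ _)
            (fun y n' hp hm => by rw [merge_left hp (hm 0)]) N X.1 X'.1 hN hX.1 hX'.1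
          refine this.trans (le_of_eq ?_)
          push_cast
          ring
        have g3 := (abs_sub_le _ _ _).trans (add_le_add g1 g2)
        rw [← e1, ← e2] at g3
        refine g3.trans ?_
        have := mul_nonneg hC.le (hq N hN1)
        rw [hM]
        linarith)
    choose δ hδ using dens_all hodd hcop
    have hlim : ∀ a : ℤ, Tendsto (fun X : ℕ => lp d (X, X) a) atTop (𝓝 (l a)) := by
      intro a
      rw [tendsto_iff_norm_sub_tendsto_zero]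
      refine squeeze_zero' (Eventually.of_forall fun X => norm_nonneg _) ?_ (B_tendsto hc M)
      filter_upwards [eventually_ge_atTop 1] with X hX
      obtain ⟨g1, g2⟩ := hl X (X, X) hX ⟨le_rfl, le_rfl⟩
      rw [Real.norm_eq_abs]
      exact (g1.le_tsum a fun b _ => abs_nonneg _).trans g2
    refine ⟨l, hl0, hl1, hl, δ, hδ, fun a b hper hb => ?_, fun a hper hb => ?_, fun z hz => ?_⟩
    · exact tendsto_nhds_unique (hlim a) (lp_limit hd hper hb (hδ _) (hδ _))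
    · exact tendsto_nhds_unique (hlim a) (lp_limit_zero hd hper hb)
    · refine le_trans ?_ (tail_law hl0 hl1.summable (B_tendsto hc M) (fun N hN => hl N (N, N) hN ⟨le_rfl, le_rfl⟩)
        (htail z hz))
      apply one_div_le_one_div_of_le (by positivity)
      apply mul_le_mul_of_nonneg_right _ (by linarith)
      rw [hM]
      linarith
  · obtain ⟨X₀, hX₀⟩ := htails z hz
    refine ⟨X₀, fun X₁ X₂ h₁ h₂ => le_trans ?_ (hX₀ X₁ X₂ h₁ h₂).2⟩
    apply one_div_le_one_div_of_le (by positivity)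
    apply mul_le_mul_of_nonneg_right _ (by linarith)
    rw [hM]
    linarith
  · have hcard2 : ∀ X : Fin k → ℕ, ((Fintype.piFinset fun i => Finset.Icc (1 : ℤ) (X i)).card : ℝ) = ∏ i, (X i : ℝ) := by
      intro X
      rw [Fintype.card_piFinset]
      push_cast
      exact prod_congr rfl fun i _ => by rw [hcard]
    obtain ⟨l, hl0, hl1, hl⟩ := lim_law (ι := Fin k → Fin k → ℤ) (J := Fin k → ℕ) (fun X N => ∀ i, N ≤ X i)
      (fun N _ => N) (fun N M h _ => h)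
      (fun X a => lw (Fintype.piFinset fun i => Finset.Icc (1 : ℤ) (X i)) (merges d) a)
      (fun N => M * k ^ 2 * (1 + Real.log N) ^ (-c)) (B_tendsto hc _)
      (fun X hX => lw_fin _ (by
        rw [Fintype.card_piFinset]
        exact prod_pos fun i _ => by rw [hcard]; exact hX i))
      (fun S N X X' hN hX hX' => by
        refine lw_tv _ _ _ _ (fun Φ hΦ => ?_) S
        have g1 := av_lip hN k (fun v => Φ (merges d v)) (ε := K * (k + 1) * (1 + Real.log N) ^ (-c))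
          (fun i v Z Z' hZ hZ' => h2 k v (fun n => Φ (merges d (Function.update v i n))) (fun n => hΦ _)
            (fun y n hp hm => by rw [merges_inv v i y n hp hm]) N Z Z' hN hZ hZ') X X' hX hX'
        rw [av_eq, av_eq] at g1
        rw [hcard2, hcard2]
        refine g1.trans ?_
        have hN1 : (1 : ℝ) ≤ N := by exact_mod_cast hN
        have hk : (k : ℝ) * (k + 1) ≤ 2 * k ^ 2 := by
          rcases Nat.eq_zero_or_pos k with hk | hk
          · rw [hk]; norm_num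
          · have : (1 : ℝ) ≤ k := by exact_mod_cast hk
            nlinarith
        have h5 : 0 ≤ K * (1 + Real.log N) ^ (-c) := mul_nonneg hK.le (hq N hN1)
        have h6 : 0 ≤ C * k ^ 2 * (1 + Real.log N) ^ (-c) := mul_nonneg (by positivity) (hq N hN1)
        have h7 : 0 ≤ K * (1 + Real.log N) ^ (-c) * k ^ 2 := by positivity
        have h8 := mul_le_mul_of_nonneg_left hk h5
        rw [hM]
        calc (k : ℝ) * (K * (k + 1) * (1 + Real.log N) ^ (-c)) = K * (1 + Real.log N) ^ (-c) * (k * (k + 1)) := by ring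
          _ ≤ K * (1 + Real.log N) ^ (-c) * (2 * k ^ 2) := h8
          _ ≤ 4 * (K * (1 + Real.log N) ^ (-c) * k ^ 2) + C * k ^ 2 * (1 + Real.log N) ^ (-c) := by linarith
          _ = (4 * K + C) * k ^ 2 * (1 + Real.log N) ^ (-c) := by ring)
    exact ⟨l, hl0, hl1, fun N X hN hX => hl N X hN hX⟩

end Pool.Agent.Q74.MG
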