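import Mathlib
import Pool.Agent.Q74.MG.Fin2
import Pool.Agent.W38.UPDb

set_option autoImplicit false

/-! # `d = 1`: two random trajectories merge with probability one iff all trajectories reach `1` -/

namespace Pool.Agent.Q74.MG

open Finset Filter Topology
open Pool.Agent.H499R2.ND (Td G)
open Pool.Agent.Q74.PD (pass Pr cntP cntP_eq)

theorem lim_of {L : ℕ → ℤ → ℝ} {l : ℤ → ℝ} {B : ℕ → ℝ} (hB : Tendsto B atTop (𝓝 0))
    (h : ∀ N : ℕ, 1 ≤ N → (Summable fun a => |L N a - l a|) ∧ ∑' a, |L N a - l a| ≤ B N) (a : ℤ) :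
    Tendsto (fun N => L N a) atTop (𝓝 (l a)) := by
  rw [tendsto_iff_norm_sub_tendsto_zero]
  refine squeeze_zero' (Eventually.of_forall fun X => norm_nonneg _) ?_ hB
  filter_upwards [eventually_ge_atTop 1] with X hX
  obtain ⟨g1, g2⟩ := h X hX
  rw [Real.norm_eq_abs]
  exact (g1.le_tsum a fun b _ => abs_nonneg _).trans g2

theorem Td1_pos {n : ℤ} (hn : 1 ≤ n) : 1 ≤ Td 1 n := by
  unfold Pool.Agent.H499R2.ND.Td
  split_ifs <;> omega

theorem Td1_iter_pos {n : ℤ} (hn : 1 ≤ n) (k : ℕ) : 1 ≤ (Td 1)^[k] n := by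
  induction k with
  | zero => exact hn
  | succ k ih =>
    rw [Function.iterate_succ_apply']
    exact Td1_pos ih

/-- reaching `1` -/
theorem reach_iff (k : ℕ) (n : ℤ) : (∃ i : ℕ, (Td 1)^[i] n = 1) ↔ ∃ i : ℕ, (Td 1)^[i] ((Td 1)^[k] n) = 1 := by
  have h : ∀ n : ℤ, (∃ i : ℕ, (Td 1)^[i] n = 1) ↔ ∃ i : ℕ, (Td 1)^[i] (Td 1 n) = 1 := by
    intro n
    constructor
    · rintro ⟨i, hi⟩
      cases i with
      | zero =>
        refine ⟨1, ?_⟩
        have : n = 1 := hi
        rw [this]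
        decide
      | succ i => exact ⟨i, by rwa [Function.iterate_succ_apply] at hi⟩
    · rintro ⟨i, hi⟩
      exact ⟨i + 1, by rwa [Function.iterate_succ_apply]⟩
  induction k with
  | zero => rfl
  | succ k ih =>
    rw [Function.iterate_succ_apply']
    exact Iff.trans ih (h _)

/-- a term prime to `3` -/
theorem exists_prime_three {n : ℤ} (hn : 1 ≤ n) : ∃ k : ℕ, ¬ (3 : ℤ) ∣ (Td 1)^[k] n := by
  by_contra hc
  push Not at hc
  have h1 : ∀ k : ℕ, (Td 1)^[k] n % 2 = 0 := by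
    intro k
    by_contra hodd
    have h2 := hc (k + 1)
    rw [Function.iterate_succ_apply'] at h2
    have h3 := hc k
    generalize (Td 1)^[k] n = x at *
    unfold Pool.Agent.H499R2.ND.Td at h2
    rw [if_neg hodd] at h2
    omega
  have h2 : ∀ k : ℕ, 2 ^ k * (Td 1)^[k] n = n := by
    intro k
    induction k with
    | zero => simp
    | succ k ih =>
      rw [Function.iterate_succ_apply']
      have h3 := h1 k
      generalize (Td 1)^[k] n = x at *
      have h4 : 2 * Td 1 x = x := by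
        unfold Pool.Agent.H499R2.ND.Td
        rw [if_pos h3]
        omega
      rw [pow_succ, mul_assoc, h4, ih]
  have h3 := h2 n.toNat
  have h4 := Td1_iter_pos hn n.toNat
  have h5 : (n.toNat : ℤ) < 2 ^ n.toNat := by exact_mod_cast Nat.lt_two_pow_self
  have h6 : ((n.toNat : ℕ) : ℤ) = n := Int.toNat_of_nonneg (by omega)
  nlinarith

theorem zero_iff {l : ℤ → ℝ} (hl : Tendsto (fun X : ℕ => lp 1 (X, X) 0) atTop (𝓝 (l 0))) :
    l 0 = 0 ↔ ∀ n : ℤ, 1 ≤ n → ∃ k : ℕ, (Td 1)^[k] n = 1 := by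
  classical
  constructor
  · intro h0 n₀ hn₀
    by_contra hno
    obtain ⟨k₀, hk₀⟩ := exists_prime_three hn₀
    obtain ⟨a, ha⟩ : ∃ a, a = (Td 1)^[k₀] n₀ := ⟨_, rfl⟩
    rw [← ha] at hk₀
    have ha1 : 1 ≤ a := by rw [ha]; exact Td1_iter_pos hn₀ _
    have hano : ¬ ∃ i : ℕ, (Td 1)^[i] a = 1 := by
      rw [ha, ← reach_iff]
      exact hno
    obtain ⟨c, C, hc, -, hU⟩ := Pool.Agent.W38.UPD.main
    have haR : (1 : ℝ) ≤ a := by exact_mod_cast ha1
    have key : ∀ N : ℕ, (a : ℝ) ≤ N → 1 ≤ N → c * (c / a) ≤ lp 1 (N, N) 0 := by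
      intro N haN hN
      have hN1 : (1 : ℝ) ≤ N := by exact_mod_cast hN
      obtain ⟨S, hS, hSc⟩ := hU 1 (by norm_num) (by norm_num) N (by simpa using hN1)
      obtain ⟨S', hS', hSc'⟩ := hU a (by omega) hk₀ N haN
      have h1 : S ×ˢ S' ⊆ ((Finset.Icc (1 : ℤ) N ×ˢ Finset.Icc (1 : ℤ) N).filter fun p => merge 1 p.1 p.2 = 0) := by
        rintro ⟨n₁, n₂⟩ hp
        rw [mem_product] at hp
        obtain ⟨p1, p2, i, -, p3⟩ := hS n₁ hp.1
        obtain ⟨q1, q2, j, -, q3⟩ := hS' n₂ hp.2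
        have e1 : (0 : ℤ) < n₁ := by
          have : (0 : ℝ) < n₁ := by linarith
          exact_mod_cast this
        have e2 : (0 : ℤ) < n₂ := by
          have : (0 : ℝ) < n₂ := by linarith
          exact_mod_cast this
        have e3 : n₁ ≤ N := by exact_mod_cast p2
        have e4 : n₂ ≤ N := by exact_mod_cast q2
        rw [mem_filter, mem_product, Finset.mem_Icc, Finset.mem_Icc]
        refine ⟨⟨⟨by omega, e3⟩, by omega, e4⟩, merge_zero ?_⟩
        rintro ⟨i', j', hij⟩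
        apply hano
        have f1 : ∃ i : ℕ, (Td 1)^[i] n₁ = 1 := ⟨i, p3⟩
        have f2 : ∃ i : ℕ, (Td 1)^[i] n₂ = 1 := by
          rw [reach_iff j', ← hij, ← reach_iff]
          exact f1
        rw [reach_iff j] at f2
        have q3' : (Td 1)^[j] n₂ = a := q3
        rwa [q3'] at f2
      have h2 := card_le_card h1
      rw [card_product] at h2
      unfold lp lw
      rw [card_product, card_Icc1]
      rw [le_div_iff₀ (by push_cast; positivity)]
      have h3 : (S.card : ℝ) * S'.card ≤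
        ((((Finset.Icc (1 : ℤ) N ×ˢ Finset.Icc (1 : ℤ) N).filter fun p => merge 1 p.1 p.2 = 0).card : ℕ) : ℝ) := by
        exact_mod_cast h2
      have h4 : c * (c / a) * ((N * N : ℕ) : ℝ) ≤ (S.card : ℝ) * S'.card := by
        have g1 : c * N / (1 : ℤ) ≤ S.card := hSc
        have g2 : c * N / a ≤ S'.card := hSc'
        have g3 : 0 ≤ c * N / a := by positivity
        push_cast at g1 ⊢
        rw [div_one] at g1
        calc c * (c / a) * (N * N) = (c * N) * (c * N / a) := by ring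
          _ ≤ _ := mul_le_mul g1 g2 g3 (by positivity)
      refine h4.trans (h3.trans (le_of_eq ?_))
      congr!
    have h5 : c * (c / a) ≤ l 0 := by
      refine ge_of_tendsto hl ?_
      filter_upwards [eventually_ge_atTop (max a.toNat 1)] with N hN
      have h6 : a.toNat ≤ N := (le_max_left _ _).trans hN
      refine key N ?_ ((le_max_right _ _).trans hN)
      have h7 : ((a.toNat : ℕ) : ℤ) = a := Int.toNat_of_nonneg (by omega)
      have h8 : ((a.toNat : ℕ) : ℝ) ≤ N := by exact_mod_cast h6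
      have h9 : ((a.toNat : ℕ) : ℝ) = a := by exact_mod_cast h7
      rwa [h9] at h8
    have h6 : 0 < c * (c / a) := by positivity
    rw [h0] at h5
    linarith
  · intro h
    refine tendsto_nhds_unique hl ?_
    have h1 : ∀ X : ℕ, lp 1 (X, X) 0 = 0 := by
      intro X
      unfold lp lw
      have h2 : ((Finset.Icc (1 : ℤ) X ×ˢ Finset.Icc (1 : ℤ) X).filter fun p => merge 1 p.1 p.2 = 0) = ∅ := by
        rw [filter_eq_empty_iff]
        rintro ⟨n₁, n₂⟩ hp
        rw [mem_product, Finset.mem_Icc, Finset.mem_Icc] at hp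
        obtain ⟨i, hi⟩ := h n₁ hp.1.1
        obtain ⟨j, hj⟩ := h n₂ hp.2.1
        have hex : ∃ i j : ℕ, (Td 1)^[i] n₁ = (Td 1)^[j] n₂ := ⟨i, j, by rw [hi, hj]⟩
        intro h3
        unfold merge at h3
        rw [dif_pos hex] at h3
        have h4 := Td1_iter_pos hp.1.1 (Nat.find hex)
        have h5 : (Td 1)^[Nat.find hex] n₁ = 0 := h3
        omega
      have h3 : (((Finset.Icc (1 : ℤ) X ×ˢ Finset.Icc (1 : ℤ) X).filter fun p => merge 1 p.1 p.2 = 0).card : ℝ) = 0 := by
        rw [h2]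
        simp
      rw [div_eq_zero_iff]
      left
      rw [← h3]
      congr!
    exact (tendsto_const_nhds (x := (0 : ℝ))).congr fun X => (h1 X).symm

end Pool.Agent.Q74.MG
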