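import Mathlib
import Pool.Agent.H828R3.GP.Three

set_option autoImplicit false

/-!
# Hitting a sparse forward invariant set above `y`: power saving

The proof follows `Pool.Agent.H828R3.GP` (starting library; the set of the integers whose trajectory stays above `y`),
with a sparse forward invariant set added to the exceptional sets at all levels.
-/

namespace Pool.Agent.Q74.MG.Pow

open Finset
open Pool.Agent.H319R3.GC Pool.Agent.H828R3.GP

variable {d : ℕ} {m r : ℕ → ℤ}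

/-- the trajectory of `x` hits `O` through terms of absolute value `> y` only -/
def Ht (d : ℕ) (m r : ℕ → ℤ) (O : Set ℤ) (y : ℝ) : Set ℤ :=
  {x : ℤ | ∃ i : ℕ, (Tm d m r)^[i] x ∈ O ∧ ∀ j < i, y < |(((Tm d m r)^[j] x : ℤ) : ℝ)|}

open Classical in
/-- the elements of `O` of level `i` -/
noncomputable def Lv (d : ℕ) (O : Set ℤ) (i : ℕ) : Finset ℤ :=
  (Icc (-(d : ℤ) ^ i) ((d : ℤ) ^ i)).filter (fun y => (d : ℝ) ^ (i - 1) ≤ |(y : ℝ)| ∧ |(y : ℝ)| < (d : ℝ) ^ i ∧ y ∈ O)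

theorem Ht_inv {O : Set ℤ} (hO : ∀ x ∈ O, Tm d m r x ∈ O) (y : ℝ) : ∀ x ∈ Ht d m r O y, Tm d m r x ∈ Ht d m r O y := by
  rintro x ⟨i, h1, h2⟩
  cases i with
  | zero => exact ⟨0, hO x h1, fun j hj => absurd hj (Nat.not_lt_zero _)⟩
  | succ i =>
    refine ⟨i, by rwa [Function.iterate_succ_apply] at h1, fun j hj => ?_⟩
    have := h2 (j + 1) (by omega)
    rwa [Function.iterate_succ_apply] at this

theorem iter_mem {O : Set ℤ} (hO : ∀ x ∈ O, Tm d m r x ∈ O) (n : ℕ) {x : ℤ} (hx : x ∈ O) : (Tm d m r)^[n] x ∈ O := by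
  induction n with
  | zero => exact hx
  | succ n ih =>
    rw [Function.iterate_succ_apply']
    exact hO _ ih

theorem abs_Tm_ge (h : Adm d m r) {R : ℝ} (hR : ∀ i < d, |(r i : ℝ)| ≤ R) (z : ℤ) :
    |(z : ℝ)| - R ≤ d * |((Tm d m r z : ℤ) : ℝ)| := by
  have h1 := Tm_eq h z
  obtain ⟨-, h2⟩ := toNat_mod h.two_le z
  have h3 : (d : ℝ) * ((Tm d m r z : ℤ) : ℝ) = (m (z % d).toNat : ℝ) * z - (r (z % d).toNat : ℝ) := by exact_mod_cast h1
  have h4 := m_abs h h2
  have h5 := hR _ h2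
  have h6 : (d : ℝ) * |((Tm d m r z : ℤ) : ℝ)| = |(m (z % d).toNat : ℝ) * z - (r (z % d).toNat : ℝ)| := by
    rw [← h3, abs_mul, abs_of_nonneg (Nat.cast_nonneg d : (0 : ℝ) ≤ d)]
  rw [h6]
  have h7 := abs_sub_abs_le_abs_sub ((m (z % d).toNat : ℝ) * z) (r (z % d).toNat : ℝ)
  rw [abs_mul] at h7
  have h8 : |(z : ℝ)| ≤ |(m (z % d).toNat : ℝ)| * |(z : ℝ)| := le_mul_of_one_le_left (abs_nonneg _) h4
  linarith

/-- THE POINTS OF A CLASS THAT HIT `O` ABOVE `d^(l+2)` -/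
theorem card_hit (h : Adm d m r) {R : ℝ} (hR : ∀ i < d, |(r i : ℝ)| ≤ R) (hR0 : 0 ≤ R) {s K A : ℝ}
    (hs : 0 ≤ s) (hK1 : 1 ≤ K) (hK : ∑ j ∈ range d, (|(m j : ℝ)| / d) ^ s ≤ K) (hKd : K < d)
    {O : Set ℤ} (hO : ∀ x ∈ O, Tm d m r x ∈ O) (hA : 0 ≤ A) (hOc : ∀ i, ((Lv d O i).card : ℝ) ≤ A * K ^ i)
    {k l q : ℕ} (hq : 0 < q) (c : ℤ) (hk1 : 1 ≤ k) (hlk : l + 2 ≤ k)
    (hl : 4 * (k * k) * R ≤ (d : ℝ) ^ l) (S : Finset ℤ)
    (hS : ∀ x ∈ S, |(x : ℝ)| < (d : ℝ) ^ k ∧ (q : ℤ) ∣ x - c ∧ (d : ℝ) ^ (l + 1) ≤ |(x : ℝ)| ∧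
      ∃ i : ℕ, (Tm d m r)^[i] x ∈ O ∧ ∀ j < i, (d : ℝ) ^ (l + 2) ≤ |(((Tm d m r)^[j] x : ℤ) : ℝ)|) :
    (S.card : ℝ) ≤ k * ((3 * (2 * d) ^ s + A) * ((k * k + 1) ^ (d + 1) *
      (8 * (k * k) * R * d * ((d : ℝ) ^ k * (K / d) ^ l) / q + (d : ℝ) ^ k * (K / d) ^ k))) := by
  classical
  have hqR : (0 : ℝ) < q := by exact_mod_cast hq
  have hd1 : (1 : ℝ) ≤ d := by exact_mod_cast (by have := h.two_le; omega : 1 ≤ d)
  have hd2 : (2 : ℝ) ≤ d := by exact_mod_cast h.two_le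
  have hd0 : (0 : ℝ) < d := by linarith
  have hkR : (1 : ℝ) ≤ k := by exact_mod_cast hk1
  have hK0 : 0 < K := by linarith
  have hκ1 : K / d ≤ 1 := by rw [div_le_one hd0]; exact hKd.le
  have hκ0 : 0 ≤ K / d := by positivity
  have hsum0 : 0 ≤ ∑ j ∈ range d, (|(m j : ℝ)| / d) ^ s := sum_nonneg fun j _ => by positivity
  have hRl : R ≤ (d : ℝ) ^ l := by
    refine le_trans ?_ hl
    have : (1 : ℝ) ≤ 4 * (k * k) := by nlinarith
    nlinarith
  have hdl : 0 < (d : ℝ) ^ l := by positivity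
  have hsub : S ⊆ (Ioc l k).biUnion (fun i => Pa d m r k i (k * k) q c (St d m r i ∪ Lv d O i)) := by
    intro x hx
    obtain ⟨h1, h2, h3, i₀, h4, h5⟩ := hS x hx
    by_contra hcon
    simp only [mem_biUnion, mem_Ioc, not_exists, not_and] at hcon
    have hbad : ∀ i, l < i → i ≤ k → ∀ n ≤ k * k, FP d m r i n x → (Tm d m r)^[n] x ∉ St d m r i ∪ Lv d O i := by
      intro i hi hik n hn hfp hst
      apply hcon i ⟨hi, hik⟩
      unfold Pa
      rw [mem_filter]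
      exact ⟨mem_Icc_of_abs h1, h1, h2, n, hn, hfp, hst⟩
    obtain ⟨n, hn', hfp⟩ := descend h hR hR0 (k := k) (l := l) (by
      refine le_trans ?_ hl
      apply mul_le_mul_of_nonneg_right _ hR0
      nlinarith) h1 (by
      intro i hi hik n hn hfp hst
      exact hbad i hi hik n hn hfp (mem_union_left _ hst)) (k - (l + 2)) (by omega)
    have e : k - (k - (l + 2)) = l + 2 := by omega
    rw [e] at hfp
    have hn : n ≤ k * k := hn'.trans (Nat.mul_le_mul_right _ (Nat.sub_le _ _))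
    have hin : i₀ ≤ n := by
      by_contra hc
      rw [not_le] at hc
      exact absurd (h5 n hc) (not_le.2 hfp.2)
    have hp : (Tm d m r)^[n] x ∈ O := by
      have := iter_mem hO (n - i₀) h4
      rwa [← Function.iterate_add_apply, Nat.sub_add_cancel hin] at this
    have hpl : (d : ℝ) ^ l ≤ |(((Tm d m r)^[n] x : ℤ) : ℝ)| := by
      cases n with
      | zero =>
        refine le_trans ?_ h3
        exact pow_le_pow_right₀ hd1 (by omega)
      | succ n =>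
        have g1 := hfp.1 n (by omega)
        have g2 := abs_Tm_ge h hR ((Tm d m r)^[n] x)
        rw [← Function.iterate_succ_apply' (Tm d m r)] at g2
        have g3 : (d : ℝ) ^ (l + 2) = d * (d * (d : ℝ) ^ l) := by ring
        rw [g3] at g1
        have g4 : (d : ℝ) * (d : ℝ) ^ l ≤ d * |(((Tm d m r)^[n + 1] x : ℤ) : ℝ)| := by
          refine le_trans ?_ g2
          have g5 : 2 * (d * (d : ℝ) ^ l) ≤ d * (d * (d : ℝ) ^ l) := mul_le_mul_of_nonneg_right hd2 (by positivity)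
          have g6 : (d : ℝ) ^ l ≤ d * (d : ℝ) ^ l := le_mul_of_one_le_left hdl.le hd1
          linarith
        exact le_of_mul_le_mul_left g4 hd0
    rcases le_or_gt ((d : ℝ) ^ (l + 1)) |(((Tm d m r)^[n] x : ℤ) : ℝ)| with hc | hc
    · refine hbad (l + 2) (by omega) hlk n hn hfp (mem_union_right _ ?_)
      unfold Lv
      rw [mem_filter]
      exact ⟨mem_Icc_of_abs hfp.2, hc, hfp.2, hp⟩
    · refine hbad (l + 1) (by omega) (by omega) n hn ⟨fun j hj => ?_, hc⟩ (mem_union_right _ ?_)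
      · exact (pow_le_pow_right₀ hd1 (by omega)).trans (hfp.1 j hj)
      · unfold Lv
        rw [mem_filter]
        exact ⟨mem_Icc_of_abs hc, hpl, hc, hp⟩
  have h1 : (S.card : ℝ) ≤ ∑ i ∈ Ioc l k, ((Pa d m r k i (k * k) q c (St d m r i ∪ Lv d O i)).card : ℝ) := by
    exact_mod_cast (card_le_card hsub).trans card_biUnion_le
  set W : ℝ := (3 * (2 * d) ^ s + A) * ((k * k + 1) ^ (d + 1) *
      (8 * (k * k) * R * d * ((d : ℝ) ^ k * (K / d) ^ l) / q + (d : ℝ) ^ k * (K / d) ^ k)) with hW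
  have hW0 : 0 ≤ W := by positivity
  have h2 : ∀ i ∈ Ioc l k, ((Pa d m r k i (k * k) q c (St d m r i ∪ Lv d O i)).card : ℝ) ≤ W := by
    intro i hi
    rw [mem_Ioc] at hi
    have a1 := card_Pa h hR hR0 (k := k) (i := i) (N := k * k) (q := q) (by omega) hi.2 (by
      push_cast
      exact hl.trans (pow_le_pow_right₀ hd1 hi.1.le)) hq c (St d m r i ∪ Lv d O i) (by
      intro y hy
      rw [mem_union] at hy
      rcases hy with hy | hy
      · unfold St at hy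
        rw [mem_filter] at hy
        exact hy.2.1
      · unfold Lv at hy
        rw [mem_filter] at hy
        exact hy.2.1)
    have a2 := card_St h hs i
    have a3 : (∑ j ∈ range d, (|(m j : ℝ)| / d) ^ s) ^ i ≤ K ^ i := pow_le_pow_left₀ hsum0 hK i
    refine a1.trans ?_
    push_cast
    have a4 : K ^ i ≤ K ^ k := pow_le_pow_right₀ hK1 hi.2
    have a5 : K ^ i * (d : ℝ) ^ (k - i + 1) ≤ d * ((d : ℝ) ^ k * (K / d) ^ l) := by
      have e1 : K ^ i = (d : ℝ) ^ i * (K / d) ^ i := by rw [← mul_pow]; congr 1; field_simp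
      have e2 : (K / d) ^ i ≤ (K / d) ^ l := pow_le_pow_of_le_one hκ0 hκ1 hi.1.le
      have e3 : (d : ℝ) ^ i * (d : ℝ) ^ (k - i + 1) = d * (d : ℝ) ^ k := by
        rw [← pow_add, ← pow_succ']; congr 1; omega
      calc K ^ i * (d : ℝ) ^ (k - i + 1) = ((d : ℝ) ^ i * (d : ℝ) ^ (k - i + 1)) * (K / d) ^ i := by
            rw [e1]; ring
        _ ≤ ((d : ℝ) ^ i * (d : ℝ) ^ (k - i + 1)) * (K / d) ^ l :=
            mul_le_mul_of_nonneg_left e2 (by positivity)
        _ = _ := by rw [e3]; ring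
    have a6 : K ^ k = (d : ℝ) ^ k * (K / d) ^ k := by rw [← mul_pow]; congr 1; field_simp
    have a7 : ((St d m r i ∪ Lv d O i).card : ℝ) * (8 * ((k : ℝ) * k) * R * (d : ℝ) ^ (k - i + 1) / q + 1) ≤
        (3 * (2 * d) ^ s + A) * (8 * (k * k) * R * d * ((d : ℝ) ^ k * (K / d) ^ l) / q +
          (d : ℝ) ^ k * (K / d) ^ k) := by
      have b1 : ((St d m r i ∪ Lv d O i).card : ℝ) ≤ (3 * (2 * d) ^ s + A) * K ^ i := by
        have b2 : ((St d m r i).card : ℝ) ≤ 3 * (2 * d) ^ s * K ^ i :=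
          a2.trans (mul_le_mul_of_nonneg_left a3 (by positivity))
        have b3 : ((St d m r i ∪ Lv d O i).card : ℝ) ≤ (St d m r i).card + (Lv d O i).card := by
          exact_mod_cast card_union_le _ _
        have b4 := hOc i
        rw [add_mul]
        linarith
      refine (mul_le_mul_of_nonneg_right b1 (by positivity)).trans ?_
      rw [mul_assoc (3 * (2 * (d : ℝ)) ^ s + A)]
      apply mul_le_mul_of_nonneg_left _ (by positivity)
      rw [mul_add, mul_one]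
      apply add_le_add
      · calc K ^ i * (8 * ((k : ℝ) * k) * R * (d : ℝ) ^ (k - i + 1) / q)
            = 8 * ((k : ℝ) * k) * R * (K ^ i * (d : ℝ) ^ (k - i + 1)) / q := by ring
          _ ≤ 8 * ((k : ℝ) * k) * R * (d * ((d : ℝ) ^ k * (K / d) ^ l)) / q := by
              apply div_le_div_of_nonneg_right _ hqR.le
              exact mul_le_mul_of_nonneg_left a5 (by positivity)
          _ = _ := by ring
      · rw [← a6]; exact a4
    calc ((St d m r i ∪ Lv d O i).card : ℝ) * ((k * k + 1) * ((k * k + 1) ^ d *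
          (8 * (k * k) * R * (d : ℝ) ^ (k - i + 1) / q + 1)))
        = (k * k + 1) ^ (d + 1) * ((St d m r i ∪ Lv d O i).card *
          (8 * ((k : ℝ) * k) * R * (d : ℝ) ^ (k - i + 1) / q + 1)) := by ring
      _ ≤ (k * k + 1) ^ (d + 1) * ((3 * (2 * d) ^ s + A) *
          (8 * (k * k) * R * d * ((d : ℝ) ^ k * (K / d) ^ l) / q + (d : ℝ) ^ k * (K / d) ^ k)) :=
          mul_le_mul_of_nonneg_left a7 (by positivity)
      _ = W := by rw [hW]; ring
  calc (S.card : ℝ) ≤ ∑ i ∈ Ioc l k, ((Pa d m r k i (k * k) q c (St d m r i ∪ Lv d O i)).card : ℝ) := h1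
    _ ≤ (Ioc l k).card • W := sum_le_card_nsmul _ _ _ h2
    _ = ((k - l : ℕ) : ℝ) * W := by rw [Nat.card_Ioc, nsmul_eq_mul]
    _ ≤ k * W := by
        apply mul_le_mul_of_nonneg_right _ hW0
        exact_mod_cast Nat.sub_le _ _

end Pool.Agent.Q74.MG.Pow
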