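import Mathlib
import Pool.Agent.Q74.MG.Pow2
import Pool.Agent.Q74.MG.Rare2

set_option autoImplicit false

/-! # Meeting a given trajectory above `y`: power saving for the `3x+d` map -/

namespace Pool.Agent.Q74.MG

open Finset Filter Topology
open Pool.Agent.H499R2.ND (Td)
open Pool.Agent.H319R3.GC Pool.Agent.H828R3.GP
open Pool.Agent.H319R2 (beta beta_lt)

/-- the part of `O` in `[-X, X]` -/
def Part (O : Set ℤ) (X : ℝ) : Set ℤ := {b | b ∈ O ∧ |(b : ℝ)| ≤ X}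

theorem Part_finite (O : Set ℤ) (y : ℝ) : (Part O y).Finite := by
  apply (Set.finite_Icc (-⌈y⌉) ⌈y⌉).subset
  intro b hb
  have h := hb.2
  rw [abs_le] at h
  have h1 := Int.le_ceil y
  constructor
  · have : (-(⌈y⌉ : ℝ)) ≤ b := by linarith
    exact_mod_cast this
  · have : (b : ℝ) ≤ ⌈y⌉ := by linarith
    exact_mod_cast this

/-- the trajectory of `n` hits `O` through terms `> y` only -/
def Ent (d : ℤ) (O : Set ℤ) (y : ℝ) (n : ℤ) : Prop := ∃ i : ℕ, (Td d)^[i] n ∈ O ∧ ∀ l < i, y < (((Td d)^[l] n : ℤ) : ℝ)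

/-- proportion of the `n ≤ N` which enter `O` above `y` -/
noncomputable def fe (d : ℤ) (O : Set ℤ) (y : ℝ) (N : ℕ) : ℝ :=
  ({n : ℤ | 1 ≤ n ∧ n ≤ N ∧ Ent d O y n}.ncard : ℝ) / N

theorem fe_le_one (d : ℤ) (O : Set ℤ) (y : ℝ) (N : ℕ) : fe d O y N ≤ 1 := by
  unfold fe
  apply div_le_one_of_le₀ _ (Nat.cast_nonneg _)
  have h : {n : ℤ | 1 ≤ n ∧ n ≤ N ∧ Ent d O y n} ⊆ (Finset.Icc (1 : ℤ) N : Finset ℤ) := by
    intro n hn
    rw [Finset.mem_coe, Finset.mem_Icc]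
    exact ⟨hn.1, hn.2.1⟩
  have h1 := Set.ncard_le_ncard h (Finset.finite_toSet _)
  rw [Set.ncard_coe_finset, Int.card_Icc] at h1
  have h2 : ((N : ℤ) + 1 - 1).toNat = N := by simp
  rw [h2] at h1
  exact_mod_cast h1

theorem power_gen {e η : ℝ} (he0 : 0 < e) (hη : beta < η) (heη : e < 1 - η) {d : ℤ} (hd : d % 2 = 1) {A' : ℝ}
    (hA0 : 0 ≤ A') : ∃ K : ℝ, 0 < K ∧ ∀ O : Set ℤ, (∀ x ∈ O, Td d x ∈ O) →
      (∀ X : ℝ, 1 ≤ X → ((Part O X).ncard : ℝ) ≤ A' * X ^ η) →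
      ∀ (y : ℝ) (N : ℕ), 1 ≤ y → y ≤ N → fe d O y N ≤ K * y ^ (-e) := by
  classical
  have hk : Odd d := Int.odd_iff.2 hd
  have h1β : (0 : ℝ) ≤ beta := by
    unfold beta
    apply div_nonneg _ (Real.log_nonneg (by norm_num))
    apply Real.binEntropy_nonneg
    · exact div_nonneg (Real.log_nonneg (by norm_num)) (Real.log_nonneg (by norm_num))
    · rw [div_le_one (Real.log_pos (by norm_num))]
      exact Real.log_le_log (by norm_num) (by norm_num)
  have h0 : 0 < η := by linarith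
  have hη' : η < 1 := by linarith
  obtain ⟨s, hs, hsum⟩ := Pool.Agent.H319R2.Tk.cond η hη
  obtain ⟨K, hK, Y₀, hY₀, hpb⟩ := Pow.pb_all (adm3 hk) (s := s) (η := η) (A := A') hs h0.le (by linarith) (by
    rw [Finset.sum_range_succ, Finset.sum_range_one]
    simp only [m3]
    norm_num
    have e : (1 / 2 : ℝ) ^ s = 2⁻¹ ^ s := by norm_num
    rw [e] at hsum
    first
      | exact hsum.le
      | (refine le_trans (le_of_eq ?_) hsum.le; norm_num)) hA0 he0 (by linarith)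
  have he1 : e ≤ 1 := by linarith
  refine ⟨4 * K + A' + Y₀, by linarith, fun O hO hTr y N hy hyN => ?_⟩
  have hy0 : 0 < y := by linarith
  have hye : 0 < y ^ (-e) := Real.rpow_pos_of_pos hy0 _
  rcases lt_or_ge y Y₀ with hsm | hbig
  · refine (fe_le_one d O y N).trans ?_
    have h1 : y ^ e ≤ Y₀ := by
      calc y ^ e ≤ y ^ (1 : ℝ) := Real.rpow_le_rpow_of_exponent_le hy he1
        _ = y := Real.rpow_one _
        _ ≤ Y₀ := hsm.le
    have h2 : y ^ e * y ^ (-e) = 1 := by rw [← Real.rpow_add hy0, add_neg_cancel, Real.rpow_zero]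
    have h3 : 0 ≤ (4 * K + A') * y ^ (-e) := by positivity
    have h4 : y ^ e * y ^ (-e) ≤ Y₀ * y ^ (-e) := mul_le_mul_of_nonneg_right h1 hye.le
    rw [add_mul]
    linarith
  · have hOinv : ∀ x ∈ O, Tm 2 m3 (r3 d) x ∈ O := by
      intro x hx
      rw [Tm3]
      exact hO x hx
    have hOc : ∀ i, ((Pow.Lv 2 O i).card : ℝ) ≤ A' * (((2 : ℕ) : ℝ) ^ η) ^ i := by
      intro i
      have h1 : ((Pow.Lv 2 O i : Finset ℤ) : Set ℤ) ⊆ Part O ((2 : ℝ) ^ i) := by
        intro b hb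
        unfold Pow.Lv at hb
        rw [Finset.mem_coe, mem_filter] at hb
        obtain ⟨-, -, h3, h4⟩ := hb
        push_cast at h3
        exact ⟨h4, h3.le⟩
      have h2 := Set.ncard_le_ncard h1 (Part_finite _ _)
      rw [Set.ncard_coe_finset] at h2
      have h3 : ((Pow.Lv 2 O i).card : ℝ) ≤ (Part O ((2 : ℝ) ^ i)).ncard := by exact_mod_cast h2
      refine h3.trans ((hTr _ (one_le_pow₀ (by norm_num))).trans (le_of_eq ?_))
      rw [← Real.rpow_natCast, ← Real.rpow_natCast, ← Real.rpow_mul (by norm_num), ← Real.rpow_mul (by positivity),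
        mul_comm (i : ℝ) η]
      push_cast
      rfl
    have hpb' := hpb O hOinv hOc y hbig
    obtain ⟨S, hS⟩ : ∃ S : Set ℤ, S = {x | x ∈ Pow.Ht 2 m3 (r3 d) O y ∧ y < |(x : ℝ)|} := ⟨_, rfl⟩
    have hS1 : ∀ x ∈ S, y < |(x : ℝ)| := by
      intro x hx
      rw [hS] at hx
      exact hx.2
    have hρ0 : 0 ≤ K * y ^ (-e) := by positivity
    have hPB : ∀ a : ℝ, y / 2 ≤ a → 0 < a → PB S a 1 (K * y ^ (-e)) := by
      intro a _ ha
      rcases le_or_gt (2 * a) y with hsm | hbg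
      · exact I1_empty hS1 ha hsm 1 hρ0
      · intro c
        refine le_trans ?_ (hpb' a ha hbg c)
        unfold wc
        have hsub : {x : ℤ | x ∈ S ∧ a ≤ |(x : ℝ)| ∧ |(x : ℝ)| < 2 * a ∧ ((1 : ℕ) : ℤ) ∣ x - c} ⊆
            {x : ℤ | x ∈ Pow.Ht 2 m3 (r3 d) O y ∧ a ≤ |(x : ℝ)| ∧ |(x : ℝ)| < 2 * a ∧ ((1 : ℕ) : ℤ) ∣ x - c} := by
          rintro x ⟨h1, h2⟩
          rw [hS] at h1
          exact ⟨h1.1, h2⟩
        have hfin : {x : ℤ | x ∈ Pow.Ht 2 m3 (r3 d) O y ∧ a ≤ |(x : ℝ)| ∧ |(x : ℝ)| < 2 * a ∧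
            ((1 : ℕ) : ℤ) ∣ x - c}.Finite := by
          apply (I1_window_finite (Pow.Ht 2 m3 (r3 d) O y) (2 * a)).subset
          rintro x ⟨h1, -, h3, -⟩
          exact ⟨h1, h3⟩
        exact_mod_cast Set.ncard_le_ncard hsub hfin
    have hN1 : (1 : ℝ) ≤ N := hy.trans hyN
    obtain ⟨n, hn⟩ := pow_unbounded_of_one_lt (2 * (N : ℝ)) (show (1 : ℝ) < 2 by norm_num)
    have h1 := I1_sum hS1 hρ0 hPB n (2 * N) (by linarith) (by
      have : (2 : ℝ) ^ n ≤ y * 2 ^ n := le_mul_of_one_le_left (by positivity) (by linarith)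
      linarith)
    have hsub : {n : ℤ | 1 ≤ n ∧ n ≤ N ∧ Ent d O y n} ⊆ {x : ℤ | x ∈ S ∧ |(x : ℝ)| < 2 * N} ∪ Part O y := by
      rintro n ⟨hn1, hn2, i, hi, hl⟩
      have hnR : (1 : ℝ) ≤ n := by exact_mod_cast hn1
      have hnN : (n : ℝ) ≤ N := by exact_mod_cast hn2
      have habs : |(n : ℝ)| = n := abs_of_nonneg (by linarith)
      rcases le_or_gt (n : ℝ) y with h5 | h5
      · right
        have hi0 : i = 0 := by
          by_contra hi0
          have := hl 0 (by omega)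
          rw [Function.iterate_zero_apply] at this
          linarith
        rw [hi0, Function.iterate_zero_apply] at hi
        exact ⟨hi, by rw [habs]; exact h5⟩
      · left
        refine ⟨?_, by rw [habs]; linarith⟩
        rw [hS]
        refine ⟨⟨i, ?_, fun l hl' => ?_⟩, by rw [habs]; exact h5⟩
        · rw [Tm3]
          exact hi
        · rw [Tm3]
          exact lt_of_lt_of_le (hl l hl') (le_abs_self _)
    have hfinS : {x : ℤ | x ∈ S ∧ |(x : ℝ)| < 2 * N}.Finite := I1_window_finite S _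
    have h2 := (Set.ncard_le_ncard hsub (hfinS.union (Part_finite _ _))).trans (Set.ncard_union_le _ _)
    have h3 : ({n : ℤ | 1 ≤ n ∧ n ≤ N ∧ Ent d O y n}.ncard : ℝ) ≤
        ({x : ℤ | x ∈ S ∧ |(x : ℝ)| < 2 * N}.ncard : ℝ) + (Part O y).ncard := by exact_mod_cast h2
    have h4 := hTr y hy
    unfold fe
    rw [div_le_iff₀ (by linarith)]
    have h5 : y ^ η ≤ N * y ^ (-e) := by
      calc y ^ η ≤ y ^ (1 - e) := Real.rpow_le_rpow_of_exponent_le hy (by linarith)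
        _ = y * y ^ (-e) := by rw [sub_eq_add_neg, Real.rpow_add hy0, Real.rpow_one]
        _ ≤ N * y ^ (-e) := mul_le_mul_of_nonneg_right hyN hye.le
    have h6 : A' * y ^ η ≤ A' * (N * y ^ (-e)) := mul_le_mul_of_nonneg_left h5 hA0
    have h7 : 0 ≤ Y₀ * y ^ (-e) * N := by positivity
    calc ({n : ℤ | 1 ≤ n ∧ n ≤ N ∧ Ent d O y n}.ncard : ℝ) ≤ 2 * (K * y ^ (-e)) * (2 * N) + A' * (N * y ^ (-e)) := by
          linarith
      _ ≤ (4 * K + A' + Y₀) * y ^ (-e) * N := by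
          have e1 : (4 * K + A' + Y₀) * y ^ (-e) * N = 2 * (K * y ^ (-e)) * (2 * N) + A' * (N * y ^ (-e)) + Y₀ * y ^ (-e) * N := by
            ring
          rw [e1]
          linarith

/-- `1 - H(log_3 2)` -/
theorem power {e : ℝ} (he0 : 0 < e) (he : e < 1 - beta) {d : ℤ} (hd : d % 2 = 1) (hd3 : ¬ (3 : ℤ) ∣ d) :
    ∃ K : ℝ, 0 < K ∧ ∀ (y : ℝ) (N : ℕ), 1 ≤ y → y ≤ N → (∀ m : ℤ, fm d y m N ≤ K * y ^ (-e)) ∧
      fe d {x | ∃ p : ℕ, 1 ≤ p ∧ (Td d)^[p] x = x} y N ≤ K * y ^ (-e) := by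
  classical
  obtain ⟨η, hη1, hη2⟩ := exists_between (show beta < 1 - e by linarith)
  have hη' : η < 1 := by linarith
  obtain ⟨A, hA⟩ := Pool.Agent.Results.MP_7f88e4_nt.OrbitCount.result.1 η hη1 hη'
  obtain ⟨B, hB0, hB⟩ := Pool.Agent.H319R2.Tk.sparse η hη1 hη'
  obtain ⟨A', hA'⟩ : ∃ A', A' = (max A 0 + B) * |(d : ℝ)| ^ (1 - η) := ⟨_, rfl⟩
  have hd0 : 0 ≤ |(d : ℝ)| ^ (1 - η) := by positivity
  have hA0 : 0 ≤ A' := by rw [hA']; positivity
  obtain ⟨K, hK, h⟩ := power_gen he0 hη1 (by linarith) hd hA0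
  refine ⟨K, hK, fun y N hy hyN => ⟨fun m => ?_, ?_⟩⟩
  · have h1 := h {b | ∃ k : ℕ, (Td d)^[k] m = b} (by
      rintro x ⟨k, rfl⟩
      exact ⟨k + 1, Function.iterate_succ_apply' _ _ _⟩) (fun X hX => by
        refine (hA d (by omega) m X hX).trans ?_
        rw [hA']
        apply mul_le_mul_of_nonneg_right _ (by positivity)
        apply mul_le_mul_of_nonneg_right _ hd0
        have := le_max_left A 0
        linarith) y N hy hyN
    have e1 : fm d y m N = fe d {b | ∃ k : ℕ, (Td d)^[k] m = b} y N := by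
      unfold fm fe
      congr 3
      ext n
      constructor
      · rintro ⟨h1, h2, i, j, h3, h4⟩
        exact ⟨h1, h2, i, ⟨j, h3.symm⟩, h4⟩
      · rintro ⟨h1, h2, i, ⟨j, h3⟩, h4⟩
        exact ⟨h1, h2, i, j, h3.symm, h4⟩
    rw [e1]
    exact h1
  · refine h {x | ∃ p : ℕ, 1 ≤ p ∧ (Td d)^[p] x = x} ?_ (fun X hX => ?_) y N hy hyN
    · rintro x ⟨p, hp, hx⟩
      refine ⟨p, hp, ?_⟩
      rw [← Function.iterate_succ_apply, Function.iterate_succ_apply', hx]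
    · obtain ⟨P, hP⟩ : ∃ P : Set ℤ, P = {x | ∃ p : ℕ, 1 ≤ p ∧ (Td d)^[p] x = x} := ⟨_, rfl⟩
      rw [← hP]
      have hPp : P = Function.periodicPts (Td d) := by
        rw [hP]
        ext x
        rfl
      have htame : Pool.Agent.H319R2.G.Tame (Td d) P := by
        rw [hPp]
        exact Pool.Agent.H319R2.G.tame_periodic _
      have hfin := Part_finite P X
      rw [Set.ncard_eq_toFinset_card _ hfin]
      refine (hB d hd P htame X hX hfin.toFinset (fun x hx => by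
        rw [Set.Finite.mem_toFinset] at hx
        exact hx)).trans ?_
      rw [hA']
      apply mul_le_mul_of_nonneg_right _ (by positivity)
      apply mul_le_mul_of_nonneg_right _ hd0
      have := le_max_right A 0
      linarith

end Pool.Agent.Q74.MG
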