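import Mathlib
import Pool.Agent.Q74.MG.Mrg
import Pool.Agent.Q74.MG.Pow3

set_option autoImplicit false

/-! # Merging points and entrance points into the cycles, one random starting point -/

namespace Pool.Agent.Q74.MG

open Finset Filter Topology
open Pool.Agent.H499R2.ND (Td)
open Pool.Agent.Q74.PD (pass)
open Pool.Agent.Results.MP_2d22f3_nt.FirstPassageLaw (freq)
open Pool.Agent.H319R2 (beta beta_lt)

/-- the periodic integers -/
def Per (d : ℤ) : Set ℤ := {x | ∃ p : ℕ, 1 ≤ p ∧ (Td d)^[p] x = x}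

theorem fe_eq (d : ℤ) (O : Set ℤ) (y : ℝ) (N : ℕ) : fe d O y N = freq N (Ent d O y) := rfl

open Classical in
/-- the first periodic term of the trajectory of `n` (`0` if there is none) -/
noncomputable def entr (d n : ℤ) : ℤ := if h : ∃ i : ℕ, (Td d)^[i] n ∈ Per d then (Td d)^[Nat.find h] n else 0

theorem entr_eq {d n : ℤ} {i : ℕ} (h : (Td d)^[i] n ∈ Per d) (hmin : ∀ l < i, (Td d)^[l] n ∉ Per d) :
    entr d n = (Td d)^[i] n := by
  classical
  have hex : ∃ i : ℕ, (Td d)^[i] n ∈ Per d := ⟨i, h⟩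
  unfold entr
  rw [dif_pos hex]
  have h3 : Nat.find hex = i := by
    rw [Nat.find_eq_iff]
    exact ⟨h, fun l hl => hmin l hl⟩
  rw [h3]

theorem entr_zero {d n : ℤ} (h : ¬ ∃ i : ℕ, (Td d)^[i] n ∈ Per d) : entr d n = 0 := by
  classical
  unfold entr
  rw [dif_neg h]

theorem entr_pass {d : ℤ} {y : ℝ} {n : ℤ} (h : ∃ k : ℕ, (((Td d)^[k] n : ℤ) : ℝ) ≤ y)
    (hm : ¬ Ent d (Per d) y n) : entr d n = entr d (pass d y n) := by
  obtain ⟨k, hk, hl⟩ := pass_spec h
  rw [hk]
  have h1 : ∀ i : ℕ, (Td d)^[i] n ∈ Per d → k < i := by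
    intro i hij
    by_contra hc
    rw [not_lt] at hc
    exact hm ⟨i, hij, fun l hl' => hl l (by omega)⟩
  have h2 : ∀ i : ℕ, (Td d)^[k + i] n = (Td d)^[i] ((Td d)^[k] n) := by
    intro i
    rw [← Function.iterate_add_apply]
    congr 1
    omega
  by_cases hex : ∃ i : ℕ, (Td d)^[i] n ∈ Per d
  · classical
    obtain ⟨i, hi⟩ : ∃ i, i = Nat.find hex := ⟨_, rfl⟩
    have hi1 : (Td d)^[i] n ∈ Per d := by rw [hi]; exact Nat.find_spec hex
    have hi2 : ∀ l < i, (Td d)^[l] n ∉ Per d := fun l hl' => by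
      rw [hi] at hl'
      exact Nat.find_min hex hl'
    have h3 := h1 i hi1
    obtain ⟨i', hi'⟩ : ∃ i', i = k + i' := ⟨i - k, by omega⟩
    rw [entr_eq hi1 hi2, entr_eq (i := i') (by rw [← h2, ← hi']; exact hi1) (fun l hl' hj' => by
      refine hi2 (k + l) (by omega) ?_
      rw [h2]
      exact hj'), ← h2, ← hi']
  · rw [entr_zero hex, entr_zero]
    rintro ⟨i, hij⟩
    exact hex ⟨k + i, by rw [h2]; exact hij⟩

theorem rare' : ∃ c : ℝ, 0 < c ∧ ∀ d : ℤ, d % 2 = 1 → ¬ (3 : ℤ) ∣ d → ∃ C : ℝ, 0 < C ∧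
    (∀ (y : ℝ) (N : ℕ), 1 ≤ y → y ≤ N → (∀ m : ℤ, fm d y m N ≤ C * (1 + Real.log y) ^ (-c)) ∧
      fe d (Per d) y N ≤ C * (1 + Real.log y) ^ (-c)) ∧
    ∀ y : ℝ, 1 ≤ y → |(d : ℝ)| ≤ y → ∃ μ : ℤ → ℝ,
      (∀ n : ℤ, 1 ≤ n → 0 ≤ pass d y n ∧ (pass d y n : ℝ) ≤ y) ∧
      (∀ b : ℤ, 0 ≤ μ b ∧ Tendsto (fun X : ℕ => freq X fun n => pass d y n = b) atTop (𝓝 (μ b)) ∧
        (μ b ≠ 0 → b = 0 ∨ y / 2 < (b : ℝ) ∧ (b : ℝ) ≤ y)) ∧
      ∑ b ∈ Icc (0 : ℤ) ⌊y⌋, μ b = 1 ∧ μ 0 ≤ C * (1 + Real.log y) ^ (-c) ∧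
      ∀ X : ℕ, y ≤ X → ∑ b ∈ Icc (0 : ℤ) ⌊y⌋, |(freq X fun n => pass d y n = b) - μ b| ≤
        C * (1 + Real.log (X / y)) ^ (-c) := by
  obtain ⟨c, hc, h⟩ := rare
  have hβ : (1 / 25 : ℝ) < 1 - beta := by
    have := beta_lt
    linarith
  refine ⟨min c (1 / 25), by positivity, fun d hd hd3 => ?_⟩
  obtain ⟨C, hC, h1, h2⟩ := h d hd hd3
  obtain ⟨K, hK, h3⟩ := power (e := 1 / 25) (by norm_num) hβ hd hd3
  have hm1 : ∀ t : ℝ, 0 ≤ t → C * (1 + t) ^ (-c) ≤ (C + K) * (1 + t) ^ (-(min c (1 / 25))) := fun t ht => by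
    have g1 := rpow_exp_mono ht (min_le_left c (1 / 25))
    have g2 : 0 ≤ (1 + t) ^ (-(min c (1 / 25))) := by positivity
    calc C * (1 + t) ^ (-c) ≤ C * (1 + t) ^ (-(min c (1 / 25))) := mul_le_mul_of_nonneg_left g1 hC.le
      _ ≤ _ := mul_le_mul_of_nonneg_right (by linarith) g2
  refine ⟨C + K, by positivity, fun y N hy hyN => ⟨fun m => (h1 m y N hy hyN).trans (hm1 _ (Real.log_nonneg hy)), ?_⟩,
    fun y hy hdy => ?_⟩
  · have hly := Real.log_nonneg hy
    have g0 := (h3 y N hy hyN).2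
    refine g0.trans ?_
    have g1 := rpow_exp_mono hly (min_le_right c (1 / 25))
    have g2 : 0 ≤ (1 + Real.log y) ^ (-(min c (1 / 25))) := by positivity
    have g3 : y ^ (-(1 / 25) : ℝ) ≤ (1 + Real.log y) ^ (-(1 / 25) : ℝ) := by
      have := exp_le_pow (c := 1 / 25) (by norm_num) hly
      rw [Real.rpow_def_of_pos (by linarith)]
      refine le_trans (le_of_eq ?_) this
      congr 1
      ring
    calc K * y ^ (-(1 / 25) : ℝ) ≤ K * (1 + Real.log y) ^ (-(min c (1 / 25))) :=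
          mul_le_mul_of_nonneg_left (g3.trans g1) hK.le
      _ ≤ _ := mul_le_mul_of_nonneg_right (by linarith) g2
  · obtain ⟨μ, p1, p2, p3, p4, p5⟩ := h2 y hy hdy
    refine ⟨μ, p1, p2, p3, p4.trans (hm1 _ (Real.log_nonneg hy)), fun X hX => (p5 X hX).trans (hm1 _ ?_)⟩
    apply Real.log_nonneg
    rw [one_le_div (by linarith)]
    exact hX

/-- functions of one random starting point which do not change when it is replaced by the first passage, except
when a trajectory of a finite set is met before -/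
theorem one' : ∃ c : ℝ, 0 < c ∧ ∀ d : ℤ, d % 2 = 1 → ¬ (3 : ℤ) ∣ d → ∃ K : ℝ, 0 < K ∧
    ∀ (k : ℕ) (v : Fin k → ℤ) (H : ℤ → ℝ), (∀ n, |H n| ≤ 1) →
      (∀ (y : ℝ) (n : ℤ), (∃ i : ℕ, (((Td d)^[i] n : ℤ) : ℝ) ≤ y) → (∀ j, ¬ Meets d y (v j) n) →
        ¬ Ent d (Per d) y n → H n = H (pass d y n)) →
      ∀ N X X' : ℕ, 1 ≤ N → N ≤ X → N ≤ X' → |mn X H - mn X' H| ≤ K * (k + 1) * (1 + Real.log N) ^ (-c) := by
  obtain ⟨c, hc, h0⟩ := rare'
  refine ⟨c, hc, fun d hd hd3 => ?_⟩
  obtain ⟨C, hC, h1, h2⟩ := h0 d hd hd3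
  have hd0 : (1 : ℝ) ≤ |(d : ℝ)| := by
    have : (1 : ℤ) ≤ |d| := Int.one_le_abs (by omega)
    exact_mod_cast this
  have hld := Real.log_nonneg hd0
  obtain ⟨t₁, ht₁⟩ : ∃ t₁, t₁ = 2 * Real.log |(d : ℝ)| := ⟨_, rfl⟩
  have ht₁0 : 0 ≤ t₁ := by rw [ht₁]; positivity
  have hT : 0 < (1 + t₁) ^ c := Real.rpow_pos_of_pos (by linarith) _
  have h2c : 0 < (1 / 2 : ℝ) ^ (-c) := by positivity
  refine ⟨2 * (1 + t₁) ^ c + 14 * C * (1 / 2 : ℝ) ^ (-c) + C, by positivity,
    fun k v H hH hinv N X X' hN hNX hNX' => ?_⟩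
  obtain ⟨t, ht⟩ : ∃ t, t = Real.log N := ⟨_, rfl⟩
  have hN1 : (1 : ℝ) ≤ N := by exact_mod_cast hN
  have ht0 : 0 ≤ t := by rw [ht]; exact Real.log_nonneg hN1
  have hNt : (N : ℝ) = Real.exp t := by rw [ht, Real.exp_log (by linarith)]
  have hq : 0 < (1 + t) ^ (-c) := Real.rpow_pos_of_pos (by linarith) _
  rw [← ht]
  have hk1 : (1 : ℝ) ≤ (k : ℝ) + 1 := by
    have : (0 : ℝ) ≤ k := Nat.cast_nonneg _
    linarith
  by_cases htt : t₁ ≤ t
  swap
  · rw [not_le] at htt
    have g1 : |mn X H - mn X' H| ≤ 2 := by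
      have g2 := abs_mn_le (X := X) (by omega) (g := H) (a := 1) (fun n _ => hH n)
      have g3 := abs_mn_le (X := X') (by omega) (g := H) (a := 1) (fun n _ => hH n)
      have g4 := abs_sub (mn X H) (mn X' H)
      linarith
    refine g1.trans ?_
    have g2 : 1 ≤ (1 + t₁) ^ c * (1 + t) ^ (-c) := by
      rw [Real.rpow_neg (by linarith), ← div_eq_mul_inv, one_le_div (Real.rpow_pos_of_pos (by linarith) _)]
      exact Real.rpow_le_rpow (by linarith) (by linarith) hc.le
    have g3 : 0 ≤ (14 * C * (1 / 2 : ℝ) ^ (-c) + C) * (1 + t) ^ (-c) := by positivity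
    have g4 : (2 * (1 + t₁) ^ c + 14 * C * (1 / 2 : ℝ) ^ (-c) + C) * (1 + t) ^ (-c) ≤
        (2 * (1 + t₁) ^ c + 14 * C * (1 / 2 : ℝ) ^ (-c) + C) * (k + 1) * (1 + t) ^ (-c) := by
      apply mul_le_mul_of_nonneg_right _ hq.le
      exact le_mul_of_one_le_right (by positivity) hk1
    refine le_trans ?_ g4
    linarith [g2, g3]
  · obtain ⟨y, hy⟩ : ∃ y, y = Real.exp (t / 2) := ⟨_, rfl⟩
    have hy1 : 1 ≤ y := by rw [hy]; exact Real.one_le_exp (by positivity)
    have hly : Real.log y = t / 2 := by rw [hy, Real.log_exp]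
    have hdy : |(d : ℝ)| ≤ y := by
      rw [hy, ← Real.log_le_iff_le_exp (by linarith)]
      linarith
    have hyN : y ≤ N := by
      rw [hy, hNt]
      exact Real.exp_le_exp.2 (by linarith)
    obtain ⟨μ, p1, p2, p3, p4, p5⟩ := h2 y hy1 hdy
    have hE : ∀ s : ℝ, t / 2 ≤ s → (1 + s) ^ (-c) ≤ (1 / 2 : ℝ) ^ (-c) * (1 + t) ^ (-c) := by
      intro s hs
      rw [← Real.mul_rpow (by norm_num) (by linarith)]
      apply Real.rpow_le_rpow_of_nonpos (by nlinarith) (by linarith) (by linarith)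
    obtain ⟨E, hEdef⟩ : ∃ E, E = C * ((1 / 2 : ℝ) ^ (-c) * (1 + t) ^ (-c)) := ⟨_, rfl⟩
    have hE0 : 0 ≤ E := by rw [hEdef]; positivity
    have main : ∀ Z : ℕ, N ≤ Z → |mn Z H - ∑ b ∈ Icc 0 ⌊y⌋, μ b * H b| ≤ (2 * k + 7) * E := by
      intro Z hZ
      have hZN : (N : ℝ) ≤ Z := by exact_mod_cast hZ
      have hyZ : y ≤ Z := hyN.trans hZN
      have hZ1 : 1 ≤ Z := by omega
      have hlZ : t / 2 ≤ Real.log (Z / y) := by
        have e1 : Real.exp (t / 2) ≤ Z / y := by
          rw [le_div_iff₀ (by linarith)]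
          calc Real.exp (t / 2) * y = Real.exp t := by
                rw [hy, ← Real.exp_add]
                congr 1
                ring
            _ ≤ Z := by rw [← hNt]; exact hZN
        rw [Real.le_log_iff_exp_le (lt_of_lt_of_le (Real.exp_pos _) e1)]
        exact e1
      have q1 : ∀ m : ℤ, freq Z (Meets d y m) ≤ E := by
        intro m
        have := (h1 y Z hy1 hyZ).1 m
        rw [fm_eq, hly] at this
        refine this.trans ?_
        rw [hEdef]
        exact mul_le_mul_of_nonneg_left (hE _ le_rfl) hC.le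
      have q1' : freq Z (Ent d (Per d) y) ≤ E := by
        have := (h1 y Z hy1 hyZ).2
        rw [fe_eq, hly] at this
        refine this.trans ?_
        rw [hEdef]
        exact mul_le_mul_of_nonneg_left (hE _ le_rfl) hC.le
      have q2 : ∑ b ∈ Icc 0 ⌊y⌋, |(freq Z fun n => pass d y n = b) - μ b| ≤ E := by
        refine (p5 Z hyZ).trans ?_
        rw [hEdef]
        exact mul_le_mul_of_nonneg_left (hE _ hlZ) hC.le
      have q3 : (freq Z fun n => pass d y n = 0) ≤ 2 * E := by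
        have r1 : |(freq Z fun n => pass d y n = 0) - μ 0| ≤ E := by
          refine le_trans ?_ q2
          exact Finset.single_le_sum (f := fun b => |(freq Z fun n => pass d y n = b) - μ b|)
            (fun b _ => abs_nonneg _) (by
              rw [Finset.mem_Icc]
              exact ⟨le_rfl, Int.le_floor.2 (by push_cast; linarith)⟩)
        have r2 : μ 0 ≤ E := by
          refine p4.trans ?_
          rw [hly, hEdef]
          exact mul_le_mul_of_nonneg_left (hE _ le_rfl) hC.le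
        rw [abs_le] at r1
        linarith [r1.2]
      -- replacing `n` by its first passage
      have q4 : |mn Z H - mn Z (fun n => H (pass d y n))| ≤ 2 * (k * E + 3 * E) := by
        classical
        rw [mn_sub]
        refine (mn_abs Z _).trans ?_
        have r1 : ∀ n : ℤ, 1 ≤ n → |H n - H (pass d y n)| ≤
            2 * ((∑ j : Fin k, if Meets d y (v j) n then (1 : ℝ) else 0) +
              ((if pass d y n = 0 then (1 : ℝ) else 0) + if Ent d (Per d) y n then (1 : ℝ) else 0)) := by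
          intro n hn
          have s0 : (0 : ℝ) ≤ if Ent d (Per d) y n then (1 : ℝ) else 0 := by split_ifs <;> norm_num
          have s1 : ∀ j : Fin k, (0 : ℝ) ≤ if Meets d y (v j) n then (1 : ℝ) else 0 := fun j => by
            split_ifs <;> norm_num
          have s2 : (0 : ℝ) ≤ if pass d y n = 0 then (1 : ℝ) else 0 := by split_ifs <;> norm_num
          have s3 : |H n - H (pass d y n)| ≤ 2 := by
            have := abs_sub (H n) (H (pass d y n))
            linarith [hH n, hH (pass d y n)]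
          by_cases s4 : pass d y n = 0
          · rw [if_pos s4] at s2 ⊢
            have := Finset.sum_nonneg (s := Finset.univ) fun j _ => s1 j
            linarith
          · by_cases s5 : ∃ j, Meets d y (v j) n
            · obtain ⟨j, hj⟩ := s5
              have s6 := Finset.single_le_sum (s := Finset.univ)
                (f := fun j => if Meets d y (v j) n then (1 : ℝ) else 0) (fun j _ => s1 j) (Finset.mem_univ j)
              simp only [if_pos hj] at s6
              linarith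
            · push Not at s5
              by_cases s7 : Ent d (Per d) y n
              · rw [if_pos s7]
                have := Finset.sum_nonneg (s := Finset.univ) fun j _ => s1 j
                linarith
              have s6 : ∃ i : ℕ, (((Td d)^[i] n : ℤ) : ℝ) ≤ y := by
                by_contra hc
                apply s4
                unfold Pool.Agent.Q74.PD.pass
                rw [dif_neg hc]
              rw [hinv y n s6 s5 s7, sub_self, abs_zero]
              have := Finset.sum_nonneg (s := Finset.univ) fun j _ => s1 j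
              linarith
        refine (mn_mono Z r1).trans ?_
        rw [mn_smul, mn_add, mn_add, mn_sum, mn_ind, mn_ind]
        have r2 : ∑ j : Fin k, mn Z (fun n => if Meets d y (v j) n then (1 : ℝ) else 0) ≤ k * E := by
          calc ∑ j : Fin k, mn Z (fun n => if Meets d y (v j) n then (1 : ℝ) else 0) ≤ ∑ _j : Fin k, E :=
                sum_le_sum fun j _ => by rw [mn_ind]; exact q1 (v j)
            _ = k * E := by rw [sum_const, card_univ, Fintype.card_fin, nsmul_eq_mul]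
        linarith
      have q5 : |mn Z (fun n => H (pass d y n)) - ∑ b ∈ Icc 0 ⌊y⌋, μ b * H b| ≤ E := by
        rw [mn_pass p1, ← sum_sub_distrib]
        refine (abs_sum_le_sum_abs _ _).trans (le_trans (sum_le_sum fun b _ => ?_) q2)
        rw [← sub_mul, abs_mul]
        exact mul_le_of_le_one_right (abs_nonneg _) (hH b)
      have q6 := abs_sub_le (mn Z H) (mn Z (fun n => H (pass d y n))) (∑ b ∈ Icc 0 ⌊y⌋, μ b * H b)
      linarith
    have m1 := main X hNX
    have m2 := main X' hNX'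
    rw [abs_sub_comm] at m2
    have m3 := abs_sub_le (mn X H) (∑ b ∈ Icc 0 ⌊y⌋, μ b * H b) (mn X' H)
    have m4 : |mn X H - mn X' H| ≤ 2 * ((2 * k + 7) * E) := by linarith
    refine m4.trans ?_
    rw [hEdef]
    have m5 : 0 ≤ (2 * (1 + t₁) ^ c + C) * (k + 1) * (1 + t) ^ (-c) := by positivity
    have m6 : 2 * ((2 * (k : ℝ) + 7) * (C * ((1 / 2 : ℝ) ^ (-c) * (1 + t) ^ (-c)))) ≤
        14 * C * (1 / 2 : ℝ) ^ (-c) * (k + 1) * (1 + t) ^ (-c) := by
      have m7 : 0 ≤ C * (1 / 2 : ℝ) ^ (-c) * (1 + t) ^ (-c) := by positivity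
      have m8 : (0 : ℝ) ≤ k := Nat.cast_nonneg _
      nlinarith [mul_nonneg m8 m7]
    linarith

end Pool.Agent.Q74.MG
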