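import Mathlib
import Pool.Agent.Q74.MG.Fin2
import Pool.Agent.Q74.MG.Gen

set_option autoImplicit false

/-! # All laws, with the entrance points into the cycles -/

namespace Pool.Agent.Q74.MG

open Finset Filter Topology
open Pool.Agent.H499R2.ND (Td G)
open Pool.Agent.Q74.PD (pass Pr cntP cntP_eq)

/-- all merging points of several trajectories, and on the diagonal the entrance points into the cycles -/
noncomputable def table {k : ℕ} (d : ℤ) (v : Fin k → ℤ) (i j : Fin k) : ℤ :=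
  if i = j then entr d (v i) else merge d (v i) (v j)

theorem table_inv {k : ℕ} {d : ℤ} (v : Fin k → ℤ) (i : Fin k) (y : ℝ) (n : ℤ)
    (h : ∃ i : ℕ, (((Td d)^[i] n : ℤ) : ℝ) ≤ y) (hm : ∀ j, ¬ Meets d y (v j) n) (he : ¬ Ent d (Per d) y n) :
    table d (Function.update v i n) = table d (Function.update v i (pass d y n)) := by
  funext a b
  unfold table
  by_cases hab : a = b
  · subst hab
    rw [if_pos rfl, if_pos rfl]
    by_cases ha : a = i
    · subst ha
      rw [Function.update_self, Function.update_self]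
      exact entr_pass h he
    · rw [Function.update_of_ne ha, Function.update_of_ne ha]
  · rw [if_neg hab, if_neg hab]
    by_cases ha : a = i
    · subst ha
      have hb : b ≠ a := fun h => hab h.symm
      rw [Function.update_self, Function.update_self, Function.update_of_ne hb, Function.update_of_ne hb]
      exact merge_left h (hm b)
    · rw [Function.update_of_ne ha, Function.update_of_ne ha]
      by_cases hb : b = i
      · subst hb
        rw [Function.update_self, Function.update_self]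
        exact merge_right h (hm a)
      · rw [Function.update_of_ne hb, Function.update_of_ne hb]

/-- THE LIMIT LAWS -/
theorem laws3 : ∃ c : ℝ, 0 < c ∧ ∀ d : ℤ, d % 2 = 1 → ¬ (3 : ℤ) ∣ d → ∃ K : ℝ, 0 < K ∧
    (∀ m : ℤ, ∃ l : ℤ × ℤ → ℝ, (∀ a, 0 ≤ l a) ∧ HasSum l 1 ∧ ∀ X : ℕ, 1 ≤ X →
      (Summable fun a => |lw (Finset.Icc (1 : ℤ) X) (fun n => (merge d n m, entr d n)) a - l a|) ∧
      ∑' a, |lw (Finset.Icc (1 : ℤ) X) (fun n => (merge d n m, entr d n)) a - l a| ≤ K * (1 + Real.log X) ^ (-c)) ∧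
    (∃ l : ℤ → ℝ, (∀ a, 0 ≤ l a) ∧ HasSum l 1 ∧ (∀ (N : ℕ) (X : ℕ × ℕ), 1 ≤ N → N ≤ X.1 ∧ N ≤ X.2 →
      (Summable fun a => |lp d X a - l a|) ∧ ∑' a, |lp d X a - l a| ≤ K * (1 + Real.log N) ^ (-c)) ∧
      ∃ δ : ℤ → ℝ, (∀ a, Tendsto (fun X : ℕ => (cntP d a X : ℝ) / X) atTop (𝓝 (δ a))) ∧
        (∀ a b : ℤ, (∀ k, 1 ≤ k → (Td d)^[k] a ≠ a) → 3 * b + d = 2 * a → l a = 2 * δ (2 * a) * δ b) ∧
        (∀ a : ℤ, (∀ k, 1 ≤ k → (Td d)^[k] a ≠ a) → (¬ ∃ b : ℤ, 3 * b + d = 2 * a) → l a = 0) ∧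
        ∀ z : ℝ, 1 ≤ z → 1 / (K * z) ≤ ∑' a : ℤ, if z < (a : ℝ) then l a else 0) ∧
    (∀ z : ℝ, 1 ≤ z → ∃ X₀ : ℕ, ∀ X₁ X₂ : ℕ, X₀ ≤ X₁ → X₀ ≤ X₂ → 1 / (K * z) ≤ pm d z X₁ X₂) ∧
    ∀ k : ℕ, ∃ l : (Fin k → Fin k → ℤ) → ℝ, (∀ a, 0 ≤ l a) ∧ HasSum l 1 ∧ ∀ (N : ℕ) (X : Fin k → ℕ), 1 ≤ N →
      (∀ i, N ≤ X i) →
      (Summable fun a => |lw (Fintype.piFinset fun i => Finset.Icc (1 : ℤ) (X i)) (table d) a - l a|) ∧
      ∑' a, |lw (Fintype.piFinset fun i => Finset.Icc (1 : ℤ) (X i)) (table d) a - l a| ≤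
        K * k ^ 2 * (1 + Real.log N) ^ (-c) := by
  obtain ⟨c, hc, h0⟩ := one'
  refine ⟨c, hc, fun d hd hd3 => ?_⟩
  obtain ⟨K, hK, h2⟩ := h0 d hd hd3
  obtain ⟨C, hC, htails⟩ := tails hd hd3
  have htail : ∀ z : ℝ, 1 ≤ z → ∃ X₀ : ℕ, ∀ X₁ X₂ : ℕ, X₀ ≤ X₁ → X₀ ≤ X₂ → 1 / (C * z) ≤ pr d z X₁ X₂ := fun z hz => by
    obtain ⟨X₀, hX₀⟩ := htails z hz
    exact ⟨X₀, fun X₁ X₂ h₁ h₂ => (hX₀ X₁ X₂ h₁ h₂).1⟩
  have hodd : Odd d := Int.odd_iff.2 hd
  have hcop : IsCoprime d 3 := by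
    rw [isCoprime_comm]
    exact (Int.prime_three.coprime_iff_not_dvd).2 hd3
  have hcard : ∀ X : ℕ, (Finset.Icc (1 : ℤ) X).card = X := card_Icc1
  obtain ⟨M, hM⟩ : ∃ M, M = 4 * K + C := ⟨_, rfl⟩
  have hM0 : 0 < M := by rw [hM]; positivity
  have hq : ∀ t : ℝ, 1 ≤ t → 0 ≤ (1 + Real.log t) ^ (-c) := fun t ht => by
    have := Real.log_nonneg ht
    positivity
  refine ⟨M, hM0, fun m => ?_, ?_, fun z hz => ?_, fun k => ?_⟩
  · obtain ⟨l, hl0, hl1, hl⟩ := lim_law (ι := ℤ × ℤ) (J := ℕ) (fun X N => N ≤ X) id (fun N M h => h)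
      (fun X a => lw (Finset.Icc (1 : ℤ) X) (fun n => (merge d n m, entr d n)) a)
      (fun N => M * (1 + Real.log N) ^ (-c)) (B_tendsto hc _)
      (fun X hX => lw_fin _ (by rw [hcard]; omega))
      (fun S N X X' hN hX hX' => by
        refine lw_tv _ _ _ _ (fun Φ hΦ => ?_) S
        have g1 := h2 1 (fun _ => m) (fun n => Φ (merge d n m, entr d n)) (fun n => hΦ _)
          (fun y n hp hm he => by rw [merge_left hp (hm 0), entr_pass hp he]) N X X' hN hX hX'
        unfold mn at g1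
        rw [hcard, hcard]
        refine g1.trans (mul_le_mul_of_nonneg_right ?_ (hq N (by exact_mod_cast hN)))
        push_cast
        rw [hM]
        linarith)
    exact ⟨l, hl0, hl1, fun X hX => hl X X hX le_rfl⟩
  · obtain ⟨l, hl0, hl1, hl⟩ := lim_law (ι := ℤ) (J := ℕ × ℕ) (fun X N => N ≤ X.1 ∧ N ≤ X.2)
      (fun N => (N, N)) (fun N M h => ⟨h, h⟩)
      (fun X a => lp d X a)
      (fun N => M * (1 + Real.log N) ^ (-c)) (B_tendsto hc _)
      (fun X hX => lw_fin _ (by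
        rw [card_product, hcard, hcard]
        exact Nat.mul_pos hX.1 hX.2))
      (fun S N X X' hN hX hX' => by
        refine lw_tv _ _ _ _ (fun Φ hΦ => ?_) S
        have e1 := lw_prod X fun n₁ n₂ => Φ (merge d n₁ n₂)
        have e2 := lw_prod X' fun n₁ n₂ => Φ (merge d n₁ n₂)
        have hN1 : (1 : ℝ) ≤ N := by exact_mod_cast hN
        have g1 : |(mn X.1 fun n₁ => mn X.2 fun n₂ => Φ (merge d n₁ n₂)) -
            mn X.1 fun n₁ => mn X'.2 fun n₂ => Φ (merge d n₁ n₂)| ≤ 2 * K * (1 + Real.log N) ^ (-c) := by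
          rw [mn_sub]
          refine abs_mn_le (hN.trans hX.1) fun n _ => ?_
          have := h2 1 (fun _ => n) (fun n₂ => Φ (merge d n n₂)) (fun n => hΦ _)
            (fun y n' hp hm _ => by rw [merge_right hp (hm 0)]) N X.2 X'.2 hN hX.2 hX'.2
          refine this.trans (le_of_eq ?_)
          push_cast
          ring
        have g2 : |(mn X.1 fun n₁ => mn X'.2 fun n₂ => Φ (merge d n₁ n₂)) -
            mn X'.1 fun n₁ => mn X'.2 fun n₂ => Φ (merge d n₁ n₂)| ≤ 2 * K * (1 + Real.log N) ^ (-c) := by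
          rw [mn_comm X.1, mn_comm X'.1, mn_sub]
          refine abs_mn_le (hN.trans hX'.2) fun n _ => ?_
          have := h2 1 (fun _ => n) (fun n₁ => Φ (merge d n₁ n)) (fun n => hΦ _)
            (fun y n' hp hm _ => by rw [merge_left hp (hm 0)]) N X.1 X'.1 hN hX.1 hX'.1
          refine this.trans (le_of_eq ?_)
          push_cast
          ring
        have g3 := (abs_sub_le _ _ _).trans (add_le_add g1 g2)
        rw [← e1, ← e2] at g3
        refine g3.trans ?_
        have := mul_nonneg hC.le (hq N hN1)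
        rw [hM]
        linarith)
    choose δ hδ using dens_all hodd hcop
    have hlim : ∀ a : ℤ, Tendsto (fun X : ℕ => lp d (X, X) a) atTop (𝓝 (l a)) := by
      intro a
      rw [tendsto_iff_norm_sub_tendsto_zero]
      refine squeeze_zero' (Eventually.of_forall fun X => norm_nonneg _) ?_ (B_tendsto hc M)
      filter_upwards [eventually_ge_atTop 1] with X hX
      obtain ⟨g1, g2⟩ := hl X (X, X) hX ⟨le_rfl, le_rfl⟩
      rw [Real.norm_eq_abs]
      exact (g1.le_tsum a fun b _ => abs_nonneg _).trans g2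
    refine ⟨l, hl0, hl1, hl, δ, hδ, fun a b hper hb => ?_, fun a hper hb => ?_, fun z hz => ?_⟩
    · exact tendsto_nhds_unique (hlim a) (lp_limit hd hper hb (hδ _) (hδ _))
    · exact tendsto_nhds_unique (hlim a) (lp_limit_zero hd hper hb)
    · refine le_trans ?_ (tail_law hl0 hl1.summable (B_tendsto hc M) (fun N hN => hl N (N, N) hN ⟨le_rfl, le_rfl⟩)
        (htail z hz))
      apply one_div_le_one_div_of_le (by positivity)
      apply mul_le_mul_of_nonneg_right _ (by linarith)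
      rw [hM]
      linarith
  · obtain ⟨X₀, hX₀⟩ := htails z hz
    refine ⟨X₀, fun X₁ X₂ h₁ h₂ => le_trans ?_ (hX₀ X₁ X₂ h₁ h₂).2⟩
    apply one_div_le_one_div_of_le (by positivity)
    apply mul_le_mul_of_nonneg_right _ (by linarith)
    rw [hM]
    linarith
  · have hcard2 : ∀ X : Fin k → ℕ, ((Fintype.piFinset fun i => Finset.Icc (1 : ℤ) (X i)).card : ℝ) = ∏ i, (X i : ℝ) := by
      intro X
      rw [Fintype.card_piFinset]
      push_cast
      exact prod_congr rfl fun i _ => by rw [hcard]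
    obtain ⟨l, hl0, hl1, hl⟩ := lim_law (ι := Fin k → Fin k → ℤ) (J := Fin k → ℕ) (fun X N => ∀ i, N ≤ X i)
      (fun N _ => N) (fun N M h _ => h)
      (fun X a => lw (Fintype.piFinset fun i => Finset.Icc (1 : ℤ) (X i)) (table d) a)
      (fun N => M * k ^ 2 * (1 + Real.log N) ^ (-c)) (B_tendsto hc _)
      (fun X hX => lw_fin _ (by
        rw [Fintype.card_piFinset]
        exact prod_pos fun i _ => by rw [hcard]; exact hX i))
      (fun S N X X' hN hX hX' => by
        refine lw_tv _ _ _ _ (fun Φ hΦ => ?_) S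
        have g1 := av_lip hN k (fun v => Φ (table d v)) (ε := K * (k + 1) * (1 + Real.log N) ^ (-c))
          (fun i v Z Z' hZ hZ' => h2 k v (fun n => Φ (table d (Function.update v i n))) (fun n => hΦ _)
            (fun y n hp hm he => by rw [table_inv v i y n hp hm he]) N Z Z' hN hZ hZ') X X' hX hX'
        rw [av_eq, av_eq] at g1
        rw [hcard2, hcard2]
        refine g1.trans ?_
        have hN1 : (1 : ℝ) ≤ N := by exact_mod_cast hN
        have hk : (k : ℝ) * (k + 1) ≤ 2 * k ^ 2 := by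
          rcases Nat.eq_zero_or_pos k with hk | hk
          · rw [hk]; norm_num
          · have : (1 : ℝ) ≤ k := by exact_mod_cast hk
            nlinarith
        have h5 : 0 ≤ K * (1 + Real.log N) ^ (-c) := mul_nonneg hK.le (hq N hN1)
        have h6 : 0 ≤ C * k ^ 2 * (1 + Real.log N) ^ (-c) := mul_nonneg (by positivity) (hq N hN1)
        have h7 : 0 ≤ K * (1 + Real.log N) ^ (-c) * k ^ 2 := by positivity
        have h8 := mul_le_mul_of_nonneg_left hk h5
        rw [hM]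
        calc (k : ℝ) * (K * (k + 1) * (1 + Real.log N) ^ (-c)) = K * (1 + Real.log N) ^ (-c) * (k * (k + 1)) := by ring
          _ ≤ K * (1 + Real.log N) ^ (-c) * (2 * k ^ 2) := h8
          _ ≤ 4 * (K * (1 + Real.log N) ^ (-c) * k ^ 2) + C * k ^ 2 * (1 + Real.log N) ^ (-c) := by linarith
          _ = (4 * K + C) * k ^ 2 * (1 + Real.log N) ^ (-c) := by ring)
    exact ⟨l, hl0, hl1, fun N X hN hX => hl N X hN hX⟩

end Pool.Agent.Q74.MG
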